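import Pool.Agent.Run7.h713.Fork2

/-!
The formula belongs to no global type definable over the structure of words.
-/

set_option autoImplicit false

namespace Run7.h713

open FirstOrder FirstOrder.Language

/-- the word with the digits `s` -/
def fw {N : ℕ} (s : Fin (N + 1) → Bool) : Wd :=
  cw (N + 1) (fun j => if h : j < N + 1 then s ⟨j, h⟩ else false)

theorem fw_dig {N : ℕ} (s : Fin (N + 1) → Bool) (j : ℕ) (hj : j < N + 1) :
    (fw s).dig j = s ⟨j, hj⟩ := by
  unfold fw
  rw [cw_dig hj]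
  simp [hj]

section

variable {U : Type 1} [Lw.Structure U] (i : Wd ↪ₑ[Lw] U)

include i

theorem tr_split (N : ℕ) (x y : U) (h1 : RR (i (zw 1)) (i (wn 1)) x y)
    (h2 : RR (i (zw (N + 1))) (i (zw (N + 1))) x x) :
    ∃ s : Fin (N + 1) → Bool, s 0 = true ∧ RR (i (zw (N + 1))) (i (fw s)) x y := by
  classical
  let S := {s : Fin (N + 1) → Bool // s 0 = true}
  let χ : Lw.Formula ((Fin 3 ⊕ S) ⊕ Fin 2) :=
    (Rf (Sum.inl (Sum.inl 0)) (Sum.inl (Sum.inl 1)) (Sum.inr 0) (Sum.inr 1)).imp
      ((Rf (Sum.inl (Sum.inl 2)) (Sum.inl (Sum.inl 2)) (Sum.inr 0) (Sum.inr 0)).imp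
        (Formula.iSup (fun s : S => Rf (Sum.inl (Sum.inl 2)) (Sum.inl (Sum.inr s)) (Sum.inr 0)
          (Sum.inr 1))))
  have h := tr_all i χ (Sum.elim ![zw 1, wn 1, zw (N + 1)] (fun s => fw s.1)) (by
    intro v
    show Formula.Realize (Formula.imp _ (Formula.imp _ (Formula.iSup _))) _
    rw [Formula.realize_imp, Formula.realize_imp, Formula.realize_iSup, realize_Rf, realize_Rf]
    intro k1 k2
    have k1' : XR (zw 1) (wn 1) (v 0) (v 1) := k1
    have k2' : XR (zw (N + 1)) (zw (N + 1)) (v 0) (v 0) := k2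
    rw [xr_wn] at k1'
    rw [xr_lev] at k2'
    have k2'' : N + 1 ≤ (v 0).len := k2'
    refine ⟨⟨fun j => (v 0).dig j ^^ (v 1).dig j, ?_⟩, ?_⟩
    · have := k1'.2.2 0 (by omega)
      simpa using this
    · rw [realize_Rf]
      show XR (zw (N + 1)) (fw (fun j : Fin (N + 1) => (v 0).dig j ^^ (v 1).dig j)) (v 0) (v 1)
      refine ⟨rfl, k1'.1, k2', fun j hj => ?_⟩
      have hj' : j < N + 1 := hj
      rw [fw_dig _ j hj']
      simp [zw]) ![x, y]
  have h' : Formula.Realize (Formula.imp _ (Formula.imp _ (Formula.iSup _))) _ := h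
  rw [Formula.realize_imp, Formula.realize_imp, Formula.realize_iSup, realize_Rf, realize_Rf] at h'
  obtain ⟨s, hs⟩ := h' h1 h2
  rw [realize_Rf] at hs
  exact ⟨s.1, s.2, hs⟩

theorem tr_excl (z t t' : Wd) (h : ∀ x y : Wd, XR z t x y → ¬ XR z t' x y) (x y : U)
    (h1 : RR (i z) (i t) x y) (h2 : RR (i z) (i t') x y) : False := by
  have h3 := tr_all i (α := Fin 3) (β := Fin 2)
    ((Rf (Sum.inl 0) (Sum.inl 1) (Sum.inr 0) (Sum.inr 1)).imp
      (Rf (Sum.inl 0) (Sum.inl 2) (Sum.inr 0) (Sum.inr 1)).not) ![z, t, t'] (by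
    intro v
    rw [Formula.realize_imp, Formula.realize_not, realize_Rf, realize_Rf]
    exact h (v 0) (v 1)) ![x, y]
  rw [Formula.realize_imp, Formula.realize_not, realize_Rf, realize_Rf] at h3
  exact h3 h1 h2

theorem no_def (b : U) (hb : Big i b) (q : Set (Fml Lw U 2)) (hq : IsGlobalType q)
    (hdef : IsDefinableOver (Set.range i) q) : theF (i (zw 1)) (i (wn 1)) b ∉ q := by
  classical
  intro hmem
  let χ : Lw.Formula (Fin 2 ⊕ Fin 2) := Rf (Sum.inr 0) (Sum.inr 1) (Sum.inl 0) (Sum.inl 1)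
  have hχ : ∀ (z t : U) (a : Fin 2 → U), (inst χ ![z, t]).Holds a ↔ RR z t (a 0) (a 1) := by
    intro z t a
    exact realize_Rf (Sum.inr 0) (Sum.inr 1) (Sum.inl 0) (Sum.inl 1)
      (Sum.elim a ![z, t] : Fin 2 ⊕ Fin 2 → U)
  obtain ⟨d, hdA, hd⟩ := hdef 2 χ
  choose c hc using hdA
  have hpar : d.par = i ∘ c := by
    funext j
    exact (hc j).symm
  set N := 1 + ∑ j, (c j).len with hN
  have hcN : ∀ j, (c j).len ≤ N := fun j => by
    have := Finset.single_le_sum (f := fun j => (c j).len) (fun _ _ => Nat.zero_le _)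
      (Finset.mem_univ j)
    omega
  -- the definition is evaluated in the structure of words
  have hD : ∀ z t : Wd, inst χ ![i z, i t] ∈ q ↔ d.form.Realize (Sum.elim ![z, t] c) := by
    intro z t
    rw [hd, ← i.map_formula d.form]
    unfold Fml.Holds
    rw [hpar]
    have e : (Sum.elim ![i z, i t] (i ∘ c) : Fin 2 ⊕ Fin d.len → U) = i ∘ Sum.elim ![z, t] c := by
      funext x
      rcases x with x | x
      · fin_cases x <;> rfl
      · rfl
    rw [e]
  -- some node of length `N + 1` belongs to the type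
  have h1 : ∃ s : Fin (N + 1) → Bool, s 0 = true ∧ inst χ ![i (zw (N + 1)), i (fw s)] ∈ q := by
    by_contra hcon
    push Not at hcon
    obtain ⟨a, ha⟩ := hq.consistent (insert (theF (i (zw 1)) (i (wn 1)) b)
      ((fun s : Fin (N + 1) → Bool => (inst χ ![i (zw (N + 1)), i (fw s)]).neg) ''
        {s | s 0 = true})) (((Set.toFinite _).image _).insert _) (by
      intro ψ hψ
      rcases Set.mem_insert_iff.1 hψ with rfl | hψ
      · exact hmem
      · obtain ⟨s, hs, rfl⟩ := hψ
        exact (hq.complete _).resolve_left (hcon s hs))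
    have k1 := ha _ (Set.mem_insert _ _)
    rw [holds_theF] at k1
    obtain ⟨s, hs, hs2⟩ := tr_split i N (a 0) (a 1) k1.1 (tr_trans i (hb (N + 1)) k1.2)
    have k2 := ha _ (Set.mem_insert_of_mem _ ⟨s, hs, rfl⟩)
    rw [Fml.holds_neg, hχ] at k2
    exact k2 hs2
  obtain ⟨s, hs0, hs⟩ := h1
  have hN1 : 1 ≤ N := by omega
  let g : Wd ≃[Lw] Wd := shear 0 (fun j => decide (j = N)) (fun j hj => by
    have : ¬ j = N := by omega
    simp [this])
  have hgc : ∀ j, g (c j) = c j := by
    intro j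
    ext l
    · rfl
    · show ((c j).dig l ^^ ((c j).dig 0 && decide (l = N) && decide (l < (c j).len))) = (c j).dig l
      have h5 := hcN j
      by_cases h6 : l = N
      · have h7 : ¬ l < (c j).len := by omega
        simp [h7]
      · simp [h6]
  have hgz : g (zw (N + 1)) = zw (N + 1) := by
    ext l
    · rfl
    · show ((zw (N + 1)).dig l ^^ ((zw (N + 1)).dig 0 && decide (l = N) &&
        decide (l < (zw (N + 1)).len))) = (zw (N + 1)).dig l
      simp [zw]
  have h2 : inst χ ![i (zw (N + 1)), i (g (fw s))] ∈ q := by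
    rw [hD] at hs ⊢
    rw [← realize_aut g] at hs
    have e : (fun a => g (Sum.elim ![zw (N + 1), fw s] c a)) =
        (Sum.elim ![zw (N + 1), g (fw s)] c : Fin 2 ⊕ Fin d.len → Wd) := by
      funext a
      rcases a with a | a
      · fin_cases a
        · exact hgz
        · rfl
      · exact hgc a
    rw [e] at hs
    exact hs
  obtain ⟨a, ha⟩ := hq.consistent {inst χ ![i (zw (N + 1)), i (fw s)],
    inst χ ![i (zw (N + 1)), i (g (fw s))]} (Set.toFinite _) (by
      intro ψ hψ
      rcases hψ with rfl | rfl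
      · exact hs
      · exact h2)
  have k1 := ha _ (Set.mem_insert _ _)
  have k2 := ha _ (Set.mem_insert_of_mem _ (Set.mem_singleton _))
  rw [hχ] at k1 k2
  refine tr_excl i (zw (N + 1)) (fw s) (g (fw s)) ?_ _ _ k1 k2
  intro x y e1 e2
  have f1 := e1.2.2.2 N (by show N < N + 1; omega)
  have f2 := e2.2.2.2 N (by show N < N + 1; omega)
  rw [← f1] at f2
  have f3 : (g (fw s)).dig N = ((fw s).dig N ^^ ((fw s).dig 0 && decide (N = N) &&
      decide (N < (fw s).len))) := rfl
  have f4 : (fw s).dig 0 = true := by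
    rw [fw_dig s 0 (by omega)]
    exact hs0
  have f5 : N < (fw s).len := by
    show N < N + 1
    omega
  rw [f3, f4] at f2
  revert f2
  cases (fw s).dig N <;> simp [f5]

end

end Run7.h713
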