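import Pool.Agent.Run7.h713.DDefs
import Pool.Agent.Run7.h713.NoDef

/-!
A definable downward directed family of sets of pairs of words which is contained in no definable
type.
-/

set_option autoImplicit false

namespace Run7.h713

open FirstOrder FirstOrder.Language

/-- definable sets are invariant under the automorphisms which fix all short words -/
theorem def_inv {n : ℕ} (D : Set (Fin n → Wd)) (hD : (Set.univ : Set Wd).Definable Lw D) :
    ∃ N : ℕ, ∀ g : Wd ≃[Lw] Wd, (∀ x : Wd, x.len ≤ N → g x = x) →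
      ∀ v : Fin n → Wd, (fun j => g (v j)) ∈ D ↔ v ∈ D := by
  rw [Set.definable_iff_finitely_definable] at hD
  obtain ⟨A, -, hD⟩ := hD
  rw [Set.definable_iff_exists_formula_sum] at hD
  obtain ⟨φ, rfl⟩ := hD
  refine ⟨A.sup Wd.len, fun g hg v => ?_⟩
  have h := realize_aut g φ (Sum.elim (Subtype.val) v)
  have e : (fun a => g (Sum.elim (Subtype.val) v a)) =
      (Sum.elim (Subtype.val) (fun j => g (v j)) : ((A : Set Wd) : Type) ⊕ Fin n → Wd) := by
    funext a
    rcases a with a | a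
    · exact hg _ (Finset.le_sup (f := Wd.len) a.2)
    · rfl
  have h' := h
  rw [show (fun a => g (Sum.elim (Subtype.val) v a)) =
      (Sum.elim (Subtype.val) (fun j => g (v j)) : ((A : Set Wd) : Type) ⊕ Fin n → Wd)
    from e] at h'
  exact h'

/-- sets defined by a formula with parameters are definable -/
theorem def_inst {L : FirstOrder.Language.{0, 0}} {M : Type} [L.Structure M] {n m : ℕ}
    (φ : L.Formula (Fin n ⊕ Fin m)) (b : Fin m → M) :
    (Set.univ : Set M).Definable L {a : Fin n → M | φ.Realize (Sum.elim a b)} := by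
  rw [Set.definable_iff_exists_formula_sum]
  refine ⟨φ.relabel (Sum.elim Sum.inr (fun j => Sum.inl ⟨b j, Set.mem_univ _⟩)), ?_⟩
  ext a
  show _ ↔ (φ.relabel _).Realize _
  rw [Formula.realize_relabel]
  have e : (Sum.elim Subtype.val a ∘ Sum.elim Sum.inr
      (fun j => Sum.inl (⟨b j, Set.mem_univ _⟩ : (Set.univ : Set M))) :
      Fin n ⊕ Fin m → M) = Sum.elim a b := by
    funext x
    rcases x with x | x <;> rfl
  rw [e]
  exact Iff.rfl

/-- The pairs of words of the same length, at least the length of `b`, whose first digits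
differ. -/
def famX : Set (Fin 1 ⊕ Fin 2 → Wd) :=
  {v | XR (zw 1) (wn 1) (v (Sum.inr 0)) (v (Sum.inr 1)) ∧
    XR (v (Sum.inl 0)) (v (Sum.inl 0)) (v (Sum.inr 0)) (v (Sum.inr 0))}

theorem mem_famX (b : Fin 1 → Wd) (a : Fin 2 → Wd) : a ∈ Fiber famX b ↔
    XR (zw 1) (wn 1) (a 0) (a 1) ∧ (b 0).len ≤ (a 0).len := by
  show XR (zw 1) (wn 1) (a 0) (a 1) ∧ XR (b 0) (b 0) (a 0) (a 0) ↔ _
  rw [xr_lev]

theorem def_famX : (Set.univ : Set Wd).Definable Lw famX := by
  rw [Set.definable_iff_exists_formula_sum]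
  refine ⟨(Rf (Sum.inl ⟨zw 1, Set.mem_univ _⟩) (Sum.inl ⟨wn 1, Set.mem_univ _⟩)
    (Sum.inr (Sum.inr 0)) (Sum.inr (Sum.inr 1))) ⊓ (Rf (Sum.inr (Sum.inl 0)) (Sum.inr (Sum.inl 0))
    (Sum.inr (Sum.inr 0)) (Sum.inr (Sum.inr 0))), ?_⟩
  ext v
  show _ ↔ Formula.Realize _ _
  rw [Formula.realize_inf, realize_Rf, realize_Rf]
  exact Iff.rfl

theorem dir_famX : IsDirectedFamily Lw (Set.univ : Set (Fin 1 → Wd)) famX where
  index := Set.definable_univ
  family := def_famX
  inhabited := ⟨fun _ => zw 0, Set.mem_univ _⟩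
  nonempty := by
    intro b _
    refine ⟨![zw ((b 0).len + 1), wn ((b 0).len + 1)], ?_⟩
    rw [mem_famX]
    refine ⟨(xr_wn _ _ _).2 ⟨rfl, ?_, fun j hj => ?_⟩, ?_⟩
    · show 1 ≤ (b 0).len + 1
      omega
    · have h1 : j < (b 0).len + 1 := by omega
      show ((zw ((b 0).len + 1)).dig j ^^ (wn ((b 0).len + 1)).dig j) = decide (j = 0)
      unfold wn
      rw [cw_dig h1]
      simp [zw]
    · show (b 0).len ≤ (b 0).len + 1
      omega
  directed := by
    intro b _ b' _
    rcases le_total (b 0).len (b' 0).len with h | h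
    · refine ⟨b', Set.mem_univ _, fun a ha => ⟨?_, ha⟩⟩
      rw [mem_famX] at ha ⊢
      exact ⟨ha.1, h.trans ha.2⟩
    · refine ⟨b, Set.mem_univ _, fun a ha => ⟨ha, ?_⟩⟩
      rw [mem_famX] at ha ⊢
      exact ⟨ha.1, h.trans ha.2⟩

theorem no_deftype (p : Set (Set (Fin 2 → Wd))) (hp : IsCompleteType Lw p)
    (hdef : IsDefinableType Lw p) : ∃ b ∈ (Set.univ : Set (Fin 1 → Wd)), Fiber famX b ∉ p := by
  classical
  by_contra hcon
  push Not at hcon
  let χ : Lw.Formula (Fin 2 ⊕ Fin 2) := Rf (Sum.inr 0) (Sum.inr 1) (Sum.inl 0) (Sum.inl 1)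
  have hχ : ∀ (b a : Fin 2 → Wd), χ.Realize (Sum.elim a b) ↔ XR (b 0) (b 1) (a 0) (a 1) := by
    intro b a
    exact realize_Rf (Sum.inr 0) (Sum.inr 1) (Sum.inl 0) (Sum.inl 1)
      (Sum.elim a b : Fin 2 ⊕ Fin 2 → Wd)
  obtain ⟨N0, hN0⟩ := def_inv _ (hdef 2 χ)
  set N := N0 + 1 with hN
  -- the nodes
  let A : (Fin (N + 1) → Bool) → Set (Fin 2 → Wd) := fun s =>
    {a | χ.Realize (Sum.elim a ![zw (N + 1), fw s])}
  have hA : ∀ s a, a ∈ A s ↔ XR (zw (N + 1)) (fw s) (a 0) (a 1) := fun s a =>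
    hχ ![zw (N + 1), fw s] a
  have h1 : ∃ s : Fin (N + 1) → Bool, s 0 = true ∧ A s ∈ p := by
    by_contra hno
    push Not at hno
    have hcompl : ∀ s : Fin (N + 1) → Bool, s 0 = true → (A s)ᶜ ∈ p := fun s hs =>
      (hp.complete _ (def_inst χ _)).resolve_left (hno s hs)
    have hfin : ∀ S : Finset (Fin (N + 1) → Bool), (∀ s ∈ S, s 0 = true) →
        ∃ E ∈ p, E ⊆ Fiber famX (fun _ => zw (N + 1)) ∧ ∀ s ∈ S, ∀ a ∈ E, a ∉ A s := by
      intro S
      induction S using Finset.induction_on with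
      | empty =>
        intro _
        exact ⟨_, hcon (fun _ => zw (N + 1)) (Set.mem_univ _), subset_rfl, by simp⟩
      | insert s S hs ih =>
        intro hS
        obtain ⟨E, hE1, hE2, hE3⟩ := ih (fun t ht => hS t (Finset.mem_insert_of_mem ht))
        refine ⟨E ∩ (A s)ᶜ, hp.inter _ hE1 _ (hcompl s (hS s (Finset.mem_insert_self _ _))),
          fun a ha => hE2 ha.1, fun t ht a ha => ?_⟩
        rw [Finset.mem_insert] at ht
        rcases ht with rfl | ht
        · exact ha.2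
        · exact hE3 t ht a ha.1
    obtain ⟨E, hE1, hE2, hE3⟩ := hfin (Finset.univ.filter (fun s => s 0 = true)) (by simp)
    obtain ⟨a, ha⟩ := hp.nonempty E hE1
    have h3 := hE2 ha
    rw [mem_famX, xr_wn] at h3
    obtain ⟨⟨k1, k2, k3⟩, k4⟩ := h3
    have k5 : N + 1 ≤ (a 0).len := k4
    refine hE3 (fun j => (a 0).dig j ^^ (a 1).dig j) ?_ a ha ?_
    · rw [Finset.mem_filter]
      refine ⟨Finset.mem_univ _, ?_⟩
      have := k3 0 (by omega)
      simpa using this
    · rw [hA]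
      refine ⟨rfl, k1, k4, fun j hj => ?_⟩
      have hj' : j < N + 1 := hj
      rw [fw_dig _ j hj']
      simp [zw]
  obtain ⟨s, hs0, hs⟩ := h1
  have hN1 : 1 ≤ N := by omega
  let g : Wd ≃[Lw] Wd := shear 0 (fun j => decide (j = N)) (fun j hj => by
    have : ¬ j = N := by omega
    simp [this])
  have hgN : ∀ x : Wd, x.len ≤ N0 → g x = x := by
    intro x hx
    ext l
    · rfl
    · show (x.dig l ^^ (x.dig 0 && decide (l = N) && decide (l < x.len))) = x.dig l
      by_cases h6 : l = N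
      · have h7 : ¬ l < x.len := by omega
        simp [h7]
      · simp [h6]
  have hgz : g (zw (N + 1)) = zw (N + 1) := by
    ext l
    · rfl
    · show ((zw (N + 1)).dig l ^^ ((zw (N + 1)).dig 0 && decide (l = N) &&
        decide (l < (zw (N + 1)).len))) = (zw (N + 1)).dig l
      simp [zw]
  have h2 : {a | χ.Realize (Sum.elim a ![zw (N + 1), g (fw s)])} ∈ p := by
    have h3 := (hN0 g hgN ![zw (N + 1), fw s]).2 hs
    have e : (fun j => g ((![zw (N + 1), fw s] : Fin 2 → Wd) j)) = ![zw (N + 1), g (fw s)] := by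
      funext j
      fin_cases j
      · exact hgz
      · rfl
    rw [e] at h3
    exact h3
  obtain ⟨a, ha1, ha2⟩ := hp.nonempty _ (hp.inter _ hs _ h2)
  have e1 := (hA s a).1 ha1
  have e2 := (hχ ![zw (N + 1), g (fw s)] a).1 ha2
  have e2' : XR (zw (N + 1)) (g (fw s)) (a 0) (a 1) := e2
  have f1 := e1.2.2.2 N (by show N < N + 1; omega)
  have f2 := e2'.2.2.2 N (by show N < N + 1; omega)
  rw [← f1] at f2
  have f3 : (g (fw s)).dig N = ((fw s).dig N ^^ ((fw s).dig 0 && decide (N = N) &&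
      decide (N < (fw s).len))) := rfl
  have f4 : (fw s).dig 0 = true := by
    rw [fw_dig s 0 (by omega)]
    exact hs0
  have f5 : N < (fw s).len := by
    show N < N + 1
    omega
  rw [f3, f4] at f2
  revert f2
  cases (fw s).dig N <;> simp [f5]

end Run7.h713
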