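import Pool.Agent.Run7.h713.Dist

/-!
Distality: the general case from the basic step.
-/

set_option autoImplicit false

namespace Run7.h713

open FirstOrder FirstOrder.Language

/-- the tuples `u` and `v` have the same order type -/
def OE {X J : Type} [LinearOrder X] (u v : J → X) : Prop := ∀ i j, u i < u j ↔ v i < v j

theorem exists_sorted {X J : Type} [LinearOrder X] [Finite J] (u v : J → X) (h : OE u v) :
    ∃ (n : ℕ) (s t : Fin n → X) (π : J → Fin n), StrictMono s ∧ StrictMono t ∧
      (∀ j, u j = s (π j)) ∧ (∀ j, v j = t (π j)) ∧ (∀ i, ∃ j, s i = u j) ∧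
      (∀ i, ∃ j, t i = v j) := by
  classical
  have : Fintype J := Fintype.ofFinite J
  let S : Finset X := Finset.univ.image u
  have hS : ∀ j, u j ∈ S := fun j => Finset.mem_image_of_mem _ (Finset.mem_univ j)
  let e : Fin S.card ≃o S := S.orderIsoOfFin rfl
  have hex : ∀ i, ∃ j, u j = (e i : X) := by
    intro i
    obtain ⟨j, _, hj⟩ := Finset.mem_image.1 (e i).2
    exact ⟨j, hj⟩
  choose jj hjj using hex
  have heq : ∀ i j, u i = u j → v i = v j := by
    intro i j hij
    refine le_antisymm (not_lt.1 fun hlt => ?_) (not_lt.1 fun hlt => ?_)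
    · exact absurd ((h j i).2 hlt) (by rw [hij]; exact lt_irrefl _)
    · exact absurd ((h i j).2 hlt) (by rw [hij]; exact lt_irrefl _)
  refine ⟨S.card, fun i => (e i : X), fun i => v (jj i), fun j => e.symm ⟨u j, hS j⟩, ?_, ?_, ?_,
    ?_, ?_, ?_⟩
  · intro i i' hi
    exact e.strictMono hi
  · intro i i' hi
    show v (jj i) < v (jj i')
    rw [← h, hjj, hjj]
    exact e.strictMono hi
  · intro j
    simp
  · intro j
    refine heq _ _ ?_
    rw [hjj]
    simp
  · intro i
    exact ⟨jj i, (hjj i).symm⟩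
  · intro i
    exact ⟨jj i, rfl⟩

section

variable {N : Type 1} [Lw.Structure N] {X : Type} [LinearOrder X]

/-- indiscernibility of `(d x)_{x ∈ V}` over the tuple `a`, for all finite index sets -/
def HJ {K β : Type} (a : K → N) (d : X → β → N) (V : Set X) : Prop :=
  ∀ (J : Type) [Finite J] (ρ : Lw.Formula (K ⊕ (J × β))) (u v : J → X), (∀ i, u i ∈ V) →
    (∀ i, v i ∈ V) → OE u v →
      (ρ.Realize (Sum.elim a (fun p => d (u p.1) p.2)) ↔
        ρ.Realize (Sum.elim a (fun p => d (v p.1) p.2)))

theorem HJ.of_indisc {m : ℕ} {b : X → Fin m → N} {A : Set N} {Y : Set X}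
    (h : Indiscernible (L := Lw) A Y b) {k : ℕ} (a : Fin k → N) (ha : ∀ i, a i ∈ A) :
    HJ a b Y := by
  intro J _ ρ u v hu hv huv
  obtain ⟨n, s, t, π, hs, ht, hus, hvt, hsu, htv⟩ := exists_sorted u v huv
  have key := h n k (ρ.relabel (Sum.elim Sum.inr (fun p => Sum.inl (π p.1, p.2)))) a ha s t hs ht
    (fun i => by obtain ⟨j, hj⟩ := hsu i; rw [hj]; exact hu j)
    (fun i => by obtain ⟨j, hj⟩ := htv i; rw [hj]; exact hv j)
  rw [Formula.realize_relabel, Formula.realize_relabel] at key
  have e1 : (Sum.elim (fun p => b (s p.1) p.2) a ∘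
      Sum.elim Sum.inr (fun p => Sum.inl (π p.1, p.2)) : Fin k ⊕ (J × Fin m) → N) =
      Sum.elim a (fun p => b (u p.1) p.2) := by
    funext z
    rcases z with z | z
    · rfl
    · show b (s (π z.1)) z.2 = b (u z.1) z.2
      rw [hus]
  have e2 : (Sum.elim (fun p => b (t p.1) p.2) a ∘
      Sum.elim Sum.inr (fun p => Sum.inl (π p.1, p.2)) : Fin k ⊕ (J × Fin m) → N) =
      Sum.elim a (fun p => b (v p.1) p.2) := by
    funext z
    rcases z with z | z
    · rfl
    · show b (t (π z.1)) z.2 = b (v z.1) z.2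
      rw [hvt]
  rw [e1, e2] at key
  exact key

/-- transport along a renaming of variables -/
theorem HJ.relabel {K K' β β' : Type} {a : K → N} {a' : K' → N} {d : X → β → N}
    {d' : X → β' → N} {V : Set X} (h : HJ a d V)
    (f : ∀ J : Type, K' ⊕ (J × β') → K ⊕ (J × β))
    (hf : ∀ (J : Type) (w : J → X) (z : K' ⊕ (J × β')),
      Sum.elim a' (fun p => d' (w p.1) p.2) z = Sum.elim a (fun p => d (w p.1) p.2) (f J z)) :
    HJ a' d' V := by
  intro J _ ρ u v hu hv huv
  have key := h J (ρ.relabel (f J)) u v hu hv huv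
  rw [Formula.realize_relabel, Formula.realize_relabel] at key
  have e : ∀ w : J → X, (Sum.elim a (fun p => d (w p.1) p.2) ∘ f J : K' ⊕ (J × β') → N) =
      Sum.elim a' (fun p => d' (w p.1) p.2) := fun w => funext fun z => (hf J w z).symm
  rw [e, e] at key
  exact key

theorem HJ.h1 {β : Type} {d : X → β → N} {V : Set X} (h : HJ (Empty.elim : Empty → N) d V) :
    H1 d V := by
  intro q ρ u v hu hv huv
  have key := h (Fin q) (ρ.relabel Sum.inr) u v hu hv huv
  rw [Formula.realize_relabel, Formula.realize_relabel] at key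
  exact key

theorem HJ.h2 {β : Type} {a : N} {d : X → β → N} {V : Set X}
    (h : HJ (fun _ : Fin 1 => a) d V) : H2 a d V :=
  fun q ρ u v hu hv huv => h (Fin q) ρ u v hu hv huv

variable [N ⊨ Lw.completeTheory Wd]

/-- the case of one parameter -/
theorem single (hsep : ∀ (β : Type) [Finite β], Sepa β) {β : Type} [Finite β] (c : X)
    (e1 : ∀ x : X, ∃ y : X, y < x) (e2 : ∀ x : X, ∃ y : X, x < y)
    (e3 : ∀ x : X, x < c → ∃ y : X, x < y ∧ y < c)
    (e4 : ∀ x : X, c < x → ∃ y : X, c < y ∧ y < x) (a : N) (d : X → β → N)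
    (h0 : HJ (Empty.elim : Empty → N) d Set.univ) (ha : HJ (fun _ : Fin 1 => a) d {x | x ≠ c}) :
    HJ (fun _ : Fin 1 => a) d Set.univ := by
  classical
  intro J _ ρ u v _ _ huv
  have : Fintype J := Fintype.ofFinite J
  -- moving a tuple away from `c`
  have main : ∀ u : J → X, ∃ u' : J → X, (∀ j, u' j ≠ c) ∧ OE u u' ∧
      (ρ.Realize (Sum.elim (fun _ => a) (fun p => d (u p.1) p.2)) ↔
        ρ.Realize (Sum.elim (fun _ => a) (fun p => d (u' p.1) p.2))) := by
    intro u
    let W : X → J → X := fun x j => if u j = c then x else u j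
    have hWc : W c = u := by
      funext j
      show (if u j = c then c else u j) = u j
      split_ifs with h
      · exact h.symm
      · rfl
    let V : Set X := {x | (∀ j, u j < c → u j < x) ∧ ∀ j, c < u j → x < u j}
    have hcV : c ∈ V := ⟨fun _ h => h, fun _ h => h⟩
    -- elements of `V` on both sides of `c`
    have left : ∃ x0, x0 < c ∧ ∀ j, u j < c → u j ≤ x0 := by
      by_cases hne : (Finset.univ.filter (fun j => u j < c)).Nonempty
      · obtain ⟨j, hj, hj2⟩ := Finset.exists_max_image _ u hne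
        rw [Finset.mem_filter] at hj
        exact ⟨u j, hj.2, fun i hi => hj2 i (Finset.mem_filter.2 ⟨Finset.mem_univ _, hi⟩)⟩
      · obtain ⟨y, hy⟩ := e1 c
        refine ⟨y, hy, fun j hj => ?_⟩
        exact absurd ⟨j, Finset.mem_filter.2 ⟨Finset.mem_univ _, hj⟩⟩ hne
    have right : ∃ x0, c < x0 ∧ ∀ j, c < u j → x0 ≤ u j := by
      by_cases hne : (Finset.univ.filter (fun j => c < u j)).Nonempty
      · obtain ⟨j, hj, hj2⟩ := Finset.exists_min_image _ u hne
        rw [Finset.mem_filter] at hj
        exact ⟨u j, hj.2, fun i hi => hj2 i (Finset.mem_filter.2 ⟨Finset.mem_univ _, hi⟩)⟩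
      · obtain ⟨y, hy⟩ := e2 c
        refine ⟨y, hy, fun j hj => ?_⟩
        exact absurd ⟨j, Finset.mem_filter.2 ⟨Finset.mem_univ _, hj⟩⟩ hne
    obtain ⟨x0, hx0, hx0'⟩ := left
    obtain ⟨z0, hz0, hz0'⟩ := right
    obtain ⟨x1, k1, k2⟩ := e3 x0 hx0
    obtain ⟨x2, k3, k4⟩ := e3 x1 k2
    obtain ⟨y2, k5, k6⟩ := e4 z0 hz0
    obtain ⟨y1, k7, k8⟩ := e4 y2 k5
    have memL : ∀ x, x0 < x → x < c → x ∈ V := fun x h h' =>
      ⟨fun j hj => (hx0' j hj).trans_lt h, fun j hj => h'.trans hj⟩
    have memR : ∀ x, c < x → x < z0 → x ∈ V := fun x h h' =>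
      ⟨fun j hj => hj.trans h, fun j hj => h'.trans_le (hz0' j hj)⟩
    -- comparison of the modified tuples
    have comp : ∀ {J' : Type} (w w' : J' → X), (∀ i, w i ∈ V) → (∀ i, w' i ∈ V) → OE w w' →
        OE (fun p : J' × J => W (w p.1) p.2) (fun p : J' × J => W (w' p.1) p.2) := by
      intro J' w w' hw hw' hww' p q
      show (if u p.2 = c then w p.1 else u p.2) < (if u q.2 = c then w q.1 else u q.2) ↔
        (if u p.2 = c then w' p.1 else u p.2) < (if u q.2 = c then w' q.1 else u q.2)
      by_cases hp : u p.2 = c <;> by_cases hq : u q.2 = c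
      · simp only [hp, hq, if_true]
        exact hww' _ _
      · simp only [hp, hq, if_true, if_false]
        rcases lt_or_gt_of_ne hq with h | h
        · exact iff_of_false ((hw p.1).1 _ h).not_gt ((hw' p.1).1 _ h).not_gt
        · exact iff_of_true ((hw p.1).2 _ h) ((hw' p.1).2 _ h)
      · simp only [hp, hq, if_true, if_false]
        rcases lt_or_gt_of_ne hp with h | h
        · exact iff_of_true ((hw q.1).1 _ h) ((hw' q.1).1 _ h)
        · exact iff_of_false ((hw q.1).2 _ h).not_gt ((hw' q.1).2 _ h).not_gt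
      · simp only [hp, hq, if_false]
    let d' : X → (J × β) → N := fun x p => d (W x p.1) p.2
    have g1 : H1 d' V := by
      intro q ρ' w w' hw hw' hww'
      have key := h0 (Fin q × J) (ρ'.relabel (fun p => Sum.inr ((p.1, p.2.1), p.2.2)))
        (fun p => W (w p.1) p.2) (fun p => W (w' p.1) p.2) (fun _ => trivial) (fun _ => trivial)
        (comp w w' hw hw' hww')
      rw [Formula.realize_relabel, Formula.realize_relabel] at key
      exact key
    have g2 : H2 a d' (V \ {c}) := by
      intro q ρ' w w' hw hw' hww'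
      have hWne : ∀ (w : Fin q → X), (∀ i, w i ∈ V \ {c}) → ∀ p : Fin q × J, W (w p.1) p.2 ≠ c := by
        intro w hw p
        show (if u p.2 = c then w p.1 else u p.2) ≠ c
        split_ifs with h
        · exact (hw p.1).2
        · exact h
      have key := ha (Fin q × J) (ρ'.relabel (Sum.elim Sum.inl
        (fun p => Sum.inr ((p.1, p.2.1), p.2.2))))
        (fun p => W (w p.1) p.2) (fun p => W (w' p.1) p.2) (hWne w hw) (hWne w' hw')
        (comp w w' (fun i => (hw i).1) (fun i => (hw' i).1) hww')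
      rw [Formula.realize_relabel, Formula.realize_relabel] at key
      have e : ∀ w : Fin q → X, ((Sum.elim (fun _ : Fin 1 => a)
          (fun p : (Fin q × J) × β => d (W (w p.1.1) p.1.2) p.2)) ∘
          (Sum.elim Sum.inl (fun p => Sum.inr ((p.1, p.2.1), p.2.2))) :
            Fin 1 ⊕ (Fin q × (J × β)) → N) =
          Sum.elim (fun _ => a) (fun p => d' (w p.1) p.2) := by
        intro w
        funext z
        rcases z with z | z <;> rfl
      rw [e, e] at key
      exact key
    have hfin := phi_case (hsep (J × β)) ρ (a := a) (d := d') hcV g1 g2 (memL x1 k1 k2)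
      (memL x2 (k1.trans k3) k4) (memR y1 k7 (k8.trans k6)) (memR y2 k5 k6) k3 k4 k7 k8
    refine ⟨W x1, ?_, ?_, ?_⟩
    · intro j
      show (if u j = c then x1 else u j) ≠ c
      split_ifs with h
      · exact k2.ne
      · exact h
    · have := comp (fun _ : Fin 1 => c) (fun _ : Fin 1 => x1) (fun _ => hcV)
        (fun _ => memL x1 k1 k2) (by intro i j; simp)
      intro i j
      have h := this (0, i) (0, j)
      simp only [hWc] at h
      exact h
    · have e : (fun p : J × β => d (u p.1) p.2) = d' c := by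
        funext p
        show d (u p.1) p.2 = d (W c p.1) p.2
        rw [hWc]
      rw [e]
      exact hfin.symm
  obtain ⟨u', hu1, hu2, hu3⟩ := main u
  obtain ⟨v', hv1, hv2, hv3⟩ := main v
  rw [hu3, hv3]
  exact ha J ρ u' v' hu1 hv1 (fun i j => (hu2 i j).symm.trans ((huv i j).trans (hv2 i j)))

/-- the case of finitely many parameters -/
theorem multi (hsep : ∀ (β : Type) [Finite β], Sepa β) (c : X)
    (e1 : ∀ x : X, ∃ y : X, y < x) (e2 : ∀ x : X, ∃ y : X, x < y)
    (e3 : ∀ x : X, x < c → ∃ y : X, x < y ∧ y < c)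
    (e4 : ∀ x : X, c < x → ∃ y : X, c < y ∧ y < x) (k : ℕ) :
    ∀ (β : Type) [Finite β] (a : Fin k → N) (d : X → β → N),
      HJ (Empty.elim : Empty → N) d Set.univ → HJ a d {x | x ≠ c} → HJ a d Set.univ := by
  induction k with
  | zero =>
    intro β _ a d h0 _
    exact h0.relabel (fun J => Sum.elim (fun i => i.elim0) Sum.inr) (by
      rintro J w (z | z)
      · exact z.elim0
      · rfl)
  | succ k ih =>
    intro β _ a d h0 ha
    have s1 : HJ (fun i : Fin k => a i.castSucc) d {x | x ≠ c} :=
      ha.relabel (fun J => Sum.elim (fun i => Sum.inl i.castSucc) Sum.inr) (by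
        rintro J w (z | z) <;> rfl)
    have s2 := ih β (fun i => a i.castSucc) d h0 s1
    let d' : X → (β ⊕ Fin k) → N := fun x => Sum.elim (d x) (fun i => a i.castSucc)
    have s3 : HJ (Empty.elim : Empty → N) d' Set.univ :=
      s2.relabel (fun J => Sum.elim Empty.elim
        (fun p => Sum.elim (fun t => Sum.inr (p.1, t)) (fun i => Sum.inl i) p.2)) (by
        rintro J w (z | ⟨j, z | z⟩)
        · exact z.elim
        · rfl
        · rfl)
    have s4 : HJ (fun _ : Fin 1 => a (Fin.last k)) d' {x | x ≠ c} :=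
      ha.relabel (fun J => Sum.elim (fun _ => Sum.inl (Fin.last k))
        (fun p => Sum.elim (fun t => Sum.inr (p.1, t)) (fun i => Sum.inl i.castSucc) p.2)) (by
        rintro J w (z | ⟨j, z | z⟩) <;> rfl)
    have s5 := single hsep c e1 e2 e3 e4 (a (Fin.last k)) d' s3 s4
    intro J _ ρ u v hu hv huv
    by_cases hJ : Nonempty J
    · obtain ⟨j0⟩ := hJ
      have key := s5 J (ρ.relabel (Sum.elim
        (fun i => Fin.lastCases (Sum.inl 0) (fun i => Sum.inr (j0, Sum.inr i)) i)
        (fun p => Sum.inr (p.1, Sum.inl p.2)))) u v hu hv huv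
      rw [Formula.realize_relabel, Formula.realize_relabel] at key
      have e : ∀ w : J → X, ((Sum.elim (fun _ : Fin 1 => a (Fin.last k))
          (fun p : J × (β ⊕ Fin k) => d' (w p.1) p.2)) ∘ (Sum.elim
          (fun i => Fin.lastCases (Sum.inl 0) (fun i => Sum.inr (j0, Sum.inr i)) i)
          (fun p => Sum.inr (p.1, Sum.inl p.2))) : Fin (k + 1) ⊕ (J × β) → N) =
          Sum.elim a (fun p => d (w p.1) p.2) := by
        intro w
        funext z
        rcases z with z | z
        · refine Fin.lastCases ?_ (fun i => ?_) z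
          · simp
          · simp [d']
        · rfl
      rw [e, e] at key
      exact key
    · have : IsEmpty J := not_nonempty_iff.1 hJ
      have : u = v := Subsingleton.elim _ _
      rw [this]

end

theorem distal_of_sepa (hsep : ∀ (β : Type) [Finite β], Sepa β) :
    IsDistal (Lw.completeTheory Wd) := by
  intro N _ _ X _ c e1 e2 e3 e4 m b A h0 hA n k φ a ha s t hs ht _ _
  have g0 : HJ (Empty.elim : Empty → N) b Set.univ :=
    (HJ.of_indisc h0 (Fin.elim0 : Fin 0 → N) (fun i => i.elim0)).relabel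
      (fun J => Sum.elim Empty.elim Sum.inr) (by
        rintro J w (z | z)
        · exact z.elim
        · rfl)
  have g1 : HJ a b {x | x ≠ c} := HJ.of_indisc hA a ha
  have g2 := multi hsep c e1 e2 e3 e4 k (Fin m) a b g0 g1
  have key := g2 (Fin n) (φ.relabel Sum.swap) s t (fun _ => trivial) (fun _ => trivial)
    (fun i j => by rw [hs.lt_iff_lt, ht.lt_iff_lt])
  rw [Formula.realize_relabel, Formula.realize_relabel] at key
  have e : ∀ w : Fin n → X, (Sum.elim a (fun p : Fin n × Fin m => b (w p.1) p.2) ∘ Sum.swap :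
      (Fin n × Fin m) ⊕ Fin k → N) = Sum.elim (fun p => b (w p.1) p.2) a := by
    intro w
    funext z
    rcases z with z | z <;> rfl
  rw [e, e] at key
  exact key

end Run7.h713
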