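import Pool.Agent.Run7.h713.Dfn
import Pool.Agent.Run7.h713.Dist2

/-!
The formulas in one variable are separated by formulas which define cells; hence the theory of the
structure of words is distal.
-/

set_option autoImplicit false

namespace Run7.h713

open FirstOrder FirstOrder.Language

section

variable {ι : Type}

theorem St_aut (φ : Lw.Formula (Fin 1 ⊕ ι)) (b : ι → Wd) (g : Wd ≃[Lw] Wd)
    (hg : ∀ j, g (b j) = b j) (x : Wd) : g x ∈ St φ b ↔ x ∈ St φ b := by
  have h := realize_aut g φ (Sum.elim (fun _ => x) b)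
  have e : (fun a => g (Sum.elim (fun _ => x) b a)) =
      (Sum.elim (fun _ => g x) b : Fin 1 ⊕ ι → Wd) := by
    funext a
    rcases a with a | a
    · rfl
    · exact hg a
  rw [e] at h
  exact h

/-- at a new length the set is everything or nothing -/
theorem new_level (φ : Lw.Formula (Fin 1 ⊕ ι)) (b : ι → Wd) (x y : Wd) (hl : y.len = x.len)
    (hn : ∀ i, x.len ≠ (b i).len) : y ∈ St φ b ↔ x ∈ St φ b := by
  let w : Wd := ⟨x.len, fun n => x.dig n ^^ y.dig n, fun n hn => by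
    rw [x.sup n hn, y.sup n (by omega)]; rfl⟩
  have hfix : ∀ j, trans w (b j) = b j := by
    intro j
    ext n
    · rfl
    · rw [trans_dig]
      have h1 : ¬ (b j).len = w.len := fun h => hn j h.symm
      simp [h1]
  have hxy : trans w x = y := by
    ext n
    · exact hl.symm
    · rw [trans_dig]
      show (x.dig n ^^ (decide (x.len = x.len) && (x.dig n ^^ y.dig n))) = y.dig n
      cases x.dig n <;> cases y.dig n <;> simp
  rw [← hxy]
  exact St_aut φ b _ hfix x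

/-- two elements with different membership are close to the parameters -/
theorem orb_D [Fintype ι] (φ : Lw.Formula (Fin 1 ⊕ ι)) (b : ι → Wd) (i : ι) (x y : Wd) (δ : ℕ)
    (hx : x.len = (b i).len) (hy : y.len = x.len) (hag : ∀ n < δ, x.dig n = y.dig n)
    (hD : ¬ (y ∈ St φ b ↔ x ∈ St φ b)) :
    ∃ s : Finset (ι × ι), (∀ p ∈ s, (b p.1).len = (b p.2).len ∧ δ < (b p.1).len) ∧
      ∀ n < δ, dz x n + dz (b i) n = ∑ p ∈ s, (dz (b p.1) n + dz (b p.2) n) := by
  rcases orbit b i x y δ hx hy hag with ⟨g, hg, rfl⟩ | h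
  · exact absurd (St_aut φ b g hg x) hD
  · exact h

/-- first difference of two words of the same length -/
theorem first_diff {x y : Wd} (hl : x.len = y.len) (hne : x ≠ y) :
    ∃ δ, δ < x.len ∧ x.dig δ ≠ y.dig δ ∧ ∀ n < δ, x.dig n = y.dig n := by
  classical
  have hex : ∃ n, x.dig n ≠ y.dig n := by
    by_contra hcon
    push Not at hcon
    exact hne (Wd.ext hl (funext hcon))
  refine ⟨Nat.find hex, ?_, Nat.find_spec hex, fun n hn => ?_⟩
  · by_contra hcon
    push Not at hcon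
    have := Nat.find_spec hex
    rw [x.sup _ hcon, y.sup _ (by omega)] at this
    exact this rfl
  · by_contra hcon
    exact Nat.find_min hex hn hcon

/-- agreement on the cells -/
structure Ag (M : ℕ) (D : Set Wd) (b : ι → Wd) (x x' : Wd) : Prop where
  lv : ∀ j ≤ M, ∀ ε, (x ∈ Yc lev D j ε ↔ x' ∈ Yc lev D j ε)
  br : ∀ i s, ∀ j ≤ M, ∀ ε, (x ∈ Yc (Bx i s b) D j ε ↔ x' ∈ Yc (Bx i s b) D j ε)
  sp : ∀ i s s', (x ∈ Spl (Bx i s b) (Bx i s' b) ↔ x' ∈ Spl (Bx i s b) (Bx i s' b))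
  ze : ∀ i, (x ∈ Bx i ∅ b 0 ↔ x' ∈ Bx i ∅ b 0)

theorem Ag.symm {M : ℕ} {D : Set Wd} {b : ι → Wd} {x x' : Wd} (h : Ag M D b x x') :
    Ag M D b x' x :=
  ⟨fun j hj ε => (h.lv j hj ε).symm, fun i s j hj ε => (h.br i s j hj ε).symm,
    fun i s s' => (h.sp i s s').symm, fun i => (h.ze i).symm⟩

theorem claimA (φ : Lw.Formula (Fin 1 ⊕ ι)) (b : ι → Wd) (M : ℕ)
    (hM : ∀ j, M ≤ j → ∀ ε x, x ∉ Yc lev (St φ b) j ε) (x x' : Wd)
    (hag : Ag M (St φ b) b x x') (hD : ¬ (x ∈ St φ b ↔ x' ∈ St φ b))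
    (hn : ∀ i, x'.len ≠ (b i).len) (hlt : x'.len < x.len) : False := by
  obtain ⟨j, hj, ε, hsep⟩ := chn_lev.alt M hM x x' (by rw [mem_lev]; omega)
    (by
      intro δ hδ
      rw [mem_lev] at hδ ⊢
      omega)
    (by
      intro hq
      have := hq x.len (by rw [mem_lev])
      rw [mem_lev] at this
      omega) hD
    (by
      intro y h1 h2
      refine new_level φ b x' y ?_ hn
      have h3 := h1 y.len (by rw [mem_lev])
      have h4 := h2 x'.len (by rw [mem_lev])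
      rw [mem_lev] at h3 h4
      omega)
  exact hsep (hag.lv j hj ε)

theorem zmod2_ne : ∀ p q r s : ZMod 2, p + r ≠ s → q + r ≠ s → p = q := by decide

theorem zmod2_ne' : ∀ p q r s : ZMod 2, p ≠ q → p + r ≠ s → q + r = s := by decide

theorem claimB [Fintype ι] (φ : Lw.Formula (Fin 1 ⊕ ι)) (b : ι → Wd) (M : ℕ)
    (hM : ∀ i s j, M ≤ j → ∀ ε x, x ∉ Yc (Bx i s b) (St φ b) j ε) (x x' : Wd)
    (hag : Ag M (St φ b) b x x') (hD : ¬ (x ∈ St φ b ↔ x' ∈ St φ b))
    (i : ι) (s : Finset (ι × ι)) (δ : ℕ) (h1 : x ∈ Bx i s b (δ + 1)) (h2 : x' ∈ Bx i s b δ)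
    (h3 : x' ∉ Bx i s b (δ + 1)) : False := by
  classical
  have hB := chn_Bx i s b
  have hout : ∀ z, z ∉ Bx i s b (δ + 1) → ∀ δ', z ∈ Bx i s b δ' → δ' ≤ δ := by
    intro z hz δ' hδ'
    by_contra hcon
    exact hz (hB.antitone (by omega) hδ')
  by_cases hom : ∀ y, Qr (Bx i s b) y x' → Qr (Bx i s b) x' y → (y ∈ St φ b ↔ x' ∈ St φ b)
  · obtain ⟨j, hj, ε, hsep⟩ := hB.alt M (hM i s) x x' (hB.antitone (Nat.zero_le _) h2)
      (by
        intro δ' hδ'
        exact hB.antitone (by have := hout x' h3 δ' hδ'; omega) h1)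
      (fun hq => h3 (hq _ h1)) hD hom
    exact hsep (hag.br i s j hj ε)
  · push Not at hom
    obtain ⟨y, hy1, hy2, hy3⟩ := hom
    have hy3' : ¬ (y ∈ St φ b ↔ x' ∈ St φ b) := by
      intro h
      rcases hy3 with h4 | h4
      · exact h4.2 (h.1 h4.1)
      · exact h4.1 (h.2 h4.2)
    have hyB : y ∈ Bx i s b δ := hy2 _ h2
    have hyB' : y ∉ Bx i s b (δ + 1) := fun h => h3 (hy1 _ h)
    obtain ⟨a1, a2, a3, a4⟩ := h1
    obtain ⟨b1, b2, b3, b4⟩ := h2
    obtain ⟨c1, c2, c3, c4⟩ := hyB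
    -- membership in the next set is decided by the digit
    have hnext : ∀ z : Wd, z ∈ Bx i s b δ → z ∉ Bx i s b (δ + 1) →
        dz z δ + dz (b i) δ ≠ ∑ p ∈ s, (dz (b p.1) δ + dz (b p.2) δ) := by
      rintro z ⟨e1, e2, e3, e4⟩ hz heq
      refine hz ⟨e1, by omega, a3, fun n hn => ?_⟩
      rcases Nat.lt_or_ge n δ with h | h
      · exact e4 n h
      · have : n = δ := by omega
        rw [this]
        exact heq
    have hdx' := hnext x' ⟨b1, b2, b3, b4⟩ h3
    have hdy := hnext y ⟨c1, c2, c3, c4⟩ hyB'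
    have hlen : x'.len = y.len := by omega
    have hne : x' ≠ y := by
      rintro rfl
      exact hy3' Iff.rfl
    obtain ⟨δ', d1, d2, d3⟩ := first_diff hlen hne
    have hδ' : δ + 1 ≤ δ' := by
      by_contra hcon
      rcases Nat.lt_or_ge δ' δ with h | h
      · refine d2 (dz_inj.1 ?_)
        have e1 := b4 δ' h
        have e2 := c4 δ' h
        rw [← e2] at e1
        exact add_right_cancel e1
      · have : δ' = δ := by omega
        rw [this] at d2
        exact d2 (dz_inj.1 (zmod2_ne _ _ _ _ hdx' hdy))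
    obtain ⟨s', hs1, hs2⟩ := orb_D φ b i x' y δ' b1 hlen.symm d3 hy3'
    have hx's' : x' ∈ Bx i s' b (δ + 1) :=
      ⟨b1, by omega, fun p hp => ⟨(hs1 p hp).1, by have := (hs1 p hp).2; omega⟩,
        fun n hn => hs2 n (by omega)⟩
    have hin : x ∈ Spl (Bx i s b) (Bx i s' b) := by
      refine ⟨δ + 1, ?_, ⟨a1, a2, a3, a4⟩⟩
      rintro z ⟨_, _, _, e4⟩ ⟨_, _, _, f4⟩
      have g1 := e4 δ (by omega)
      have g2 := f4 δ (by omega)
      have g3 := hx's'.2.2.2 δ (by omega)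
      exact hdx' (by rw [g3, ← g2, g1])
    have hnin : x' ∉ Spl (Bx i s b) (Bx i s' b) := by
      rintro ⟨δ'', e1, e2⟩
      have h5 := hout x' h3 δ'' e2
      exact e1 x' e2 ((chn_Bx i s' b).antitone (by omega) hx's')
    exact hnin ((hag.sp i s s').1 hin)

theorem sep_fix [Fintype ι] (φ : Lw.Formula (Fin 1 ⊕ ι)) (b : ι → Wd) (M : ℕ)
    (hM : ∀ B, Chn B → ∀ j, M ≤ j → ∀ ε x, x ∉ Yc B (St φ b) j ε) (x x' : Wd)
    (hag : Ag M (St φ b) b x x') : x ∈ St φ b ↔ x' ∈ St φ b := by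
  classical
  by_contra hD
  have hD' : ¬ (x' ∈ St φ b ↔ x ∈ St φ b) := fun h => hD h.symm
  have hze : ∀ i, (x.len = (b i).len ↔ x'.len = (b i).len) := by
    intro i
    have h0 : ∀ z : Wd, z ∈ Bx i ∅ b 0 ↔ z.len = (b i).len := by
      intro z
      constructor
      · intro h
        exact h.1
      · intro h
        exact ⟨h, Nat.zero_le _, by simp, fun n hn => absurd hn (by omega)⟩
    rw [← h0, ← h0]
    exact hag.ze i
  by_cases hex : ∃ i, x.len = (b i).len
  · obtain ⟨i, hi⟩ := hex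
    have hi' := (hze i).1 hi
    have hlen : x.len = x'.len := by omega
    have hne : x ≠ x' := by
      rintro rfl
      exact hD Iff.rfl
    obtain ⟨δ, d1, d2, d3⟩ := first_diff hlen hne
    obtain ⟨s, hs1, hs2⟩ := orb_D φ b i x x' δ hi hlen.symm d3 hD'
    have hpin : ∀ z : Wd, z.len = (b i).len → (∀ n < δ, x.dig n = z.dig n) → ∀ δ' ≤ δ + 1,
        (δ' = δ + 1 → dz z δ + dz (b i) δ = ∑ p ∈ s, (dz (b p.1) δ + dz (b p.2) δ)) →
        z ∈ Bx i s b δ' := by
      intro z hz1 hz2 δ' hδ' hz3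
      refine ⟨hz1, by omega, fun p hp => ⟨(hs1 p hp).1, by have := (hs1 p hp).2; omega⟩,
        fun n hn => ?_⟩
      rcases Nat.lt_or_ge n δ with h | h
      · rw [← hs2 n h, dz_inj.2 (hz2 n h)]
      · have e1 : n = δ := by omega
        have e2 : δ' = δ + 1 := by omega
        rw [e1]
        exact hz3 e2
    have hdne : dz x δ ≠ dz x' δ := fun h => d2 (dz_inj.1 h)
    have hx0 : x ∈ Bx i s b δ := hpin x hi (fun _ _ => rfl) δ (by omega) (fun h => absurd h (by omega))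
    have hx0' : x' ∈ Bx i s b δ := hpin x' hi' d3 δ (by omega) (fun h => absurd h (by omega))
    have hnot : ∀ z : Wd, z ∈ Bx i s b (δ + 1) →
        dz z δ + dz (b i) δ = ∑ p ∈ s, (dz (b p.1) δ + dz (b p.2) δ) := fun z hz =>
      hz.2.2.2 δ (by omega)
    by_cases hr : dz x δ + dz (b i) δ = ∑ p ∈ s, (dz (b p.1) δ + dz (b p.2) δ)
    · refine claimB φ b M (fun i s => hM _ (chn_Bx i s b)) x x' hag hD i s δ
        (hpin x hi (fun _ _ => rfl) _ le_rfl (fun _ => hr)) hx0' (fun h => hdne ?_)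
      have := hnot x' h
      rw [← this] at hr
      exact add_right_cancel hr
    · refine claimB φ b M (fun i s => hM _ (chn_Bx i s b)) x' x hag.symm hD' i s δ
        (hpin x' hi' d3 _ le_rfl (fun _ => zmod2_ne' _ _ _ _ hdne hr)) hx0 (fun h => hr (hnot x h))
  · push Not at hex
    have hex' : ∀ i, x'.len ≠ (b i).len := fun i h => hex i ((hze i).2 h)
    rcases lt_trichotomy x.len x'.len with h | h | h
    · exact claimA φ b M (hM _ chn_lev) x' x hag.symm hD' hex h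
    · exact hD' (new_level φ b x x' h.symm hex)
    · exact claimA φ b M (hM _ chn_lev) x x' hag hD hex' h

/-- the bound from `sep`, for arbitrary finite index types -/
theorem sep' [Finite ι] (φ : Lw.Formula (Fin 1 ⊕ ι)) : ∃ C : ℕ, ∀ c : ι → Wd,
    ∃ F : Finset (Set Wd), F.card ≤ C ∧ (∀ D ∈ F, IsCell D) ∧
      ∀ x x' : Wd, (∀ D ∈ F, (x ∈ D ↔ x' ∈ D)) → (x ∈ St φ c ↔ x' ∈ St φ c) := by
  obtain ⟨m, ⟨e⟩⟩ := Finite.exists_equiv_fin ι
  obtain ⟨C, hC⟩ := sep (pull e φ)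
  refine ⟨C, fun c => ?_⟩
  obtain ⟨F, h1, h2, h3⟩ := hC (c ∘ e.symm)
  refine ⟨F, h1, h2, fun x x' h => ?_⟩
  have h4 := h3 x x' h
  have h5 : St (pull e φ) (c ∘ e.symm) = St φ c := by
    rw [St_pull]
    congr 1
    funext i
    simp
  have h6 : x ∈ St (pull e φ) (c ∘ e.symm) ↔ x' ∈ St (pull e φ) (c ∘ e.symm) := h4
  rw [h5] at h6
  exact h6

end

theorem sepa (ι : Type) [Finite ι] : Sepa ι := by
  classical
  have := Fintype.ofFinite ι
  intro φ
  obtain ⟨C, hC⟩ := sep' φ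
  set M := 2 * C + 1 with hMdef
  choose χ1 h1 using fun (j : ℕ) (ε : Bool) =>
    (dnS_yc (ι := ι) dnB_lev (fun _ => chn_lev) (dnS_St φ) j ε).formula
  choose χ2 h2 using fun (i : ι) (s : Finset (ι × ι)) (j : ℕ) (ε : Bool) =>
    (dnS_yc (dnB_Bx i s) (chn_Bx i s) (dnS_St φ) j ε).formula
  choose χ3 h3 using fun (i : ι) (s s' : Finset (ι × ι)) =>
    (dnS_spl (dnB_Bx i s) (dnB_Bx i s')).formula
  choose χ4 h4 using fun (i : ι) => (dnS_zero (dnB_Bx i ∅) (chn_Bx i ∅)).formula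
  refine ⟨Set.range (fun p : Fin (M + 1) × Bool => χ1 p.1 p.2) ∪
    (Set.range (fun p : (ι × Finset (ι × ι)) × Fin (M + 1) × Bool =>
      χ2 p.1.1 p.1.2 p.2.1 p.2.2) ∪
    (Set.range (fun p : ι × Finset (ι × ι) × Finset (ι × ι) => χ3 p.1 p.2.1 p.2.2) ∪
      Set.range χ4)), ?_, ?_, ?_⟩
  · exact (Set.finite_range _).union ((Set.finite_range _).union
      ((Set.finite_range _).union (Set.finite_range _)))
  · rintro χ (⟨p, rfl⟩ | ⟨p, rfl⟩ | ⟨p, rfl⟩ | ⟨i, rfl⟩) b hne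
    · simp only [h1] at hne ⊢
      exact chn_lev.yc_cell _ _ hne
    · simp only [h2] at hne ⊢
      exact (chn_Bx _ _ b).yc_cell _ _ hne
    · simp only [h3] at hne ⊢
      exact (chn_Bx _ _ b).theta _ hne
    · simp only [h4] at hne ⊢
      exact (chn_Bx _ _ b).cell _ hne
  · intro b x x' hag
    obtain ⟨F, f1, f2, f3⟩ := hC b
    refine sep_fix φ b M (fun B hB j hj => hB.bound F f2 f3 j (by omega)) x x'
      ⟨?_, ?_, ?_, ?_⟩
    · intro j hj ε
      have := hag (χ1 j ε) (Or.inl ⟨(⟨j, by omega⟩, ε), rfl⟩)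
      rw [h1] at this
      exact this
    · intro i s j hj ε
      have := hag (χ2 i s j ε) (Or.inr (Or.inl ⟨((i, s), (⟨j, by omega⟩, ε)), rfl⟩))
      rw [h2] at this
      exact this
    · intro i s s'
      have := hag (χ3 i s s') (Or.inr (Or.inr (Or.inl ⟨(i, s, s'), rfl⟩)))
      rw [h3] at this
      exact this
    · intro i
      have := hag (χ4 i) (Or.inr (Or.inr (Or.inr ⟨i, rfl⟩)))
      rw [h4] at this
      exact this

/-- The theory of the structure of words is distal. -/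
theorem distal : IsDistal (Lw.completeTheory Wd) := distal_of_sepa fun β _ => sepa β

end Run7.h713
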