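import Pool.Agent.Run7.h713.Sep

/-!
Alternations of a set along a decreasing chain of cells.
-/

set_option autoImplicit false

namespace Run7.h713

open FirstOrder FirstOrder.Language

/-- comparison of two elements with respect to a chain of sets -/
def Qr (B : ℕ → Set Wd) (y x : Wd) : Prop := ∀ δ, y ∈ B δ → x ∈ B δ

/-- The elements above an alternating chain of length `j + 1` which ends in `D` or its
complement. -/
def Yc (B : ℕ → Set Wd) (D : Set Wd) : ℕ → Bool → Set Wd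
  | 0, ε => {x | ∃ y, (y ∈ B 0 ∧ (y ∈ D ↔ ε = true)) ∧ Qr B y x}
  | j + 1, ε => {x | ∃ y, ((y ∈ D ↔ ε = true) ∧
      ∃ y', y' ∈ Yc B D j (!ε) ∧ Qr B y' y ∧ ¬ Qr B y y') ∧ Qr B y x}

/-- a decreasing chain of cells -/
structure Chn (B : ℕ → Set Wd) : Prop where
  anti : ∀ δ, B (δ + 1) ⊆ B δ
  cell : ∀ δ, (B δ).Nonempty → IsCell (B δ)
  bdd : ∀ δ x, x ∈ B δ → δ ≤ x.len

section

variable {B : ℕ → Set Wd} {D : Set Wd}

theorem Chn.antitone (h : Chn B) {δ δ' : ℕ} (hd : δ ≤ δ') : B δ' ⊆ B δ :=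
  antitone_nat_of_succ_le h.anti hd

theorem Chn.exit (h : Chn B) : ∃ e : Wd → ℕ, ∀ x, x ∈ B 0 → ∀ δ, (x ∈ B δ ↔ δ ≤ e x) := by
  classical
  refine ⟨fun x => Nat.findGreatest (fun δ => x ∈ B δ) x.len, fun x hx δ => ?_⟩
  have h1 : x ∈ B (Nat.findGreatest (fun δ => x ∈ B δ) x.len) :=
    Nat.findGreatest_spec (P := fun δ => x ∈ B δ) (Nat.zero_le _) hx
  constructor
  · intro hh
    exact Nat.le_findGreatest (h.bdd δ x hh) hh
  · intro hh
    exact h.antitone hh h1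

theorem Chn.theta (h : Chn B) (Θ : ℕ → Prop) (hne : {x | ∃ δ, Θ δ ∧ x ∈ B δ}.Nonempty) :
    IsCell {x | ∃ δ, Θ δ ∧ x ∈ B δ} := by
  classical
  have hex : ∃ δ, Θ δ ∧ (B δ).Nonempty := by
    obtain ⟨x, δ, h1, h2⟩ := hne
    exact ⟨δ, h1, x, h2⟩
  have hs := Nat.find_spec hex
  have e : {x | ∃ δ, Θ δ ∧ x ∈ B δ} = B (Nat.find hex) := by
    ext x
    constructor
    · rintro ⟨δ, h1, h2⟩
      exact h.antitone (Nat.find_min' hex ⟨h1, x, h2⟩) h2
    · intro hx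
      exact ⟨_, hs.1, hx⟩
  rw [e]
  exact h.cell _ hs.2

/-- the union of the upward closures of the members of a set -/
theorem Chn.up (h : Chn B) (T : Set Wd) (hT : T ⊆ B 0)
    (hne : {x | ∃ y, y ∈ T ∧ Qr B y x}.Nonempty) : IsCell {x | ∃ y, y ∈ T ∧ Qr B y x} := by
  obtain ⟨e, he⟩ := h.exit
  have heq : {x | ∃ y, y ∈ T ∧ Qr B y x} = {x | ∃ δ, (∃ y ∈ T, e y = δ) ∧ x ∈ B δ} := by
    ext x
    constructor
    · rintro ⟨y, h1, h2⟩
      exact ⟨e y, ⟨y, h1, rfl⟩, h2 _ ((he y (hT h1) _).2 le_rfl)⟩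
    · rintro ⟨δ, ⟨y, h1, rfl⟩, h2⟩
      exact ⟨y, h1, fun δ hδ => h.antitone ((he y (hT h1) δ).1 hδ) h2⟩
  rw [heq] at hne ⊢
  exact h.theta _ hne

theorem Yc_sub (j : ℕ) (ε : Bool) : Yc B D j ε ⊆ B 0 := by
  induction j generalizing ε with
  | zero =>
    rintro x ⟨y, h1, h2⟩
    exact h2 0 h1.1
  | succ j ih =>
    rintro x ⟨y, ⟨_, y', h1, h2, _⟩, h3⟩
    exact h3 0 (h2 0 (ih _ h1))

theorem Chn.yc_cell (h : Chn B) (j : ℕ) (ε : Bool) (hne : (Yc B D j ε).Nonempty) :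
    IsCell (Yc B D j ε) := by
  cases j with
  | zero => exact h.up {y | y ∈ B 0 ∧ (y ∈ D ↔ ε = true)} (fun y hy => hy.1) hne
  | succ j =>
    refine h.up {y | (y ∈ D ↔ ε = true) ∧ ∃ y', y' ∈ Yc B D j (!ε) ∧ Qr B y' y ∧ ¬ Qr B y y'}
      ?_ hne
    rintro y ⟨_, y', h1, h2, _⟩
    exact h2 0 (Yc_sub _ _ h1)

/-- an alternating chain -/
theorem Chn.extract (h : Chn B) {e : Wd → ℕ} (he : ∀ x, x ∈ B 0 → ∀ δ, (x ∈ B δ ↔ δ ≤ e x))
    (j : ℕ) (ε : Bool) (x : Wd) (hx : x ∈ Yc B D j ε) :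
    ∃ y : ℕ → Wd, (∀ k ≤ j, y k ∈ B 0) ∧ (∀ k < j, e (y k) < e (y (k + 1))) ∧
      (∀ k < j, ¬ (y k ∈ D ↔ y (k + 1) ∈ D)) ∧ (y j ∈ D ↔ ε = true) ∧ e (y j) ≤ e x := by
  induction j generalizing ε x with
  | zero =>
    obtain ⟨y, ⟨h1, h2⟩, h3⟩ := hx
    refine ⟨fun _ => y, fun k _ => h1, fun k hk => absurd hk (by omega),
      fun k hk => absurd hk (by omega), h2, ?_⟩
    have h4 := h3 (e y) ((he y h1 _).2 le_rfl)
    exact (he x (h3 0 h1) _).1 h4
  | succ j ih =>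
    obtain ⟨z, ⟨h1, y', h2, h3, h4⟩, h5⟩ := hx
    have hy' : y' ∈ B 0 := Yc_sub _ _ h2
    have hz : z ∈ B 0 := h3 0 hy'
    obtain ⟨y, g1, g2, g3, g4, g5⟩ := ih _ _ h2
    have h6 : e y' < e z := by
      by_contra hcon
      exact h4 fun δ hδ => (he y' hy' δ).2 (((he z hz δ).1 hδ).trans (by omega))
    refine ⟨fun k => if k ≤ j then y k else z, ?_, ?_, ?_, ?_, ?_⟩
    · intro k hk
      by_cases hkj : k ≤ j
      · simp only [hkj, if_true]
        exact g1 k hkj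
      · simp only [hkj, if_false]
        exact hz
    · intro k hk
      have hkj : k ≤ j := by omega
      by_cases hkj' : k + 1 ≤ j
      · simp only [hkj, hkj', if_true]
        exact g2 k (by omega)
      · simp only [hkj, hkj', if_true, if_false]
        have : k = j := by omega
        rw [this]
        omega
    · intro k hk
      have hkj : k ≤ j := by omega
      by_cases hkj' : k + 1 ≤ j
      · simp only [hkj, hkj', if_true]
        exact g3 k (by omega)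
      · simp only [hkj, hkj', if_true, if_false]
        have : k = j := by omega
        rw [this, g4, h1]
        cases ε <;> simp
    · have hj : ¬ j + 1 ≤ j := by omega
      simp only [hj, if_false]
      exact h1
    · have hj : ¬ j + 1 ≤ j := by omega
      simp only [hj, if_false]
      exact (he x (h5 0 hz) _).1 (h5 _ ((he z hz _).2 le_rfl))

/-- The number of alternations is bounded. -/
theorem Chn.bound (h : Chn B) (F : Finset (Set Wd)) (hF : ∀ E ∈ F, IsCell E)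
    (hD : ∀ x x', (∀ E ∈ F, (x ∈ E ↔ x' ∈ E)) → (x ∈ D ↔ x' ∈ D)) (j : ℕ)
    (hj : 2 * F.card + 1 ≤ j) (ε : Bool) (x : Wd) : x ∉ Yc B D j ε := by
  classical
  intro hx
  obtain ⟨e, he⟩ := h.exit
  obtain ⟨y, g1, g2, g3, -, -⟩ := h.extract he j ε x hx
  have hmono : ∀ k m, k ≤ m → m ≤ j → e (y k) ≤ e (y m) := by
    intro k m hkm
    induction m, hkm using Nat.le_induction with
    | base => intro _; exact le_rfl
    | succ m hkm ih =>
      intro hm
      have h1 := ih (by omega)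
      have h2 := g2 m (by omega)
      omega
  have hsep : ∀ t ∈ Finset.range (F.card + 1), ∃ E ∈ F, ¬ (y (2 * t) ∈ E ↔ y (2 * t + 1) ∈ E) := by
    intro t ht
    rw [Finset.mem_range] at ht
    by_contra hcon
    push Not at hcon
    refine g3 (2 * t) (by omega) (hD _ _ fun E hE => ?_)
    have h2 := hcon E hE
    by_cases h3 : y (2 * t) ∈ E <;> by_cases h4 : y (2 * t + 1) ∈ E <;> simp_all
  choose! E hE1 hE2 using hsep
  obtain ⟨t1, ht1, t2, ht2, hne, heq⟩ := Finset.exists_ne_map_eq_of_card_lt_of_maps_to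
    (s := Finset.range (F.card + 1)) (t := F) (f := E) (by simp) (fun t ht => hE1 t ht)
  have key : ∀ t1 t2, t1 < F.card + 1 → t2 < F.card + 1 → t1 < t2 → E t1 = E t2 → False := by
    intro t1 t2 ht1 ht2 hlt heq
    have s1 := hE2 t1 (Finset.mem_range.2 ht1)
    have s2 := hE2 t2 (Finset.mem_range.2 ht2)
    rw [← heq] at s2
    have c1 : ∃ a, (a = 2 * t1 ∨ a = 2 * t1 + 1) ∧ y a ∈ E t1 := by
      by_cases h3 : y (2 * t1) ∈ E t1
      · exact ⟨_, Or.inl rfl, h3⟩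
      · by_cases h4 : y (2 * t1 + 1) ∈ E t1
        · exact ⟨_, Or.inr rfl, h4⟩
        · exact absurd (iff_of_false h3 h4) s1
    have c2 : ∃ b b', (b = 2 * t2 ∨ b = 2 * t2 + 1) ∧ (b' = 2 * t2 ∨ b' = 2 * t2 + 1) ∧
        y b ∈ E t1 ∧ y b' ∉ E t1 := by
      by_cases h3 : y (2 * t2) ∈ E t1
      · by_cases h4 : y (2 * t2 + 1) ∈ E t1
        · exact absurd (iff_of_true h3 h4) s2
        · exact ⟨_, _, Or.inl rfl, Or.inr rfl, h3, h4⟩
      · by_cases h4 : y (2 * t2 + 1) ∈ E t1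
        · exact ⟨_, _, Or.inr rfl, Or.inl rfl, h4, h3⟩
        · exact absurd (iff_of_false h3 h4) s2
    obtain ⟨a, ha, hya⟩ := c1
    obtain ⟨b, b', hb, hb', hyb, hyb'⟩ := c2
    have haj : a + 1 ≤ j := by omega
    have hin : ∀ m, a + 1 ≤ m → m ≤ j → y m ∈ B (e (y (a + 1))) := fun m h1 h2 =>
      (he _ (g1 m h2) _).2 (hmono _ _ h1 h2)
    have hc : IsCell (B (e (y (a + 1)))) := h.cell _ ⟨_, hin _ le_rfl haj⟩
    have hcE : IsCell (E t1) := hF _ (hE1 t1 (Finset.mem_range.2 ht1))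
    rcases hcE.chain hc hyb (hin b (by omega) (by omega)) with h5 | h5
    · have h6 := (he _ (g1 a (by omega)) _).1 (h5 hya)
      have h7 := g2 a (by omega)
      omega
    · exact hyb' (h5 (hin b' (by omega) (by omega)))
  rw [Finset.mem_range] at ht1 ht2
  rcases lt_or_gt_of_ne hne with h1 | h1
  · exact key t1 t2 ht1 ht2 h1 heq
  · exact key t2 t1 ht2 ht1 h1 heq.symm

/-- Two elements with different membership in `D` are separated by one of the cells. -/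
theorem Chn.alt (h : Chn B) (M : ℕ) (hM : ∀ j, M ≤ j → ∀ ε x, x ∉ Yc B D j ε) (x x' : Wd)
    (hx' : x' ∈ B 0) (hlt : Qr B x' x) (hlt' : ¬ Qr B x x') (hD : ¬ (x ∈ D ↔ x' ∈ D))
    (hom : ∀ y, Qr B y x' → Qr B x' y → (y ∈ D ↔ x' ∈ D)) :
    ∃ j ≤ M, ∃ ε, ¬ (x ∈ Yc B D j ε ↔ x' ∈ Yc B D j ε) := by
  classical
  by_contra hcon
  push Not at hcon
  have hcon' : ∀ j ≤ M, ∀ ε, (x ∈ Yc B D j ε ↔ x' ∈ Yc B D j ε) := by
    intro j hj ε
    have := hcon j hj ε
    by_cases h1 : x ∈ Yc B D j ε <;> by_cases h2 : x' ∈ Yc B D j ε <;> simp_all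
  have hε : ∃ ε : Bool, (x' ∈ D ↔ ε = true) ∧ (x ∈ D ↔ (!ε) = true) := by
    by_cases h1 : x' ∈ D
    · refine ⟨true, by simp [h1], ?_⟩
      have : x ∉ D := fun h2 => hD (iff_of_true h2 h1)
      simp [this]
    · refine ⟨false, by simp [h1], ?_⟩
      have : x ∈ D := by
        by_contra h2
        exact hD (iff_of_false h2 h1)
      simp [this]
  obtain ⟨ε, hε1, hε2⟩ := hε
  have step : ∀ j, j + 1 ≤ M → x' ∈ Yc B D j ε → x' ∈ Yc B D (j + 2) ε := by
    intro j hj hx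
    have h1 : x ∈ Yc B D (j + 1) (!ε) := by
      refine ⟨x, ⟨hε2, x', ?_, hlt, hlt'⟩, fun δ hδ => hδ⟩
      rw [Bool.not_not]
      exact hx
    have h2 := (hcon' (j + 1) hj (!ε)).1 h1
    obtain ⟨y, h3, h4⟩ := h2
    have h5 : ¬ Qr B x' y := by
      intro h5
      have := hom y h4 h5
      rw [hε1, h3.1] at this
      revert this
      cases ε <;> simp
    refine ⟨x', ⟨hε1, y, ⟨y, h3, fun δ hδ => hδ⟩, h4, h5⟩, fun δ hδ => hδ⟩
  have all : ∀ k, 2 * k ≤ M + 1 → x' ∈ Yc B D (2 * k) ε := by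
    intro k
    induction k with
    | zero =>
      intro _
      exact ⟨x', ⟨hx', hε1⟩, fun δ hδ => hδ⟩
    | succ k ih =>
      intro hk
      have := step (2 * k) (by omega) (ih (by omega))
      have e : 2 * (k + 1) = 2 * k + 2 := by ring
      rw [e]
      exact this
  have hk : M ≤ 2 * ((M + 1) / 2) ∧ 2 * ((M + 1) / 2) ≤ M + 1 := by omega
  exact hM _ hk.1 ε x' (all _ hk.2)

end

end Run7.h713
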