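import Mathlib

/-!
# dp-minimal theories, forking and definable types: the definitions

`U` is a monster model: it lives in `Type 1`, and *small* means of the size of a type in `Type 0`.
So a monster model is `κ`-saturated and strongly `κ`-homogeneous, where `κ` is the (strongly
inaccessible) cardinality of `Type 0`.
-/

set_option autoImplicit false

namespace Run7.h713

open FirstOrder FirstOrder.Language

/-- A formula `φ(x; b)` with parameters from `U` in the variables `x = (x_i)_{i < n}`: `form` is an
`L`-formula `φ(x; y)` with `y = (y_i)_{i < len}`, and `par = b` is a tuple of elements of `U`. -/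
structure Fml (L : FirstOrder.Language.{0, 0}) (U : Type 1) (n : ℕ) where
  /-- the length of the tuple of parameters -/
  len : ℕ
  /-- the formula without parameters -/
  form : L.Formula (Fin n ⊕ Fin len)
  /-- the parameters -/
  par : Fin len → U

section

variable {L : FirstOrder.Language.{0, 0}} {U : Type 1} {n : ℕ}

/-- The negation of a formula with parameters. -/
def Fml.neg (θ : Fml L U n) : Fml L U n := ⟨θ.len, θ.form.not, θ.par⟩

/-- The parameters of the formula lie in `A`. -/
def Fml.Over (θ : Fml L U n) (A : Set U) : Prop := ∀ i, θ.par i ∈ A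

variable [L.Structure U]

/-- The tuple `a` satisfies the formula `φ(x; b)` in `U`. -/
def Fml.Holds (θ : Fml L U n) (a : Fin n → U) : Prop := θ.form.Realize (Sum.elim a θ.par)

/-- A set of formulas with parameters in `U` is consistent: each finite subset is satisfied by
some tuple of elements of `U`. -/
def Consistent (S : Set (Fml L U n)) : Prop :=
  ∀ F : Set (Fml L U n), F.Finite → F ⊆ S → ∃ a : Fin n → U, ∀ θ ∈ F, θ.Holds a

/-- The tuples `c` and `c'` have the same type over `A`. -/
def SameType (A : Set U) {k : ℕ} (c c' : Fin k → U) : Prop :=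
  ∀ θ : Fml L U k, θ.Over A → (θ.Holds c ↔ θ.Holds c')

/-- The formula `φ(x; b)` divides over `A`: there are `k` and a sequence `(b_i)_{i < ω}` of tuples
with the same type over `A` as `b` such that `{φ(x; b_i) : i < ω}` is `k`-inconsistent. -/
def Divides (A : Set U) (θ : Fml L U n) : Prop :=
  ∃ (k : ℕ) (b : ℕ → Fin θ.len → U), (∀ i, SameType (L := L) A (b i) θ.par) ∧
    ∀ s : Finset ℕ, s.card = k →
      ¬ ∃ a : Fin n → U, ∀ i ∈ s, (⟨θ.len, θ.form, b i⟩ : Fml L U n).Holds a

/-- The formula `φ(x; b)` forks over `A`: it implies a finite disjunction of formulas each of which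
divides over `A`. -/
def Forks (A : Set U) (θ : Fml L U n) : Prop :=
  ∃ F : Set (Fml L U n), F.Finite ∧ (∀ ψ ∈ F, Divides A ψ) ∧
    ∀ a : Fin n → U, θ.Holds a → ∃ ψ ∈ F, ψ.Holds a

/-- `p` is a global type: a complete type over `U` in the variables `(x_i)_{i < n}`. -/
structure IsGlobalType (p : Set (Fml L U n)) : Prop where
  consistent : Consistent p
  complete : ∀ θ : Fml L U n, θ ∈ p ∨ θ.neg ∈ p

omit [L.Structure U] in
/-- The `L(U)`-instances of the `L`-formula `χ(x; y)`. -/
def inst {m : ℕ} (χ : L.Formula (Fin n ⊕ Fin m)) (e : Fin m → U) : Fml L U n := ⟨m, χ, e⟩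

/-- The global type `p` is `A`-definable: for every `L`-formula `χ(x; y)` there is a formula
`d(y)` with parameters in `A` such that, for all `e` in `U`, `χ(x; e) ∈ p` iff `U ⊨ d(e)`. -/
def IsDefinableOver (A : Set U) (p : Set (Fml L U n)) : Prop :=
  ∀ (m : ℕ) (χ : L.Formula (Fin n ⊕ Fin m)), ∃ d : Fml L U m, d.Over A ∧
    ∀ e : Fin m → U, inst χ e ∈ p ↔ d.Holds e

end

/-- `T` is dp-minimal: in no model `N` of `T` are there formulas `φ(x; y)`, `ψ(x; z)` with `x` a
single variable and sequences `(a_i)_{i < ω}`, `(c_j)_{j < ω}` such that for all `i, j` the set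
`{φ(x; a_i)} ∪ {¬φ(x; a_k) : k ≠ i} ∪ {ψ(x; c_j)} ∪ {¬ψ(x; c_l) : l ≠ j}` is consistent. -/
def IsDPMinimal {L : FirstOrder.Language.{0, 0}} (T : L.Theory) : Prop :=
  ∀ (N : Type 1) [L.Structure N] [N ⊨ T] (m m' : ℕ) (φ : L.Formula (Fin 1 ⊕ Fin m))
    (ψ : L.Formula (Fin 1 ⊕ Fin m')) (a : ℕ → Fin m → N) (c : ℕ → Fin m' → N),
    ¬ ∀ i j : ℕ, Consistent
      (({inst φ (a i)} ∪ {θ | ∃ k, k ≠ i ∧ θ = (inst φ (a k)).neg}) ∪
        ({inst ψ (c j)} ∪ {θ | ∃ l, l ≠ j ∧ θ = (inst ψ (c l)).neg}))

/-- `U` is a monster model of `T`. -/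
structure IsMonster {L : FirstOrder.Language.{0, 0}} (T : L.Theory) (U : Type 1)
    [L.Structure U] : Prop where
  /-- `U` is a model of `T` -/
  model : U ⊨ T
  /-- every consistent set of formulas in one variable over a small set of parameters is
  realised -/
  saturated : ∀ A : Set U, Small.{0} A → ∀ S : Set (Fml L U 1), (∀ θ ∈ S, θ.Over A) →
    Consistent S → ∃ a : Fin 1 → U, ∀ θ ∈ S, θ.Holds a
  /-- every elementary map between small sets extends to an automorphism of `U` -/
  homogeneous : ∀ (I : Type) (a b : I → U),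
    (∀ φ : L.Formula I, φ.Realize a ↔ φ.Realize b) → ∃ σ : U ≃[L] U, ∀ i, σ (a i) = b i

end Run7.h713
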