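import Pool.Agent.Run7.h713.Sep
import Pool.Agent.Run7.h713.Defs

/-!
The theory of the structure of words is dp-minimal.
-/

set_option autoImplicit false

namespace Run7.h713

open FirstOrder FirstOrder.Language

/-- A laminar family of `m` sets has at most `m + 1` cells. -/
theorem cells_card {ι : Type} [Fintype ι] (F : Finset (Set Wd)) (hF : ∀ D ∈ F, IsCell D)
    (X : ι → Wd) (hX : ∀ p q, (∀ D ∈ F, (X p ∈ D ↔ X q ∈ D)) → p = q) :
    Fintype.card ι ≤ F.card + 1 := by
  classical
  have hmin : ∀ p, (∃ D ∈ F, X p ∈ D) → ∃ D ∈ F, X p ∈ D ∧ ∀ D' ∈ F, X p ∈ D' → D ⊆ D' := by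
    intro p hp
    have hne : (F.filter (fun D => X p ∈ D)).Nonempty := by
      obtain ⟨D, hD, hpD⟩ := hp
      exact ⟨D, Finset.mem_filter.2 ⟨hD, hpD⟩⟩
    obtain ⟨D, hDm⟩ := Finset.exists_minimal hne
    have hD := Finset.mem_filter.1 hDm.1
    refine ⟨D, hD.1, hD.2, fun D' hD' hpD' => ?_⟩
    rcases (hF D hD.1).chain (hF D' hD') hD.2 hpD' with h | h
    · exact h
    · exact hDm.2 (Finset.mem_filter.2 ⟨hD', hpD'⟩) h
  set f : ι → Option {D // D ∈ F} := fun p =>
    if h : ∃ D ∈ F, X p ∈ D then some ⟨(hmin p h).choose, (hmin p h).choose_spec.1⟩ else none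
    with hf
  have hf1 : ∀ p (h : ∃ D ∈ F, X p ∈ D), f p = some ⟨(hmin p h).choose,
      (hmin p h).choose_spec.1⟩ := fun p h => dif_pos h
  have hf2 : ∀ p, (¬ ∃ D ∈ F, X p ∈ D) → f p = none := fun p h => dif_neg h
  have hinj : Function.Injective f := by
    intro p q hpq
    refine hX p q ?_
    by_cases hp : ∃ D ∈ F, X p ∈ D
    · by_cases hq : ∃ D ∈ F, X q ∈ D
      · rw [hf1 p hp, hf1 q hq] at hpq
        have e : (hmin p hp).choose = (hmin q hq).choose := by
          simpa using hpq
        obtain ⟨_, h2, h3⟩ := (hmin p hp).choose_spec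
        obtain ⟨_, g2, g3⟩ := (hmin q hq).choose_spec
        intro D hD
        constructor
        · intro hh
          exact h3 D hD hh (e ▸ g2)
        · intro hh
          exact g3 D hD hh (e ▸ h2)
      · rw [hf1 p hp, hf2 q hq] at hpq
        exact absurd hpq (by simp)
    · by_cases hq : ∃ D ∈ F, X q ∈ D
      · rw [hf2 p hp, hf1 q hq] at hpq
        exact absurd hpq (by simp)
      · intro D hD
        exact ⟨fun h => absurd ⟨D, hD, h⟩ hp, fun h => absurd ⟨D, hD, h⟩ hq⟩
  have := Fintype.card_le_of_injective f hinj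
  simpa using this

/-- There are no large finite patterns of depth two in the structure of words. -/
theorem no_pattern {m m' : ℕ} (φ : Lw.Formula (Fin 1 ⊕ Fin m)) (ψ : Lw.Formula (Fin 1 ⊕ Fin m')) :
    ∃ n : ℕ, ∀ (a : Fin n → Fin m → Wd) (c : Fin n → Fin m' → Wd),
      ¬ ∀ i j, ∃ x : Wd, (φ.Realize (Sum.elim (fun _ => x) (a i)) ∧
        ∀ k, k ≠ i → ¬ φ.Realize (Sum.elim (fun _ => x) (a k))) ∧
        (ψ.Realize (Sum.elim (fun _ => x) (c j)) ∧
        ∀ l, l ≠ j → ¬ ψ.Realize (Sum.elim (fun _ => x) (c l))) := by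
  classical
  obtain ⟨C, hC⟩ := sep φ
  obtain ⟨C', hC'⟩ := sep ψ
  refine ⟨C + C' + 2, ?_⟩
  generalize hn : C + C' + 2 = n
  intro a c h
  choose F hF1 hF2 hF3 using fun i => hC (a i)
  choose F' hF1' hF2' hF3' using fun i => hC' (c i)
  choose x hx using h
  have hx1 := fun i j => (hx i j).1.1
  have hx2 := fun i j => (hx i j).1.2
  have hx3 := fun i j => (hx i j).2.1
  have hx4 := fun i j => (hx i j).2.2
  set G : Finset (Set Wd) := (Finset.univ.biUnion F) ∪ (Finset.univ.biUnion F') with hG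
  have hGc : G.card ≤ n * C + n * C' := by
    refine (Finset.card_union_le _ _).trans ?_
    refine Nat.add_le_add ?_ ?_
    · refine Finset.card_biUnion_le.trans ?_
      refine (Finset.sum_le_card_nsmul _ _ C (fun i _ => hF1 i)).trans ?_
      simp
    · refine Finset.card_biUnion_le.trans ?_
      refine (Finset.sum_le_card_nsmul _ _ C' (fun i _ => hF1' i)).trans ?_
      simp
  have hGcell : ∀ D ∈ G, IsCell D := by
    intro D hD
    rw [hG, Finset.mem_union, Finset.mem_biUnion, Finset.mem_biUnion] at hD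
    rcases hD with ⟨i, _, hi⟩ | ⟨i, _, hi⟩
    · exact hF2 i D hi
    · exact hF2' i D hi
  have key := cells_card G hGcell (fun p : Fin n × Fin n => x p.1 p.2) (by
    rintro ⟨i, j⟩ ⟨i', j'⟩ hsep
    have e1 : i = i' := by
      by_contra hne
      have h1 := hF3 i (x i j) (x i' j') (fun D hD => hsep D (by
        rw [hG]
        exact Finset.mem_union_left _ (Finset.mem_biUnion.2 ⟨i, Finset.mem_univ _, hD⟩)))
      exact hx2 i' j' i hne (h1.1 (hx1 i j))
    have e2 : j = j' := by
      by_contra hne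
      have h1 := hF3' j (x i j) (x i' j') (fun D hD => hsep D (by
        rw [hG]
        exact Finset.mem_union_right _ (Finset.mem_biUnion.2 ⟨j, Finset.mem_univ _, hD⟩)))
      exact hx4 i' j' j hne (h1.1 (hx3 i j))
    rw [e1, e2])
  rw [Fintype.card_prod, Fintype.card_fin] at key
  have h1 : n * n ≤ n * C + n * C' + 1 := key.trans (by omega)
  have h2 : n * n = n * C + n * C' + 2 * n := by
    rw [← hn]
    ring
  omega

/-- The sentence which states that there is an `n × n` pattern. -/
noncomputable def patS {m m' : ℕ} (φ : Lw.Formula (Fin 1 ⊕ Fin m))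
    (ψ : Lw.Formula (Fin 1 ⊕ Fin m')) (n : ℕ) : Lw.Sentence :=
  Formula.iExs ((Fin n × Fin m) ⊕ (Fin n × Fin m')) (Formula.iInf fun p : Fin n × Fin n =>
    Formula.iExs (Fin 1) (Formula.iInf fun k : Fin n =>
      (if k = p.1 then φ.relabel (Sum.elim (fun _ => Sum.inr 0)
          (fun t => Sum.inl (Sum.inr (Sum.inl (k, t)))))
        else (φ.relabel (Sum.elim (fun _ => Sum.inr 0)
          (fun t => Sum.inl (Sum.inr (Sum.inl (k, t)))))).not) ⊓
      (if k = p.2 then ψ.relabel (Sum.elim (fun _ => Sum.inr 0)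
          (fun t => Sum.inl (Sum.inr (Sum.inr (k, t)))))
        else (ψ.relabel (Sum.elim (fun _ => Sum.inr 0)
          (fun t => Sum.inl (Sum.inr (Sum.inr (k, t)))))).not)))

theorem realize_patS {W : Type*} [Lw.Structure W] {m m' : ℕ} (φ : Lw.Formula (Fin 1 ⊕ Fin m))
    (ψ : Lw.Formula (Fin 1 ⊕ Fin m')) (n : ℕ) :
    W ⊨ patS φ ψ n ↔ ∃ (a : Fin n → Fin m → W)
      (c : Fin n → Fin m' → W), ∀ i j, ∃ x : W, (φ.Realize (Sum.elim (fun _ => x) (a i)) ∧
        ∀ k, k ≠ i → ¬ φ.Realize (Sum.elim (fun _ => x) (a k))) ∧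
        (ψ.Realize (Sum.elim (fun _ => x) (c j)) ∧
        ∀ l, l ≠ j → ¬ ψ.Realize (Sum.elim (fun _ => x) (c l))) := by
  classical
  have e1 : ∀ (v : (Fin n × Fin m) ⊕ (Fin n × Fin m') → W) (x : Fin 1 → W) (k : Fin n),
      (Sum.elim (Sum.elim (default : Empty → W) v) x ∘ (Sum.elim (fun _ => Sum.inr 0)
          (fun t => Sum.inl (Sum.inr (Sum.inl (k, t)))) :
            Fin 1 ⊕ Fin m → (Empty ⊕ ((Fin n × Fin m) ⊕ (Fin n × Fin m'))) ⊕ Fin 1)) =
        Sum.elim (fun _ => x 0) (fun t => v (Sum.inl (k, t))) := by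
    intro v x k
    funext t
    rcases t with t | t <;> rfl
  have e2 : ∀ (v : (Fin n × Fin m) ⊕ (Fin n × Fin m') → W) (x : Fin 1 → W) (k : Fin n),
      (Sum.elim (Sum.elim (default : Empty → W) v) x ∘ (Sum.elim (fun _ => Sum.inr 0)
          (fun t => Sum.inl (Sum.inr (Sum.inr (k, t)))) :
            Fin 1 ⊕ Fin m' → (Empty ⊕ ((Fin n × Fin m) ⊕ (Fin n × Fin m'))) ⊕ Fin 1)) =
        Sum.elim (fun _ => x 0) (fun t => v (Sum.inr (k, t))) := by
    intro v x k
    funext t
    rcases t with t | t <;> rfl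
  unfold patS Sentence.Realize
  rw [Formula.realize_iExs]
  constructor
  · rintro ⟨v, hv⟩
    refine ⟨fun k t => v (Sum.inl (k, t)), fun k t => v (Sum.inr (k, t)), fun i j => ?_⟩
    have h1 := (Formula.realize_iInf.1 hv) (i, j)
    obtain ⟨x, hx⟩ := Formula.realize_iExs.1 h1
    have h2 := Formula.realize_iInf.1 hx
    refine ⟨x 0, ⟨?_, fun k hk => ?_⟩, ?_, fun k hk => ?_⟩
    · have := (Formula.realize_inf.1 (h2 i)).1
      rw [if_pos rfl, Formula.realize_relabel, e1] at this
      exact this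
    · have := (Formula.realize_inf.1 (h2 k)).1
      rw [if_neg hk, Formula.realize_not, Formula.realize_relabel, e1] at this
      exact this
    · have := (Formula.realize_inf.1 (h2 j)).2
      rw [if_pos rfl, Formula.realize_relabel, e2] at this
      exact this
    · have := (Formula.realize_inf.1 (h2 k)).2
      rw [if_neg hk, Formula.realize_not, Formula.realize_relabel, e2] at this
      exact this
  · rintro ⟨a, c, h⟩
    refine ⟨Sum.elim (fun p => a p.1 p.2) (fun p => c p.1 p.2), ?_⟩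
    rw [Formula.realize_iInf]
    rintro ⟨i, j⟩
    rw [Formula.realize_iExs]
    obtain ⟨x, ⟨h1, h2⟩, h3, h4⟩ := h i j
    refine ⟨fun _ => x, ?_⟩
    rw [Formula.realize_iInf]
    intro k
    rw [Formula.realize_inf]
    constructor
    · by_cases hk : k = i
      · rw [if_pos hk, Formula.realize_relabel, e1, hk]
        exact h1
      · rw [if_neg hk, Formula.realize_not, Formula.realize_relabel, e1]
        exact h2 k hk
    · by_cases hk : k = j
      · rw [if_pos hk, Formula.realize_relabel, e2, hk]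
        exact h3
      · rw [if_neg hk, Formula.realize_not, Formula.realize_relabel, e2]
        exact h4 k hk

theorem dpmin : IsDPMinimal (Lw.completeTheory Wd) := by
  classical
  intro N _ _ m m' φ ψ a c hpat
  obtain ⟨n, hn⟩ := no_pattern φ ψ
  have h1 : N ⊨ patS φ ψ n := by
    rw [realize_patS]
    refine ⟨fun i => a i, fun j => c j, fun i j => ?_⟩
    obtain ⟨x, hx⟩ := hpat i j
      (({inst φ (a i)} ∪ {θ | ∃ k : Fin n, k ≠ i ∧ θ = (inst φ (a k)).neg}) ∪
        ({inst ψ (c j)} ∪ {θ | ∃ l : Fin n, l ≠ j ∧ θ = (inst ψ (c l)).neg})) (by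
        refine Set.Finite.union (Set.Finite.union (Set.finite_singleton _) ?_)
          (Set.Finite.union (Set.finite_singleton _) ?_)
        · refine (Set.finite_range (fun k : Fin n => (inst φ (a k)).neg)).subset ?_
          rintro θ ⟨k, _, rfl⟩
          exact ⟨k, rfl⟩
        · refine (Set.finite_range (fun k : Fin n => (inst ψ (c k)).neg)).subset ?_
          rintro θ ⟨k, _, rfl⟩
          exact ⟨k, rfl⟩) (by
        refine Set.union_subset_union (Set.union_subset_union subset_rfl ?_)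
          (Set.union_subset_union subset_rfl ?_)
        · rintro θ ⟨k, hk, rfl⟩
          exact ⟨k, fun h => hk (Fin.ext h), rfl⟩
        · rintro θ ⟨k, hk, rfl⟩
          exact ⟨k, fun h => hk (Fin.ext h), rfl⟩)
    have ex : x = fun _ => x 0 := by
      funext t
      rw [Subsingleton.elim t 0]
    refine ⟨x 0, ⟨?_, fun k hk => ?_⟩, ?_, fun k hk => ?_⟩
    · have := hx (inst φ (a i)) (Or.inl (Or.inl rfl))
      rw [ex] at this
      exact this
    · have := hx (inst φ (a k)).neg (Or.inl (Or.inr ⟨k, hk, rfl⟩))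
      rw [ex] at this
      exact this
    · have := hx (inst ψ (c j)) (Or.inr (Or.inl rfl))
      rw [ex] at this
      exact this
    · have := hx (inst ψ (c k)).neg (Or.inr (Or.inr ⟨k, hk, rfl⟩))
      rw [ex] at this
      exact this
  rw [realize_iff_of_model_completeTheory Wd N, realize_patS] at h1
  obtain ⟨a', c', h'⟩ := h1
  exact hn a' c' h'

end Run7.h713
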