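import Pool.Agent.Run7.h713.Monster
import Pool.Agent.Run7.h713.NoDef
import Pool.Agent.Run7.h713.DPMin

/-!
The assembly of the counterexample.
-/

set_option autoImplicit false

namespace Run7.h713

open FirstOrder FirstOrder.Language

/-- The range of an elementary embedding as an elementary substructure. -/
theorem exists_elemRange {L : FirstOrder.Language.{0, 0}} {N : Type} {U : Type 1} [L.Structure N]
    [L.Structure U] (i : N ↪ₑ[L] U) : ∃ M : L.ElementarySubstructure U, (M : Set U) = Set.range i := by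
  refine ⟨⟨i.toEmbedding.toHom.range, ?_⟩, rfl⟩
  intro n φ x
  let e := i.toEmbedding.equivRange
  have hx : x = e ∘ (e.symm ∘ x) := by
    funext j
    exact (e.apply_symm_apply (x j)).symm
  have h1 : φ.Realize (i ∘ (e.symm ∘ x)) ↔ φ.Realize (e.symm ∘ x) := i.map_formula φ _
  have h2 : φ.Realize (e ∘ (e.symm ∘ x)) ↔ φ.Realize (e.symm ∘ x) :=
    StrongHomClass.realize_formula e φ
  have h3 : ((↑) ∘ x : Fin n → U) = i ∘ (e.symm ∘ x) := by
    funext j
    show ((x j : _) : U) = i (e.symm (x j))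
    have h4 : i (e.symm (x j)) = ((e (e.symm (x j)) : _) : U) := rfl
    rw [h4, e.apply_symm_apply]
  rw [h3, h1, ← h2, ← hx]

/-- There is a nonstandard element. -/
theorem exists_big {T : Lw.Theory} {U : Type 1} [Lw.Structure U] (hU : IsMonster T U)
    (i : Wd ↪ₑ[Lw] U) : ∃ b : U, Big i b := by
  classical
  let θ : ℕ → Fml Lw U 1 := fun n =>
    ⟨1, Rf (Sum.inr 0) (Sum.inr 0) (Sum.inl 0) (Sum.inl 0), fun _ => i (zw n)⟩
  have hθ : ∀ n a, (θ n).Holds a ↔ RR (i (zw n)) (i (zw n)) (a 0) (a 0) := by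
    intro n a
    exact realize_Rf (Sum.inr 0) (Sum.inr 0) (Sum.inl 0) (Sum.inl 0)
      (Sum.elim a (fun _ => i (zw n)) : Fin 1 ⊕ Fin 1 → U)
  obtain ⟨a, ha⟩ := hU.saturated (Set.range i) inferInstance (Set.range θ) (by
    rintro _ ⟨n, rfl⟩ _
    exact ⟨zw n, rfl⟩) (by
    intro F hF hsub
    have h1 : ∀ ψ ∈ F, ∃ n, θ n = ψ := fun ψ hψ => hsub hψ
    choose! t ht using h1
    obtain ⟨N, hN⟩ := (hF.image t).bddAbove
    refine ⟨fun _ => i (zw N), fun ψ hψ => ?_⟩
    rw [← ht ψ hψ, hθ, tr_rr, xr_lev]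
    exact hN ⟨ψ, hψ, rfl⟩)
  exact ⟨a 0, fun N => (hθ N a).1 (ha _ ⟨N, rfl⟩)⟩

instance : Nonempty Wd := ⟨zw 0⟩

theorem counterexample : ∃ (L : FirstOrder.Language.{0, 0}) (T : L.Theory), T.IsComplete ∧
    IsDPMinimal T ∧ ∃ (U : Type 1) (_ : L.Structure U), IsMonster T U ∧
      ∃ M : L.ElementarySubstructure U, Small.{0} M ∧
        ∃ θ : Fml L U 2, ¬ Forks (M : Set U) θ ∧
          ∀ p : Set (Fml L U 2), IsGlobalType p → IsDefinableOver (M : Set U) p → θ ∉ p := by
  obtain ⟨U, hS, hU, ⟨i⟩⟩ := exists_monster Lw Wd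
  obtain ⟨M, hM⟩ := exists_elemRange i
  obtain ⟨b, hb⟩ := exists_big hU i
  refine ⟨Lw, Lw.completeTheory Wd, completeTheory.isComplete Lw Wd, dpmin, U, hS, hU, M, ?_,
    theF (i (zw 1)) (i (wn 1)) b, ?_, ?_⟩
  · have h1 : Small.{0} (M : Set U) := by
      rw [hM]
      infer_instance
    exact h1
  · rw [hM]
    exact not_forks_theF hU i b
  · intro p hp hdef
    rw [hM] at hdef
    exact no_def i b hb p hp hdef

end Run7.h713
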