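import Pool.Agent.Run7.h713.Fam

/-!
Combinatorics of three disjoint cells.
-/

set_option autoImplicit false

namespace Run7.h713

open FirstOrder FirstOrder.Language

/-- Some cell contains `B` and `C` and is disjoint from `A`. -/
def Odd3 {V : Type*} [Lw.Structure V] (A B C : Set V) : Prop :=
  ∃ w : Fin 4 → V, B ⊆ CC w ∧ C ⊆ CC w ∧ ∀ x, x ∈ CC w → x ∉ A

theorem Odd3.symm {V : Type*} [Lw.Structure V] {A B C : Set V} (h : Odd3 A B C) : Odd3 A C B := by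
  obtain ⟨w, h1, h2, h3⟩ := h
  exact ⟨w, h2, h1, h3⟩

theorem odd3_of_cell {A B C E : Set Wd} (hE : IsCell E) (h1 : B ⊆ E) (h2 : C ⊆ E)
    (h3 : ∀ x, x ∈ E → x ∉ A) : Odd3 A B C := by
  obtain ⟨w, rfl⟩ := exists_code hE
  exact ⟨w, h1, h2, h3⟩

/-- `D` is a nonempty cell and `x` is a shortest element. -/
def Cz (D : Set Wd) (x : Wd) : Prop :=
  D = lev x.len ∨ ∃ δ, δ ≤ x.len ∧ D = {y | y.len = x.len ∧ ∀ i < δ, y.dig i = x.dig i}

theorem Cz.mem {D : Set Wd} {x : Wd} (h : Cz D x) : x ∈ D := by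
  rcases h with rfl | ⟨δ, _, rfl⟩
  · rw [mem_lev]
  · exact ⟨rfl, fun _ _ => rfl⟩

theorem exists_Cz {D : Set Wd} (h : IsCell D) (hne : D.Nonempty) : ∃ x, Cz D x := by
  rcases h with ⟨u, rfl⟩ | ⟨u, x₀, rfl⟩
  · refine ⟨u, Or.inl ?_⟩
    ext x
    rw [mem_lev]
    exact xr_lev u x
  · obtain ⟨x, hx⟩ := hne
    have hx' : XR u u x x₀ := hx
    rw [xr_ball] at hx'
    refine ⟨x, Or.inr ⟨u.len, hx'.2.1, ?_⟩⟩
    ext y
    show XR u u y x₀ ↔ _
    rw [xr_ball]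
    constructor
    · rintro ⟨h1, h2, h3⟩
      exact ⟨by omega, fun i hi => by rw [h3 i hi, hx'.2.2 i hi]⟩
    · rintro ⟨h1, h2⟩
      have h3 := hx'.2.1
      have h4 := hx'.1
      exact ⟨by omega, by omega, fun i hi => by rw [h2 i hi, hx'.2.2 i hi]⟩

theorem Cz.sub_lev {D : Set Wd} {x : Wd} (h : Cz D x) : D ⊆ lev x.len := by
  rcases h with rfl | ⟨δ, _, rfl⟩
  · exact subset_rfl
  · intro y hy
    rw [mem_lev]
    exact hy.1.ge

/-- if there is a disjoint cell at a larger or equal level then the cell is a ball -/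
theorem Cz.ball {D D' : Set Wd} {x x' : Wd} (h : Cz D x) (h' : Cz D' x') (hl : x.len ≤ x'.len)
    (hd : ∀ y, y ∈ D → y ∉ D') :
    ∃ δ, δ ≤ x.len ∧ D = {y | y.len = x.len ∧ ∀ i < δ, y.dig i = x.dig i} := by
  rcases h with rfl | h
  · exact absurd h'.mem (hd x' (mem_lev.2 hl))
  · exact h

theorem t3_min {D0 D1 D2 : Set Wd} {x0 x1 x2 : Wd} (h0 : Cz D0 x0) (h1 : Cz D1 x1)
    (h2 : Cz D2 x2) (h01 : ∀ y, y ∈ D0 → y ∉ D1) (l1 : x0.len < x1.len) (l2 : x0.len < x2.len) :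
    Odd3 D0 D1 D2 := by
  refine odd3_of_cell (isCell_lev (min x1.len x2.len)) ?_ ?_ ?_
  · intro y hy
    have := mem_lev.1 (h1.sub_lev hy)
    rw [mem_lev]
    omega
  · intro y hy
    have := mem_lev.1 (h2.sub_lev hy)
    rw [mem_lev]
    omega
  · intro y hy hy0
    obtain ⟨δ, _, rfl⟩ := h0.ball h1 l1.le h01
    have h3 : y.len = x0.len := hy0.1
    rw [mem_lev] at hy
    omega

theorem t3_two {D0 D1 D2 : Set Wd} {x0 x1 x2 : Wd} (h0 : Cz D0 x0) (h1 : Cz D1 x1)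
    (h2 : Cz D2 x2) (h12 : ∀ y, y ∈ D1 → y ∉ D2) (l1 : x1.len = x2.len) (l0 : x1.len < x0.len) :
    Odd3 D0 D1 D2 := by
  obtain ⟨δ1, _, rfl⟩ := h1.ball h2 l1.le h12
  obtain ⟨δ2, _, rfl⟩ := h2.ball h1 l1.ge (fun y hy hy' => h12 y hy' hy)
  refine odd3_of_cell (isCell_ball x1.len 0 (fun _ => false)) ?_ ?_ ?_
  · intro y hy
    rw [mem_ball]
    exact ⟨hy.1, by omega, fun i hi => absurd hi (by omega)⟩
  · intro y hy
    rw [mem_ball]
    exact ⟨hy.1.trans l1.symm, by omega, fun i hi => absurd hi (by omega)⟩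
  · intro y hy hy0
    rw [mem_ball] at hy
    have := mem_lev.1 (h0.sub_lev hy0)
    omega

theorem t3_eq {D0 D1 D2 : Set Wd} {x0 x1 x2 : Wd} (h0 : Cz D0 x0) (h1 : Cz D1 x1)
    (h2 : Cz D2 x2) (h01 : ∀ y, y ∈ D0 → y ∉ D1) (h02 : ∀ y, y ∈ D0 → y ∉ D2)
    (h12 : ∀ y, y ∈ D1 → y ∉ D2) (l1 : x0.len = x1.len) (l2 : x0.len = x2.len) :
    Odd3 D0 D1 D2 ∨ Odd3 D1 D0 D2 ∨ Odd3 D2 D0 D1 := by
  classical
  obtain ⟨δ0, e0, rfl⟩ := h0.ball h1 l1.le h01
  obtain ⟨δ1, e1, rfl⟩ := h1.ball h0 l1.ge (fun y hy hy' => h01 y hy' hy)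
  obtain ⟨δ2, e2, rfl⟩ := h2.ball h0 l2.ge (fun y hy hy' => h02 y hy' hy)
  -- positions of separation
  have sep : ∀ (x x' : Wd) (δ δ' : ℕ), δ ≤ x.len → δ' ≤ x'.len → x.len = x'.len →
      (∀ y, y ∈ {y : Wd | y.len = x.len ∧ ∀ i < δ, y.dig i = x.dig i} →
        y ∉ {y : Wd | y.len = x'.len ∧ ∀ i < δ', y.dig i = x'.dig i}) →
      ∃ n, n < δ ∧ n < δ' ∧ x.dig n ≠ x'.dig n := by
    intro x x' δ δ' hδ hδ' hl hd
    by_contra hcon
    push Not at hcon
    refine hd (cw x.len (fun i => if i < δ then x.dig i else x'.dig i)) ⟨rfl, ?_⟩ ⟨hl, ?_⟩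
    · intro i hi
      rw [cw_dig (by omega)]
      simp [hi]
    · intro i hi
      rw [cw_dig (by omega)]
      by_cases hi' : i < δ
      · simp [hi', hcon i hi' hi]
      · simp [hi']
  have s01 := sep x0 x1 δ0 δ1 e0 e1 l1 h01
  have s02 := sep x0 x2 δ0 δ2 e0 e2 l2 h02
  have s12 := sep x1 x2 δ1 δ2 e1 e2 (by omega) h12
  -- the first position of separation
  have hex : ∃ n, (x0.dig n ≠ x1.dig n ∨ x0.dig n ≠ x2.dig n) ∧ n < δ0 := by
    obtain ⟨n, hn, _, hne⟩ := s01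
    exact ⟨n, Or.inl hne, hn⟩
  set n := Nat.find hex with hn
  have hn1 := Nat.find_spec hex
  rw [← hn] at hn1
  have hmin : ∀ i < n, x0.dig i = x1.dig i ∧ x0.dig i = x2.dig i := by
    intro i hi
    have := Nat.find_min hex hi
    push Not at this
    by_contra hcon
    have h3 : x0.dig i ≠ x1.dig i ∨ x0.dig i ≠ x2.dig i := by
      by_contra h4
      push Not at h4
      exact hcon h4
    have h5 := this h3
    omega
  have b1 : n < δ1 := by
    obtain ⟨k, hk1, hk2, hk3⟩ := s01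
    have : ¬ k < n := fun h => hk3 (hmin k h).1
    omega
  have b2 : n < δ2 := by
    obtain ⟨k, hk1, hk2, hk3⟩ := s02
    have : ¬ k < n := fun h => hk3 (hmin k h).2
    omega
  have b0 := hn1.2
  -- the general conclusion
  have fin : ∀ (y1 y2 y0 : Wd) (d1 d2 d0 : ℕ), n < d1 → n < d2 → n < d0 → d1 ≤ y1.len →
      y2.len = y1.len → (∀ i ≤ n, y2.dig i = y1.dig i) → y0.dig n ≠ y1.dig n →
      Odd3 {y : Wd | y.len = y0.len ∧ ∀ i < d0, y.dig i = y0.dig i}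
        {y : Wd | y.len = y1.len ∧ ∀ i < d1, y.dig i = y1.dig i}
        {y : Wd | y.len = y2.len ∧ ∀ i < d2, y.dig i = y2.dig i} := by
    intro y1 y2 y0 d1 d2 d0 k1 k2 k0 kl kl2 hag hne
    refine odd3_of_cell (isCell_ball y1.len (n + 1) y1.dig) ?_ ?_ ?_
    · intro y hy
      rw [mem_ball]
      exact ⟨hy.1, by omega, fun i hi => hy.2 i (by omega)⟩
    · intro y hy
      rw [mem_ball]
      exact ⟨hy.1.trans kl2, by omega, fun i hi => by
        rw [hy.2 i (by omega), hag i (by omega)]⟩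
    · intro y hy hy0
      rw [mem_ball] at hy
      have f1 := hy.2.2 n (by omega)
      have f2 := hy0.2 n (by omega)
      exact hne (by rw [← f1, ← f2])
  by_cases c1 : x0.dig n = x1.dig n
  · -- then `x2` is the odd one
    right; right
    have c2 : x0.dig n ≠ x2.dig n := by
      rcases hn1.1 with h | h
      · exact absurd c1 h
      · exact h
    refine fin x0 x1 x2 δ0 δ1 δ2 b0 b1 b2 e0 l1.symm ?_ (fun h => c2 h.symm)
    intro i hi
    rcases Nat.lt_or_ge i n with h | h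
    · exact (hmin i h).1.symm
    · have : i = n := by omega
      rw [this]
      exact c1.symm
  · by_cases c2 : x0.dig n = x2.dig n
    · right; left
      refine fin x0 x2 x1 δ0 δ2 δ1 b0 b2 b1 e0 l2.symm ?_ (fun h => c1 h.symm)
      intro i hi
      rcases Nat.lt_or_ge i n with h | h
      · exact (hmin i h).2.symm
      · have : i = n := by omega
        rw [this]
        exact c2.symm
    · left
      refine fin x1 x2 x0 δ1 δ2 δ0 b1 b2 b0 e1 (by omega) ?_ c1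
      intro i hi
      rcases Nat.lt_or_ge i n with h | h
      · rw [← (hmin i h).1, ← (hmin i h).2]
      · have : i = n := by omega
        rw [this]
        revert c1 c2
        cases x0.dig n <;> cases x1.dig n <;> cases x2.dig n <;> simp

theorem t3 {D0 D1 D2 : Set Wd} (c0 : IsCell D0) (c1 : IsCell D1) (c2 : IsCell D2)
    (n0 : D0.Nonempty) (n1 : D1.Nonempty) (n2 : D2.Nonempty)
    (h01 : ∀ y, y ∈ D0 → y ∉ D1) (h02 : ∀ y, y ∈ D0 → y ∉ D2) (h12 : ∀ y, y ∈ D1 → y ∉ D2) :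
    Odd3 D0 D1 D2 ∨ Odd3 D1 D0 D2 ∨ Odd3 D2 D0 D1 := by
  obtain ⟨x0, h0⟩ := exists_Cz c0 n0
  obtain ⟨x1, h1⟩ := exists_Cz c1 n1
  obtain ⟨x2, h2⟩ := exists_Cz c2 n2
  have h10 : ∀ y, y ∈ D1 → y ∉ D0 := fun y hy hy' => h01 y hy' hy
  have h20 : ∀ y, y ∈ D2 → y ∉ D0 := fun y hy hy' => h02 y hy' hy
  rcases lt_trichotomy x0.len x1.len with a | a | a <;>
    rcases lt_trichotomy x0.len x2.len with b | b | b <;>
    rcases lt_trichotomy x1.len x2.len with c | c | c <;>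
    first
    | omega
    | exact Or.inl (t3_min h0 h1 h2 h01 a b)
    | exact t3_eq h0 h1 h2 h01 h02 h12 a b
    | exact Or.inr (Or.inl (t3_min h1 h0 h2 h10 a c))
    | exact Or.inr (Or.inr (t3_min h2 h0 h1 h20 b c))
    | exact Or.inl (t3_two h0 h1 h2 h12 c a)
    | exact Or.inr (Or.inl (t3_two h1 h0 h2 h02 b a))
    | exact Or.inr (Or.inr (t3_two h2 h0 h1 h01 a b))
    | exact Or.inr (Or.inr (t3_two h2 h0 h1 h01 a c))

end Run7.h713
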