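import Pool.Agent.Run7.h713.Names

/-!
Chains of coherent interpretations have upper bounds.
-/

set_option autoImplicit false

namespace Run7.h713

open FirstOrder FirstOrder.Language

variable {L : FirstOrder.Language.{0, 0}} {N₀ : Type} [L.Structure N₀]

/-- finitely many conditions which hold somewhere in a chain hold simultaneously -/
theorem chain_finite {A : Type*} {r : A → A → Prop} {c : Set A} (hc : IsChain r c)
    (hne : c.Nonempty) {B : Type*} (P : B → A → Prop)
    (hP : ∀ b S S', r S S' → P b S → P b S') (F : Set B) (hF : F.Finite)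
    (h : ∀ b ∈ F, ∃ S ∈ c, P b S) : ∃ S ∈ c, ∀ b ∈ F, P b S := by
  induction F, hF using Set.Finite.induction_on with
  | empty =>
    obtain ⟨S, hS⟩ := hne
    exact ⟨S, hS, by simp⟩
  | @insert b F _ _ ih =>
    obtain ⟨S, hS, hS2⟩ := ih (fun b hb => h b (Set.mem_insert_of_mem _ hb))
    obtain ⟨S', hS', hS2'⟩ := h b (Set.mem_insert _ _)
    by_cases heq : S = S'
    · subst heq
      refine ⟨S, hS, fun b' hb' => ?_⟩
      rcases Set.mem_insert_iff.1 hb' with rfl | hb'
      · exact hS2'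
      · exact hS2 b' hb'
    · rcases hc hS hS' heq with hr | hr
      · refine ⟨S', hS', fun b' hb' => ?_⟩
        rcases Set.mem_insert_iff.1 hb' with rfl | hb'
        · exact hS2'
        · exact hP _ _ _ hr (hS2 b' hb')
      · refine ⟨S, hS, fun b' hb' => ?_⟩
        rcases Set.mem_insert_iff.1 hb' with rfl | hb'
        · exact hP _ _ _ hr hS2'
        · exact hS2 b' hb'

omit [L.Structure N₀] in
theorem realize_real {N : Type 1} [L.Structure N] (ν : Nm L N₀ → N) {I : Type} (f : I → Nm L N₀)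
    (r : Nm L N₀) (φ : L.Formula (I ⊕ Fin 1)) :
    φ.Realize (fun j => ν (Sum.elim f (fun _ => r) j)) ↔
      φ.Realize (Sum.elim (fun i => ν (f i)) (fun _ => ν r)) := by
  have e : (fun j => ν (Sum.elim f (fun _ => r) j)) =
      (Sum.elim (fun i => ν (f i)) (fun _ => ν r) : I ⊕ Fin 1 → N) := by
    funext j
    rcases j with j | j <;> rfl
  rw [e]

theorem chain_ub (c : Set {S : St L N₀ // Coh S})
    (hc : IsChain (fun S S' => Le S.1 S'.1) c) (hne : c.Nonempty) :
    ∃ ub : {S : St L N₀ // Coh S}, ∀ S ∈ c, Le S.1 ub.1 := by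
  classical
  let D : Set (Nm L N₀) := {x | ∃ S ∈ c, x ∈ S.1.D}
  have hD : ∀ {x : Nm L N₀}, x ∈ D ↔ ∃ S ∈ c, x ∈ S.1.D := Iff.rfl
  let P : L.Formula (Nm L N₀) → {S : St L N₀ // Coh S} → Prop := fun ψ S =>
    ∃ φ : L.Formula S.1.D, (∀ (N : Type 1) [L.Structure N] (v : Nm L N₀ → N),
      ψ.Realize v ↔ φ.Realize (fun x => v x)) ∧ φ.Realize (fun x => S.1.ν x)
  have hPmono : ∀ ψ S S', Le S.1 S'.1 → P ψ S → P ψ S' := by
    rintro ψ S S' hSS' ⟨φ, h1, h2⟩
    refine ⟨φ.relabel (fun x => ⟨x.1, hSS'.1 x.2⟩), ?_, ?_⟩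
    · intro N _ v
      rw [Formula.realize_relabel, h1]
      rfl
    · rw [Formula.realize_relabel]
      exact (hSS'.2 φ).1 h2
  obtain ⟨N, hN1, hN2, ν, hν⟩ := compactness {ψ | ∃ S ∈ c, P ψ S} (by
    intro F hF hsub
    obtain ⟨S, hS, hS2⟩ := chain_finite hc hne P hPmono F hF (fun ψ hψ => hsub hψ)
    refine ⟨S.1.N, inferInstance, inferInstance, S.1.ν, fun ψ hψ => ?_⟩
    obtain ⟨φ, h1, h2⟩ := hS2 ψ hψ
    exact (h1 _ _).2 h2)
  have hAg : ∀ S ∈ c, Ag S.1.D S.1.ν ν := by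
    intro S hS
    have key : ∀ φ : L.Formula S.1.D, φ.Realize (fun x => S.1.ν x) →
        φ.Realize (fun x => ν x) := by
      intro φ hφ
      have := hν (φ.relabel (fun x => x.1)) ⟨S, hS, φ, fun N _ v => by
        rw [Formula.realize_relabel]
        rfl, hφ⟩
      rw [Formula.realize_relabel] at this
      exact this
    intro φ
    refine ⟨key φ, fun h => ?_⟩
    by_contra hcon
    have := key φ.not (by rw [Formula.realize_not]; exact hcon)
    rw [Formula.realize_not] at this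
    exact this h
  have hcl : Closed D := by
    refine ⟨?_, ?_, ?_⟩
    · rintro I f p ⟨S, hS, h⟩ i
      exact ⟨S, hS, S.2.closed.real_mem h i⟩
    · rintro I f g d ⟨S, hS, h⟩
      have := S.2.closed.fwd_mem h
      exact ⟨fun i => ⟨S, hS, this.1 i⟩, fun i => ⟨S, hS, this.2.1 i⟩, ⟨S, hS, this.2.2⟩⟩
    · rintro I f g d ⟨S, hS, h⟩
      have := S.2.closed.bwd_mem h
      exact ⟨fun i => ⟨S, hS, this.1 i⟩, fun i => ⟨S, hS, this.2.1 i⟩, ⟨S, hS, this.2.2⟩⟩
  refine ⟨⟨⟨D, N, hN1, hN2, ν⟩, ?_⟩, fun S hS => ⟨fun x hx => ⟨S, hS, hx⟩, hAg S hS⟩⟩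
  refine ⟨hcl, ?_, ?_, ?_, ?_⟩
  · intro n
    obtain ⟨S, hS⟩ := hne
    exact ⟨S, hS, S.2.base_mem n⟩
  · intro φ
    obtain ⟨S, hS⟩ := hne
    rw [← S.2.base_iff φ]
    exact ((hAg S hS).tuple _ (fun n => S.2.base_mem n) φ).symm
  · rintro I f p ⟨S, hS, h⟩ hFS φ hφ
    have hf := S.2.closed.real_mem h
    have h1 := S.2.real_ok f p h (FS.congr (fun φ => ((hAg S hS).tuple f hf φ).symm) hFS) φ hφ
    rw [← realize_real] at h1 ⊢
    refine ((hAg S hS).tuple (Sum.elim f (fun _ => Nm.real I f p)) ?_ φ).1 h1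
    rintro (j | j)
    · exact hf j
    · exact h
  · intro I f g hf hg hs φ
    obtain ⟨k, t, φ', hφ'⟩ := fin_support φ
    rw [hφ', hφ']
    show φ'.Realize (fun j => ν (t j).1.1) ↔ φ'.Realize (fun j => ν (t j).1.2)
    by_cases hcase : ∀ j, ∃ i, (t j).1.1 = f i ∧ (t j).1.2 = g i
    · choose s hs1 hs2 using hcase
      have := hs (φ'.relabel s)
      rw [Formula.realize_relabel, Formula.realize_relabel] at this
      simp only [hs1, hs2]
      exact this
    · push Not at hcase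
      obtain ⟨j0, hj0⟩ := hcase
      -- a member of the chain containing all the names
      obtain ⟨S, hS, hS2⟩ := chain_finite hc hne (fun (x : Nm L N₀) S => x ∈ S.1.D)
        (fun x S S' h hx => h.1 hx)
        (Set.range (fun j => (t j).1.1) ∪ Set.range (fun j => (t j).1.2))
        ((Set.finite_range _).union (Set.finite_range _)) (by
          rintro _ (⟨j, rfl⟩ | ⟨j, rfl⟩)
          · exact (Sg.mem hcl hf hg (t j).2).1
          · exact (Sg.mem hcl hf hg (t j).2).2)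
      have m1 : ∀ j, (t j).1.1 ∈ S.1.D := fun j => hS2 _ (Or.inl ⟨j, rfl⟩)
      have m2 : ∀ j, (t j).1.2 ∈ S.1.D := fun j => hS2 _ (Or.inr ⟨j, rfl⟩)
      have hfg : (∀ i, f i ∈ S.1.D) ∧ (∀ i, g i ∈ S.1.D) := by
        rcases (t j0).2 with ⟨i, h1, h2⟩ | ⟨h1, _⟩ | ⟨h1, _⟩
        · exact absurd h2 (hj0 i h1)
        · have := m2 j0
          rw [h1] at this
          exact ⟨(S.2.closed.fwd_mem this).1, (S.2.closed.fwd_mem this).2.1⟩
        · have := m1 j0
          rw [h1] at this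
          exact ⟨(S.2.closed.bwd_mem this).1, (S.2.closed.bwd_mem this).2.1⟩
      have hsame : Same S.1.ν f g := by
        intro φ
        rw [(hAg S hS).tuple f hfg.1, (hAg S hS).tuple g hfg.2]
        exact hs φ
      have hSg : ∀ j, Sg S.1.D f g (t j).1.1 (t j).1.2 := by
        intro j
        rcases (t j).2 with h | ⟨h1, _⟩ | ⟨h1, _⟩
        · exact Or.inl h
        · exact Or.inr (Or.inl ⟨h1, m2 j⟩)
        · exact Or.inr (Or.inr ⟨h1, m1 j⟩)
      have h3 := (S.2.hom_ok f g hfg.1 hfg.2 hsame).tuple _ _ hSg φ'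
      rw [(hAg S hS).tuple _ m1, (hAg S hS).tuple _ m2] at h3
      exact h3

end Run7.h713
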