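import Mathlib

/-!
Compactness for sets of formulas, and two small lemmas on formulas.
-/

set_option autoImplicit false

namespace Run7.h713

open FirstOrder FirstOrder.Language

variable {L : FirstOrder.Language.{0, 0}}

theorem compactness {α : Type 1} (Q : Set (L.Formula α))
    (h : ∀ F : Set (L.Formula α), F.Finite → F ⊆ Q →
      ∃ (N : Type 1) (_ : L.Structure N) (_ : Nonempty N) (v : α → N), ∀ φ ∈ F, φ.Realize v) :
    ∃ (N : Type 1) (_ : L.Structure N) (_ : Nonempty N) (v : α → N), ∀ φ ∈ Q, φ.Realize v := by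
  classical
  let T : (L[[α]]).Theory := Formula.equivSentence '' Q
  have hT : T.IsSatisfiable := by
    rw [Theory.isSatisfiable_iff_isFinitelySatisfiable]
    intro T0 hT0
    obtain ⟨N, _, _, v, hv⟩ := h (Formula.equivSentence.symm '' (T0 : Set (L[[α]]).Sentence))
      ((Finset.finite_toSet T0).image _) (by
        rintro _ ⟨ψ, hψ, rfl⟩
        obtain ⟨φ, hφ, rfl⟩ := hT0 hψ
        rw [Equiv.symm_apply_apply]
        exact hφ)
    let := constantsOn.structure v
    have hm : N ⊨ (T0 : (L[[α]]).Theory) := by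
      refine ⟨fun ψ hψ => ?_⟩
      have := hv _ ⟨ψ, hψ, rfl⟩
      rw [Formula.realize_equivSentence_symm] at this
      exact this
    exact Theory.Model.isSatisfiable (T := (T0 : (L[[α]]).Theory)) N
  obtain ⟨M⟩ := hT
  let : L.Structure M := (L.lhomWithConstants α).reduct M
  have : (L.lhomWithConstants α).IsExpansionOn M := LHom.isExpansionOn_reduct _ _
  refine ⟨M, inferInstance, M.nonempty', fun a => (L.con a : M), fun φ hφ => ?_⟩
  exact (Formula.realize_equivSentence M φ).1 (M.is_model.realize_of_mem _ ⟨φ, hφ, rfl⟩)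

/-- A formula only depends on finitely many variables. -/
theorem fin_support {J : Type*} (φ : L.Formula J) :
    ∃ (k : ℕ) (t : Fin k → J) (φ' : L.Formula (Fin k)),
      ∀ (N : Type 1) [L.Structure N] (v : J → N),
        φ.Realize v ↔ φ'.Realize (fun j => v (t j)) := by
  classical
  let s := BoundedFormula.freeVarFinset φ
  let e : s ≃ Fin s.card := s.equivFin
  refine ⟨s.card, fun j => (e.symm j).1, BoundedFormula.restrictFreeVar φ e, ?_⟩
  intro N _ v
  refine (BoundedFormula.realize_restrictFreeVar v ?_).symm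
  rintro x
  show v (e.symm (e x)).1 = v x
  rw [e.symm_apply_apply]

/-- The existential closure of a finite conjunction. -/
theorem exists_ex {α : Type*} (F : Set (L.Formula (α ⊕ Fin 1))) (hF : F.Finite) :
    ∃ ψ : L.Formula α, ∀ (N : Type 1) [L.Structure N] (v : α → N),
      ψ.Realize v ↔ ∃ x : N, ∀ φ ∈ F, φ.Realize (Sum.elim v (fun _ => x)) := by
  classical
  have : Finite F := hF
  refine ⟨Formula.iExs (Fin 1) (Formula.iInf (fun φ : F => φ.1)), ?_⟩
  intro N _ v
  rw [Formula.realize_iExs]
  constructor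
  · rintro ⟨w, hw⟩
    rw [Formula.realize_iInf] at hw
    refine ⟨w 0, fun φ hφ => ?_⟩
    have h := hw ⟨φ, hφ⟩
    have e : w = fun _ => w 0 := by
      funext j
      rw [Subsingleton.elim j 0]
    rw [e] at h
    exact h
  · rintro ⟨x, hx⟩
    refine ⟨fun _ => x, ?_⟩
    rw [Formula.realize_iInf]
    exact fun φ => hx φ.1 φ.2

/-- The set `p` of formulas is finitely satisfiable over the tuple `v`. -/
def FS {I : Type} {N : Type 1} [L.Structure N] (v : I → N) (p : Set (L.Formula (I ⊕ Fin 1))) :
    Prop :=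
  ∀ F : Set (L.Formula (I ⊕ Fin 1)), F.Finite → F ⊆ p →
    ∃ x : N, ∀ φ ∈ F, φ.Realize (Sum.elim v (fun _ => x))

theorem FS.congr {I : Type} {N N' : Type 1} [L.Structure N] [L.Structure N'] {v : I → N}
    {v' : I → N'} {p : Set (L.Formula (I ⊕ Fin 1))}
    (h : ∀ φ : L.Formula I, φ.Realize v ↔ φ.Realize v') (hp : FS v p) : FS v' p := by
  intro F hF hsub
  obtain ⟨ψ, hψ⟩ := exists_ex F hF
  exact (hψ N' v').1 ((h ψ).1 ((hψ N v).2 (hp F hF hsub)))

end Run7.h713
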