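import Pool.Agent.Run7.h713.Defs

/-!
# Distal theories, definable types and definable directed families: the definitions
-/

set_option autoImplicit false

namespace Run7.h713

open FirstOrder FirstOrder.Language

/-- The sequence `(b x)_{x ∈ Y}` of `m`-tuples, indexed by a set `Y` of elements of a linear order
`X`, is indiscernible over `A`: for each formula `φ` with parameters in `A`, the truth value of
`φ(b (s 0), …, b (s (n - 1)))` is the same for all `s 0 < … < s (n - 1)` in `Y`. -/
def Indiscernible {L : FirstOrder.Language.{0, 0}} {N : Type 1} [L.Structure N] {X : Type}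
    [LinearOrder X] (A : Set N) (Y : Set X) {m : ℕ} (b : X → Fin m → N) : Prop :=
  ∀ (n k : ℕ) (φ : L.Formula ((Fin n × Fin m) ⊕ Fin k)) (a : Fin k → N), (∀ i, a i ∈ A) →
    ∀ s t : Fin n → X, StrictMono s → StrictMono t → (∀ i, s i ∈ Y) → (∀ i, t i ∈ Y) →
      (φ.Realize (Sum.elim (fun p => b (s p.1) p.2) a) ↔
        φ.Realize (Sum.elim (fun p => b (t p.1) p.2) a))

/-- `T` is distal: for each sequence indexed by `I + c + J`, where `I` and `J` are linear orders
without endpoints, in a model of `T`, and each set `A`, if the sequence is indiscernible and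
becomes indiscernible over `A` when the element number `c` is left out, then it is indiscernible
over `A`. Here `X = I + c + J`. -/
def IsDistal {L : FirstOrder.Language.{0, 0}} (T : L.Theory) : Prop :=
  ∀ (N : Type 1) [L.Structure N] [N ⊨ T] (X : Type) [LinearOrder X] (c : X),
    (∀ x : X, ∃ y : X, y < x) → (∀ x : X, ∃ y : X, x < y) →
    (∀ x : X, x < c → ∃ y : X, x < y ∧ y < c) → (∀ x : X, c < x → ∃ y : X, c < y ∧ y < x) →
    ∀ (m : ℕ) (b : X → Fin m → N) (A : Set N), Indiscernible (L := L) ∅ Set.univ b →
      Indiscernible (L := L) A {x | x ≠ c} b → Indiscernible (L := L) A Set.univ b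

section

variable {L : FirstOrder.Language.{0, 0}} {M : Type} [L.Structure M] {n : ℕ}

/-- A complete type over `M` in `n` variables, given as the set of the definable subsets of `M ^ n`
which belong to it. -/
structure IsCompleteType (L : FirstOrder.Language.{0, 0}) {M : Type} [L.Structure M] {n : ℕ}
    (p : Set (Set (Fin n → M))) : Prop where
  /-- the members are definable with parameters -/
  definable : ∀ D ∈ p, (Set.univ : Set M).Definable L D
  /-- the members are nonempty -/
  nonempty : ∀ D ∈ p, D.Nonempty
  /-- closed under intersections -/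
  inter : ∀ D ∈ p, ∀ E ∈ p, D ∩ E ∈ p
  /-- complete -/
  complete : ∀ D : Set (Fin n → M), (Set.univ : Set M).Definable L D → D ∈ p ∨ Dᶜ ∈ p

/-- The type `p` is definable: for each formula `φ(x; y)` the set of the `b` with `φ(x; b) ∈ p` is
definable with parameters. -/
def IsDefinableType (L : FirstOrder.Language.{0, 0}) {M : Type} [L.Structure M] {n : ℕ}
    (p : Set (Set (Fin n → M))) : Prop :=
  ∀ (m : ℕ) (φ : L.Formula (Fin n ⊕ Fin m)),
    (Set.univ : Set M).Definable L {b : Fin m → M | {a | φ.Realize (Sum.elim a b)} ∈ p}

/-- The member `X_b` of the family given by `X ⊆ M ^ m × M ^ n`. -/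
def Fiber {M : Type} {m n : ℕ} (X : Set (Fin m ⊕ Fin n → M)) (b : Fin m → M) :
    Set (Fin n → M) :=
  {a | Sum.elim b a ∈ X}

/-- `{X_b : b ∈ Y}` is a definable downward directed family of nonempty subsets of `M ^ n`. -/
structure IsDirectedFamily (L : FirstOrder.Language.{0, 0}) {M : Type} [L.Structure M]
    {m n : ℕ} (Y : Set (Fin m → M)) (X : Set (Fin m ⊕ Fin n → M)) : Prop where
  /-- the index set is definable -/
  index : (Set.univ : Set M).Definable L Y
  /-- the family is definable -/
  family : (Set.univ : Set M).Definable L X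
  /-- the family has a member -/
  inhabited : Y.Nonempty
  /-- the members are nonempty -/
  nonempty : ∀ b ∈ Y, (Fiber X b).Nonempty
  /-- the family is downward directed -/
  directed : ∀ b ∈ Y, ∀ b' ∈ Y, ∃ c ∈ Y, Fiber X c ⊆ Fiber X b ∩ Fiber X b'

end

end Run7.h713
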