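import Pool.Agent.Run7.h713.Sep

/-!
Formulas as families of sets of elements, and the transfer of first-order statements from the
structure of words to the models of its theory.
-/

set_option autoImplicit false

namespace Run7.h713

open FirstOrder FirstOrder.Language

theorem transfer {α : Type} [Finite α] (θ : Lw.Formula α) (h : ∀ v : α → Wd, θ.Realize v)
    (N : Type*) [Lw.Structure N] [N ⊨ Lw.completeTheory Wd] (v : α → N) : θ.Realize v := by
  let S : Lw.Sentence := (θ.relabel (Sum.inr : α → Empty ⊕ α)).iAlls α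
  have h1 : Wd ⊨ S := by
    show Formula.Realize (Formula.iAlls _ _) _
    rw [Formula.realize_iAlls]
    intro i
    show (θ.relabel _).Realize _
    rw [Formula.realize_relabel]
    exact h _
  have h2 : N ⊨ S := (realize_iff_of_model_completeTheory Wd N S).2 h1
  have h3 : Formula.Realize (Formula.iAlls _ _) _ := h2
  rw [Formula.realize_iAlls] at h3
  have h4 := h3 v
  have h5 : (θ.relabel (Sum.inr : α → Empty ⊕ α)).Realize
    (fun a => Sum.elim (default : Empty → N) v a) := h4
  rw [Formula.realize_relabel] at h5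
  exact h5

section

variable {L : FirstOrder.Language.{0, 0}} {α γ : Type}

/-- The set defined by the formula `ψ(x; v)`. -/
def St {V : Type*} [L.Structure V] (ψ : L.Formula (Fin 1 ⊕ α)) (v : α → V) : Set V :=
  {x | ψ.Realize (Sum.elim (fun _ => x) v)}

/-- renaming of the parameters -/
def pull (f : α → γ) (ψ : L.Formula (Fin 1 ⊕ α)) : L.Formula (Fin 1 ⊕ γ) :=
  ψ.relabel (Sum.map id f)

theorem St_pull {V : Type*} [L.Structure V] (f : α → γ) (ψ : L.Formula (Fin 1 ⊕ α)) (v : γ → V) :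
    St (pull f ψ) v = St ψ (v ∘ f) := by
  ext x
  show (ψ.relabel (Sum.map id f)).Realize _ ↔ ψ.Realize _
  rw [Formula.realize_relabel]
  have e : (Sum.elim (fun _ => x) v ∘ Sum.map id f : Fin 1 ⊕ α → V) =
      Sum.elim (fun _ => x) (v ∘ f) := by
    funext a
    rcases a with a | a <;> rfl
  rw [e]

/-- swap the two summands -/
def swp (ψ : L.Formula (Fin 1 ⊕ α)) : L.Formula (α ⊕ Fin 1) := ψ.relabel Sum.swap

theorem realize_swp {V : Type*} [L.Structure V] (ψ : L.Formula (Fin 1 ⊕ α)) (v : α → V)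
    (x : Fin 1 → V) : (swp ψ).Realize (Sum.elim v x) ↔ x 0 ∈ St ψ v := by
  unfold swp
  rw [Formula.realize_relabel]
  have e : (Sum.elim v x ∘ Sum.swap : Fin 1 ⊕ α → V) = Sum.elim (fun _ => x 0) v := by
    funext a
    rcases a with a | a
    · show x a = x 0
      rw [Subsingleton.elim a 0]
    · rfl
  rw [e]
  exact Iff.rfl

/-- inclusion of sets -/
noncomputable def SubF (ψ ψ' : L.Formula (Fin 1 ⊕ α)) : L.Formula α :=
  ((swp ψ).imp (swp ψ')).iAlls (Fin 1)

theorem realize_SubF {V : Type*} [L.Structure V] (ψ ψ' : L.Formula (Fin 1 ⊕ α)) (v : α → V) :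
    (SubF ψ ψ').Realize v ↔ St ψ v ⊆ St ψ' v := by
  unfold SubF
  rw [Formula.realize_iAlls]
  constructor
  · intro h x hx
    have h1 := h (fun _ => x)
    rw [Formula.realize_imp] at h1
    exact (realize_swp ψ' v (fun _ => x)).1 (h1 ((realize_swp ψ v (fun _ => x)).2 hx))
  · intro h x
    rw [Formula.realize_imp]
    intro h1
    exact (realize_swp ψ' v x).2 (h ((realize_swp ψ v x).1 h1))

/-- two sets are disjoint -/
noncomputable def DisF (ψ ψ' : L.Formula (Fin 1 ⊕ α)) : L.Formula α :=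
  ((swp ψ).imp (swp ψ').not).iAlls (Fin 1)

theorem realize_DisF {V : Type*} [L.Structure V] (ψ ψ' : L.Formula (Fin 1 ⊕ α)) (v : α → V) :
    (DisF ψ ψ').Realize v ↔ ∀ x, x ∈ St ψ v → x ∉ St ψ' v := by
  unfold DisF
  rw [Formula.realize_iAlls]
  constructor
  · intro h x hx hx'
    have h1 := h (fun _ => x)
    rw [Formula.realize_imp, Formula.realize_not] at h1
    exact h1 ((realize_swp ψ v (fun _ => x)).2 hx) ((realize_swp ψ' v (fun _ => x)).2 hx')
  · intro h x
    rw [Formula.realize_imp, Formula.realize_not]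
    intro h1 h2
    exact h _ ((realize_swp ψ v x).1 h1) ((realize_swp ψ' v x).1 h2)

/-- there is an element of the set -/
noncomputable def NonF (ψ : L.Formula (Fin 1 ⊕ α)) : L.Formula α := (swp ψ).iExs (Fin 1)

theorem realize_NonF {V : Type*} [L.Structure V] (ψ : L.Formula (Fin 1 ⊕ α)) (v : α → V) :
    (NonF ψ).Realize v ↔ (St ψ v).Nonempty := by
  unfold NonF
  rw [Formula.realize_iExs]
  constructor
  · rintro ⟨x, hx⟩
    exact ⟨x 0, (realize_swp ψ v x).1 hx⟩
  · rintro ⟨x, hx⟩
    exact ⟨fun _ => x, (realize_swp ψ v (fun _ => x)).2 hx⟩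

end

/-- The cell with the code `w`. -/
def CC {V : Type*} [Lw.Structure V] (w : Fin 4 → V) : Set V :=
  {x | (w 2 = w 3 ∧ RR (w 0) (w 0) x x) ∨ (w 2 ≠ w 3 ∧ RR (w 0) (w 0) x (w 1))}

/-- the formula for the cell with the code `w` -/
def cellF : Lw.Formula (Fin 1 ⊕ Fin 4) :=
  (((Term.var (Sum.inr 2)).equal (Term.var (Sum.inr 3))) ⊓
    Rf (Sum.inr 0) (Sum.inr 0) (Sum.inl 0) (Sum.inl 0)) ⊔
  (((Term.var (Sum.inr 2)).equal (Term.var (Sum.inr 3))).not ⊓
    Rf (Sum.inr 0) (Sum.inr 0) (Sum.inl 0) (Sum.inr 1))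

theorem St_cellF {V : Type*} [Lw.Structure V] (w : Fin 4 → V) : St cellF w = CC w := by
  ext x
  show cellF.Realize _ ↔ _
  unfold cellF
  rw [Formula.realize_sup, Formula.realize_inf, Formula.realize_inf, Formula.realize_not,
    Formula.realize_equal, realize_Rf, realize_Rf]
  exact Iff.rfl

theorem isCell_CC (w : Fin 4 → Wd) : IsCell (CC w) := by
  by_cases h : w 2 = w 3
  · left
    refine ⟨w 0, ?_⟩
    ext x
    simp [CC, h, RR_wd]
  · right
    refine ⟨w 0, w 1, ?_⟩
    ext x
    simp [CC, h, RR_wd]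

theorem exists_code {D : Set Wd} (h : IsCell D) : ∃ w : Fin 4 → Wd, D = CC w := by
  rcases h with ⟨u, rfl⟩ | ⟨u, x₀, rfl⟩
  · refine ⟨![u, u, u, u], ?_⟩
    ext x
    simp [CC, RR_wd]
  · refine ⟨![u, x₀, zw 0, zw 1], ?_⟩
    have hne : zw 0 ≠ zw 1 := by
      intro h
      have := congrArg Wd.len h
      simp [zw] at this
    ext x
    simp [CC, RR_wd, hne]

end Run7.h713
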