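import Pool.Agent.Run7.h713.EF

/-!
Orbits of the stabiliser of a tuple of words.
-/

set_option autoImplicit false

namespace Run7.h713

open FirstOrder FirstOrder.Language

/-- the digit as an element of the field with two elements -/
def dz (x : Wd) (n : ℕ) : ZMod 2 := if x.dig n then 1 else 0

theorem dz_inj {x y : Wd} {n m : ℕ} : dz x n = dz y m ↔ x.dig n = y.dig m := by
  unfold dz
  cases x.dig n <;> cases y.dig m <;> simp

theorem xor_dz (a b c d : Wd) (i : ℕ) : (a.dig i ^^ b.dig i) = (c.dig i ^^ d.dig i) ↔
    dz a i + dz b i = dz c i + dz d i := by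
  unfold dz
  cases a.dig i <;> cases b.dig i <;> cases c.dig i <;> cases d.dig i <;> decide

/-- the first digits of the sum of two words -/
def vc (δ : ℕ) (x y : Wd) : Fin δ → ZMod 2 := fun n => dz x n + dz y n

/-- generalised shear -/
def gshFun (δ : ℕ) (lam : (Fin δ → ZMod 2) → ZMod 2) (base : ℕ → Wd) (t : ℕ → Bool) (x : Wd) :
    Wd where
  len := x.len
  dig := fun n => x.dig n ^^ (decide (lam (vc δ x (base x.len)) = 1) && t n && decide (n < x.len))
  sup := fun i hi => by
    have h1 : ¬ i < x.len := by omega
    simp [x.sup i hi, h1]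

theorem gshFun_dz {δ : ℕ} {lam : (Fin δ → ZMod 2) → ZMod 2} {base : ℕ → Wd} {t : ℕ → Bool}
    (ht : ∀ n < δ, t n = false) (x : Wd) (n : ℕ) (hn : n < δ) :
    (gshFun δ lam base t x).dig n = x.dig n := by
  show (x.dig n ^^ (decide (lam (vc δ x (base x.len)) = 1) && t n && decide (n < x.len))) = x.dig n
  rw [ht n hn]
  simp

theorem gshFun_vc {δ : ℕ} {lam : (Fin δ → ZMod 2) → ZMod 2} {base : ℕ → Wd} {t : ℕ → Bool}
    (ht : ∀ n < δ, t n = false) (x y : Wd) :
    vc δ (gshFun δ lam base t x) y = vc δ x y := by
  funext n
  show dz _ _ + dz _ _ = dz _ _ + dz _ _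
  rw [dz_inj.2 (gshFun_dz ht x n n.2)]

theorem zmod2_aux : ∀ p q r s : ZMod 2, p + q = r + s →
    (decide (p = 1) ^^ decide (q = 1)) = (decide (r = 1) ^^ decide (s = 1)) := by
  decide

theorem gsh_aut (δ : ℕ) (lam : (Fin δ → ZMod 2) →ₗ[ZMod 2] ZMod 2) (base : ℕ → Wd) (t : ℕ → Bool)
    (ht : ∀ n < δ, t n = false) :
    ∃ g : Wd ≃[Lw] Wd, ∀ x, g x = gshFun δ lam base t x := by
  refine ⟨mkAut (gshFun δ lam base t) ?_ ?_, fun x => rfl⟩
  · intro x
    ext i
    · rfl
    · show ((gshFun δ lam base t x).dig i ^^ (decide (lam (vc δ (gshFun δ lam base t x)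
        (base x.len)) = 1) && t i && decide (i < x.len))) = x.dig i
      rw [gshFun_vc ht]
      show ((x.dig i ^^ (decide (lam (vc δ x (base x.len)) = 1) && t i && decide (i < x.len))) ^^
        (decide (lam (vc δ x (base x.len)) = 1) && t i && decide (i < x.len))) = x.dig i
      rw [Bool.xor_assoc, Bool.xor_self, Bool.xor_false]
  · rintro a b c d ⟨h1, h2, h3, h4⟩
    refine ⟨h1, h2, h3, ?_⟩
    intro i hi
    have hi' : i < a.len := hi
    have hb : i < b.len := by omega
    have hc : i < c.len := by omega
    have hd : i < d.len := by omega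
    rcases Nat.lt_or_ge i δ with hlt | hge
    · rw [gshFun_dz ht _ _ hlt, gshFun_dz ht _ _ hlt, gshFun_dz ht _ _ hlt,
        gshFun_dz ht _ _ hlt]
      exact h4 i hi'
    · show ((a.dig i ^^ (decide (lam (vc δ a (base a.len)) = 1) && t i && decide (i < a.len))) ^^
        (b.dig i ^^ (decide (lam (vc δ b (base b.len)) = 1) && t i && decide (i < b.len)))) =
        ((c.dig i ^^ (decide (lam (vc δ c (base c.len)) = 1) && t i && decide (i < c.len))) ^^
        (d.dig i ^^ (decide (lam (vc δ d (base d.len)) = 1) && t i && decide (i < d.len))))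
      have hadd : ∀ u v w : Wd, vc δ u w + vc δ v w = vc δ u v := by
        intro u v w
        funext n
        show dz u n + dz w n + (dz v n + dz w n) = dz u n + dz v n
        have : dz w n + dz w n = 0 := CharTwo.add_self_eq_zero _
        linear_combination this
      have hsum : lam (vc δ a (base a.len)) + lam (vc δ b (base b.len)) =
          lam (vc δ c (base c.len)) + lam (vc δ d (base d.len)) := by
        rw [← map_add, ← map_add, ← h1, ← h2, hadd, hadd]
        congr 1
        funext n
        exact (xor_dz a b c d n).1 (h4 n (by have := n.2; omega))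
      have hx := zmod2_aux _ _ _ _ hsum
      have e1 := h4 i hi'
      simp only [hi', hb, hc, hd, decide_true, Bool.and_true]
      revert e1 hx
      generalize decide (lam (vc δ a (base a.len)) = 1) = p
      generalize decide (lam (vc δ b (base b.len)) = 1) = q
      generalize decide (lam (vc δ c (base c.len)) = 1) = r
      generalize decide (lam (vc δ d (base d.len)) = 1) = s
      generalize a.dig i = A
      generalize b.dig i = B
      generalize c.dig i = C
      generalize d.dig i = D
      generalize t i = T
      revert p q r s A B C D T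
      decide

/-- Words which are not in the span of the parameters are moved to each other by automorphisms
fixing the parameters. -/
theorem orbit {ι : Type} [Fintype ι] (b : ι → Wd) (i : ι) (x x' : Wd) (δ : ℕ)
    (hx : x.len = (b i).len) (hx' : x'.len = x.len) (hag : ∀ n < δ, x.dig n = x'.dig n) :
    (∃ g : Wd ≃[Lw] Wd, (∀ j, g (b j) = b j) ∧ g x = x') ∨
    ∃ s : Finset (ι × ι), (∀ p ∈ s, (b p.1).len = (b p.2).len ∧ δ < (b p.1).len) ∧
      ∀ n < δ, dz x n + dz (b i) n = ∑ p ∈ s, (dz (b p.1) n + dz (b p.2) n) := by
  classical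
  set v : ι × ι → (Fin δ → ZMod 2) := fun p =>
    if (b p.1).len = (b p.2).len ∧ δ < (b p.1).len then vc δ (b p.1) (b p.2) else 0 with hv
  by_cases hmem : vc δ x (b i) ∈ Submodule.span (ZMod 2) (Set.range v)
  · right
    rw [Submodule.mem_span_range_iff_exists_fun] at hmem
    obtain ⟨c, hc⟩ := hmem
    refine ⟨Finset.univ.filter (fun p => c p = 1 ∧ ((b p.1).len = (b p.2).len ∧
      δ < (b p.1).len)), ?_, ?_⟩
    · intro p hp
      exact (Finset.mem_filter.1 hp).2.2
    · intro n hn
      have h1 := congrFun hc ⟨n, hn⟩
      rw [Finset.sum_apply] at h1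
      have h2 : vc δ x (b i) ⟨n, hn⟩ = dz x n + dz (b i) n := rfl
      rw [← h2, ← h1, Finset.sum_filter]
      refine Finset.sum_congr rfl fun p _ => ?_
      have hcp : c p = 0 ∨ c p = 1 := by
        generalize c p = q
        revert q
        decide
      rcases hcp with h | h
      · simp [h]
      · by_cases hp : (b p.1).len = (b p.2).len ∧ δ < (b p.1).len
        · have hvp : v p = vc δ (b p.1) (b p.2) := by
            simp only [hv]
            rw [if_pos hp]
          rw [if_pos ⟨h, hp⟩, Pi.smul_apply, hvp, h, one_smul]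
          rfl
        · have hvp : v p = 0 := by
            simp only [hv]
            rw [if_neg hp]
          rw [if_neg (fun hh => hp hh.2), Pi.smul_apply, hvp]
          simp
  · left
    obtain ⟨lam, hl1, hl2⟩ := Submodule.exists_le_ker_of_notMem hmem
    have hpair : ∀ j k, (b j).len = (b k).len → δ < (b j).len → lam (vc δ (b j) (b k)) = 0 := by
      intro j k h1 h2
      have h3 : v (j, k) ∈ Submodule.span (ZMod 2) (Set.range v) :=
        Submodule.subset_span ⟨_, rfl⟩
      have h4 : v (j, k) = vc δ (b j) (b k) := by
        simp only [hv]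
        rw [if_pos ⟨h1, h2⟩]
      rw [← h4]
      exact hl2 h3
    have hbase : ∃ base : ℕ → Wd, ∀ j, ∃ k, base (b j).len = b k ∧ (b k).len = (b j).len := by
      refine ⟨fun m => if h : ∃ j, (b j).len = m then b h.choose else x, fun j => ?_⟩
      have h : ∃ k, (b k).len = (b j).len := ⟨j, rfl⟩
      exact ⟨h.choose, dif_pos h, h.choose_spec⟩
    obtain ⟨base, hbase⟩ := hbase
    set t : ℕ → Bool := fun n => x.dig n ^^ x'.dig n with ht
    have ht0 : ∀ n < δ, t n = false := by
      intro n hn
      simp only [ht]
      rw [hag n hn]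
      simp
    obtain ⟨g, hg⟩ := gsh_aut δ lam base t ht0
    refine ⟨g, fun j => ?_, ?_⟩
    · rw [hg]
      ext n
      · rfl
      · show ((b j).dig n ^^ (decide (lam (vc δ (b j) (base (b j).len)) = 1) && t n &&
          decide (n < (b j).len))) = (b j).dig n
        obtain ⟨k, hk1, hk2⟩ := hbase j
        by_cases h1 : δ < (b j).len
        · rw [hk1, hpair j k hk2.symm h1]
          simp
        · by_cases h2 : n < (b j).len
          · rw [ht0 n (by omega)]
            simp
          · simp [h2]
    · rw [hg]
      ext n
      · exact hx'.symm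
      · show (x.dig n ^^ (decide (lam (vc δ x (base x.len)) = 1) && t n &&
          decide (n < x.len))) = x'.dig n
        obtain ⟨k, hk1, hk2⟩ := hbase i
        by_cases hn : n < δ
        · rw [ht0 n hn]
          simpa using hag n hn
        by_cases h2 : n < x.len
        · have h1 : δ < (b i).len := by omega
          have h3 : vc δ x (b k) = vc δ x (b i) + vc δ (b i) (b k) := by
            funext m
            show dz x m + dz (b k) m = (dz x m + dz (b i) m) + (dz (b i) m + dz (b k) m)
            have : dz (b i) m + dz (b i) m = 0 := CharTwo.add_self_eq_zero _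
            linear_combination -this
          have h4 : lam (vc δ x (base x.len)) = 1 := by
            rw [hx, hk1, h3, map_add, hpair i k hk2.symm h1, add_zero]
            have hcp : ∀ q : ZMod 2, q ≠ 0 → q = 1 := by decide
            exact hcp _ hl1
          rw [h4]
          simp [h2, ht]
        · rw [x.sup n (by omega), x'.sup n (by omega)]
          simp [h2]

end Run7.h713
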