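import Pool.Agent.Run7.h713.Alt
import Pool.Agent.Run7.h713.Orb
import Pool.Agent.Run7.h713.Fam

/-!
Definability of the cells which separate the formulas in one variable.
-/

set_option autoImplicit false

namespace Run7.h713

open FirstOrder FirstOrder.Language

/-- definable predicates on the words -/
def Dn {κ : Type} (P : (κ → Wd) → Prop) : Prop := ∃ θ : Lw.Formula κ, ∀ v, θ.Realize v ↔ P v

section

variable {κ : Type}

theorem Dn.congr {P Q : (κ → Wd) → Prop} (h : Dn P) (hPQ : ∀ v, P v ↔ Q v) : Dn Q := by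
  obtain ⟨θ, hθ⟩ := h
  exact ⟨θ, fun v => (hθ v).trans (hPQ v)⟩

theorem Dn.rel (a b c d : κ) : Dn (fun v : κ → Wd => XR (v a) (v b) (v c) (v d)) :=
  ⟨Rf a b c d, fun v => by rw [realize_Rf, RR_wd]⟩

theorem Dn.eq (a b : κ) : Dn (fun v : κ → Wd => v a = v b) :=
  ⟨(Term.var a).equal (Term.var b), fun v => by rw [Formula.realize_equal]; exact Iff.rfl⟩

theorem Dn.not {P : (κ → Wd) → Prop} (h : Dn P) : Dn (fun v => ¬ P v) := by
  obtain ⟨θ, hθ⟩ := h
  exact ⟨θ.not, fun v => by rw [Formula.realize_not, hθ]⟩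

theorem Dn.and {P Q : (κ → Wd) → Prop} (h : Dn P) (h' : Dn Q) : Dn (fun v => P v ∧ Q v) := by
  obtain ⟨θ, hθ⟩ := h
  obtain ⟨θ', hθ'⟩ := h'
  exact ⟨θ ⊓ θ', fun v => by rw [Formula.realize_inf, hθ, hθ']⟩

theorem Dn.ex {P : Wd → (κ → Wd) → Prop}
    (h : Dn (fun u : κ ⊕ Fin 1 → Wd => P (u (Sum.inr 0)) (fun k => u (Sum.inl k)))) :
    Dn (fun v => ∃ y, P y v) := by
  obtain ⟨θ, hθ⟩ := h
  refine ⟨θ.iExs (Fin 1), fun v => ?_⟩
  rw [Formula.realize_iExs]
  constructor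
  · rintro ⟨x, hx⟩
    exact ⟨x 0, (hθ _).1 hx⟩
  · rintro ⟨y, hy⟩
    exact ⟨fun _ => y, (hθ _).2 hy⟩

theorem Dn.imp {P Q : (κ → Wd) → Prop} (h : Dn P) (h' : Dn Q) : Dn (fun v => P v → Q v) :=
  (h.and h'.not).not.congr fun v => by tauto

theorem Dn.iff {P Q : (κ → Wd) → Prop} (h : Dn P) (h' : Dn Q) : Dn (fun v => (P v ↔ Q v)) :=
  ((h.imp h').and (h'.imp h)).congr fun v => by tauto

theorem Dn.all {P : Wd → (κ → Wd) → Prop}
    (h : Dn (fun u : κ ⊕ Fin 1 → Wd => P (u (Sum.inr 0)) (fun k => u (Sum.inl k)))) :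
    Dn (fun v => ∀ y, P y v) :=
  (Dn.ex (P := fun y v => ¬ P y v) h.not).not.congr fun v => by push Not; exact Iff.rfl

theorem Dn.true : Dn (fun _ : κ → Wd => True) := ⟨⊤, fun v => by simp⟩

end

section

variable {ι : Type}

/-- a definable family of sets of words, indexed by words -/
def DnB (B : (ι → Wd) → ℕ → Set Wd) : Prop :=
  ∀ (κ : Type) (w x : κ) (β : ι → κ), Dn (fun v : κ → Wd => v x ∈ B (fun i => v (β i)) (v w).len)

/-- a definable family of sets of words -/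
def DnS (S : (ι → Wd) → Set Wd) : Prop :=
  ∀ (κ : Type) (x : κ) (β : ι → κ), Dn (fun v : κ → Wd => v x ∈ S (fun i => v (β i)))

theorem DnS.formula {S : (ι → Wd) → Set Wd} (h : DnS S) :
    ∃ χ : Lw.Formula (Fin 1 ⊕ ι), ∀ b, St χ b = S b := by
  obtain ⟨θ, hθ⟩ := h (Fin 1 ⊕ ι) (Sum.inl 0) Sum.inr
  refine ⟨θ, fun b => ?_⟩
  ext x
  exact hθ (Sum.elim (fun _ => x) b)

theorem dnS_St (φ : Lw.Formula (Fin 1 ⊕ ι)) : DnS (fun b => St φ b) := by
  intro κ x β
  refine ⟨φ.relabel (Sum.elim (fun _ => x) β), fun v => ?_⟩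
  rw [Formula.realize_relabel]
  have e : (v ∘ Sum.elim (fun _ => x) β : Fin 1 ⊕ ι → Wd) =
      Sum.elim (fun _ => v x) (fun i => v (β i)) := by
    funext a
    rcases a with a | a <;> rfl
  rw [e]
  exact Iff.rfl

theorem dnB_lev : DnB (fun (_ : ι → Wd) δ => lev δ) := by
  intro κ w x β
  refine (Dn.rel w w x x).congr fun v => ?_
  rw [xr_lev, mem_lev]

theorem Dn.qr {B : (ι → Wd) → ℕ → Set Wd} (h : DnB B) {κ : Type} (y x : κ) (β : ι → κ) :
    Dn (fun v : κ → Wd => Qr (B (fun i => v (β i))) (v y) (v x)) := by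
  refine (Dn.all (P := fun w v => v y ∈ B (fun i => v (β i)) w.len →
    v x ∈ B (fun i => v (β i)) w.len)
    (Dn.imp (h (κ ⊕ Fin 1) (Sum.inr 0) (Sum.inl y) (fun i => Sum.inl (β i)))
      (h (κ ⊕ Fin 1) (Sum.inr 0) (Sum.inl x) (fun i => Sum.inl (β i))))).congr fun v => ?_
  constructor
  · intro hh δ hδ
    exact hh (zw δ) hδ
  · intro hh w hw
    exact hh _ hw

theorem dnS_zero {B : (ι → Wd) → ℕ → Set Wd} (h : DnB B) (hB : ∀ b, Chn (B b)) :
    DnS (fun b => B b 0) := by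
  intro κ x β
  refine (Dn.ex (P := fun w v => v x ∈ B (fun i => v (β i)) w.len)
    (h (κ ⊕ Fin 1) (Sum.inr 0) (Sum.inl x) (fun i => Sum.inl (β i)))).congr fun v => ?_
  constructor
  · rintro ⟨w, hw⟩
    exact (hB _).antitone (Nat.zero_le _) hw
  · intro hh
    exact ⟨zw 0, hh⟩

theorem dnS_yc {B : (ι → Wd) → ℕ → Set Wd} (h : DnB B) (hB : ∀ b, Chn (B b))
    {D : (ι → Wd) → Set Wd} (hD : DnS D) (j : ℕ) (ε : Bool) :
    DnS (fun b => Yc (B b) (D b) j ε) := by
  have hDε : ∀ (κ : Type) (y : κ) (β : ι → κ) (ε : Bool),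
      Dn (fun v : κ → Wd => (v y ∈ D (fun i => v (β i)) ↔ ε = true)) := by
    intro κ y β ε
    refine Dn.iff (hD κ y β) ?_
    cases ε
    · exact Dn.true.not.congr fun v => by simp
    · exact Dn.true.congr fun v => by simp
  induction j generalizing ε with
  | zero =>
    intro κ x β
    exact Dn.ex (P := fun y v => (y ∈ B (fun i => v (β i)) 0 ∧
      (y ∈ D (fun i => v (β i)) ↔ ε = true)) ∧ Qr (B (fun i => v (β i))) y (v x))
      (Dn.and (Dn.and (dnS_zero h hB (κ ⊕ Fin 1) (Sum.inr 0) (fun i => Sum.inl (β i)))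
        (hDε (κ ⊕ Fin 1) (Sum.inr 0) (fun i => Sum.inl (β i)) ε))
        (Dn.qr h (Sum.inr 0) (Sum.inl x) (fun i => Sum.inl (β i))))
  | succ j ih =>
    intro κ x β
    exact Dn.ex (P := fun y v => ((y ∈ D (fun i => v (β i)) ↔ ε = true) ∧
      ∃ y', y' ∈ Yc (B (fun i => v (β i))) (D (fun i => v (β i))) j (!ε) ∧
        Qr (B (fun i => v (β i))) y' y ∧ ¬ Qr (B (fun i => v (β i))) y y') ∧
      Qr (B (fun i => v (β i))) y (v x))
      (Dn.and (Dn.and (hDε (κ ⊕ Fin 1) (Sum.inr 0) (fun i => Sum.inl (β i)) ε)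
        (Dn.ex (P := fun y' u => y' ∈ Yc (B (fun i => u (Sum.inl (β i))))
          (D (fun i => u (Sum.inl (β i)))) j (!ε) ∧
          Qr (B (fun i => u (Sum.inl (β i)))) y' (u (Sum.inr 0)) ∧
          ¬ Qr (B (fun i => u (Sum.inl (β i)))) (u (Sum.inr 0)) y')
          (Dn.and (ih (!ε) ((κ ⊕ Fin 1) ⊕ Fin 1) (Sum.inr 0) (fun i => Sum.inl (Sum.inl (β i))))
            (Dn.and (Dn.qr h (Sum.inr 0) (Sum.inl (Sum.inr 0)) (fun i => Sum.inl (Sum.inl (β i))))
              (Dn.qr h (Sum.inl (Sum.inr 0)) (Sum.inr 0)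
                (fun i => Sum.inl (Sum.inl (β i)))).not))))
        (Dn.qr h (Sum.inr 0) (Sum.inl x) (fun i => Sum.inl (β i))))

/-- The elements beyond the branching of two chains. -/
def Spl (B B' : ℕ → Set Wd) : Set Wd := {x | ∃ δ, (∀ y, y ∈ B δ → y ∉ B' δ) ∧ x ∈ B δ}

theorem dnS_spl {B B' : (ι → Wd) → ℕ → Set Wd} (h : DnB B) (h' : DnB B') :
    DnS (fun b => Spl (B b) (B' b)) := by
  intro κ x β
  refine (Dn.ex (P := fun w v => (∀ y, y ∈ B (fun i => v (β i)) w.len →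
      y ∉ B' (fun i => v (β i)) w.len) ∧ v x ∈ B (fun i => v (β i)) w.len)
    (Dn.and (Dn.all (P := fun y u => y ∈ B (fun i => u (Sum.inl (β i))) (u (Sum.inr 0)).len →
      y ∉ B' (fun i => u (Sum.inl (β i))) (u (Sum.inr 0)).len)
      (Dn.imp (h ((κ ⊕ Fin 1) ⊕ Fin 1) (Sum.inl (Sum.inr 0)) (Sum.inr 0)
        (fun i => Sum.inl (Sum.inl (β i))))
        (h' ((κ ⊕ Fin 1) ⊕ Fin 1) (Sum.inl (Sum.inr 0)) (Sum.inr 0)
        (fun i => Sum.inl (Sum.inl (β i)))).not))
      (h (κ ⊕ Fin 1) (Sum.inr 0) (Sum.inl x) (fun i => Sum.inl (β i))))).congr fun v => ?_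
  constructor
  · rintro ⟨w, h1, h2⟩
    exact ⟨w.len, h1, h2⟩
  · rintro ⟨δ, h1, h2⟩
    exact ⟨zw δ, h1, h2⟩

/-- The words of the length of `b i` whose sum with `b i` is the sum over `s` below `δ`. -/
def Bx (i : ι) (s : Finset (ι × ι)) (b : ι → Wd) (δ : ℕ) : Set Wd :=
  {x | x.len = (b i).len ∧ δ ≤ x.len ∧ (∀ p ∈ s, (b p.1).len = (b p.2).len ∧ δ ≤ (b p.1).len) ∧
    ∀ n < δ, dz x n + dz (b i) n = ∑ p ∈ s, (dz (b p.1) n + dz (b p.2) n)}

/-- The sum of `w` and `w'` is the sum over `s`. -/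
def As (s : Finset (ι × ι)) (b : ι → Wd) (w w' : Wd) : Prop :=
  w.len = w'.len ∧ (∀ p ∈ s, (b p.1).len = (b p.2).len ∧ w.len ≤ (b p.1).len) ∧
    ∀ n < w.len, dz w n + dz w' n = ∑ p ∈ s, (dz (b p.1) n + dz (b p.2) n)

theorem xr_iff (a b c d : Wd) : XR a b c d ↔ a.len = b.len ∧ c.len = d.len ∧ a.len ≤ c.len ∧
    ∀ i < a.len, dz a i + dz b i = dz c i + dz d i := by
  unfold XR
  simp only [xor_dz]

/-- the word with given digits -/
theorem exists_word (n : ℕ) (f : ℕ → ZMod 2) : ∃ w : Wd, w.len = n ∧ ∀ i < n, dz w i = f i := by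
  refine ⟨cw n (fun i => decide (f i = 1)), rfl, fun i hi => ?_⟩
  unfold dz
  rw [cw_dig hi]
  generalize f i = q
  revert q
  decide

theorem As_insert [DecidableEq ι] (s : Finset (ι × ι)) (p : ι × ι) (hp : p ∉ s) (b : ι → Wd)
    (w w' : Wd) : As (insert p s) b w w' ↔ ∃ u, XR w u (b p.1) (b p.2) ∧ As s b u w' := by
  constructor
  · rintro ⟨h1, h2, h3⟩
    obtain ⟨u, hu1, hu2⟩ := exists_word w.len (fun n => dz w n + (dz (b p.1) n + dz (b p.2) n))
    have hp' := h2 p (Finset.mem_insert_self _ _)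
    refine ⟨u, (xr_iff _ _ _ _).2 ⟨hu1.symm, hp'.1, hp'.2, fun n hn => ?_⟩, by omega,
      fun q hq => ?_, fun n hn => ?_⟩
    · rw [hu2 n hn]
      have : dz w n + dz w n = 0 := CharTwo.add_self_eq_zero _
      linear_combination this
    · have := h2 q (Finset.mem_insert_of_mem hq)
      exact ⟨this.1, by omega⟩
    · rw [hu1] at hn
      have h4 := h3 n hn
      rw [Finset.sum_insert hp] at h4
      rw [hu2 n hn]
      have : (dz (b p.1) n + dz (b p.2) n) + (dz (b p.1) n + dz (b p.2) n) = 0 :=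
        CharTwo.add_self_eq_zero _
      linear_combination h4 + this
  · rintro ⟨u, h1, h2, h3, h4⟩
    rw [xr_iff] at h1
    obtain ⟨g1, g2, g3, g4⟩ := h1
    refine ⟨by omega, fun q hq => ?_, fun n hn => ?_⟩
    · rw [Finset.mem_insert] at hq
      rcases hq with rfl | hq
      · exact ⟨g2, g3⟩
      · have := h3 q hq
        exact ⟨this.1, by omega⟩
    · rw [Finset.sum_insert hp, ← h4 n (by omega), ← g4 n hn]
      have : dz u n + dz u n = 0 := CharTwo.add_self_eq_zero _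
      linear_combination -this

theorem Dn.as (s : Finset (ι × ι)) {κ : Type} (w w' : κ) (β : ι → κ) :
    Dn (fun v : κ → Wd => As s (fun i => v (β i)) (v w) (v w')) := by
  classical
  induction s using Finset.induction_on generalizing κ with
  | empty =>
    refine (Dn.eq w w').congr fun v => ?_
    constructor
    · intro h
      rw [h]
      refine ⟨rfl, by simp, fun n _ => ?_⟩
      rw [Finset.sum_empty]
      exact CharTwo.add_self_eq_zero _
    · rintro ⟨h1, _, h3⟩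
      ext n
      · exact h1
      · rcases Nat.lt_or_ge n (v w).len with h | h
        · have h4 := h3 n h
          rw [Finset.sum_empty] at h4
          rw [← dz_inj]
          exact CharTwo.add_eq_zero.1 h4
        · rw [(v w).sup n h, (v w').sup n (by omega)]
  | insert p s hp ih =>
    refine (Dn.ex (P := fun u v => XR (v w) u (v (β p.1)) (v (β p.2)) ∧
      As s (fun i => v (β i)) u (v w'))
      (Dn.and (Dn.rel (Sum.inl w) (Sum.inr 0) (Sum.inl (β p.1)) (Sum.inl (β p.2)))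
        (ih (Sum.inr 0) (Sum.inl w') (fun i => Sum.inl (β i))))).congr fun v => ?_
    exact (As_insert s p hp (fun i => v (β i)) (v w) (v w')).symm

theorem Bx_iff (i : ι) (s : Finset (ι × ι)) (b : ι → Wd) (w x : Wd) :
    x ∈ Bx i s b w.len ↔ ∃ w', XR w w' x (b i) ∧ As s b w w' := by
  constructor
  · rintro ⟨h1, h2, h3, h4⟩
    obtain ⟨w', hw1, hw2⟩ := exists_word w.len (fun n => dz w n + (dz x n + dz (b i) n))
    have hself : ∀ n, dz w n + dz w n = 0 := fun n => CharTwo.add_self_eq_zero _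
    refine ⟨w', (xr_iff _ _ _ _).2 ⟨hw1.symm, h1, h2, fun n hn => ?_⟩, hw1.symm, h3,
      fun n hn => ?_⟩
    · rw [hw2 n hn]
      linear_combination hself n
    · rw [← h4 n hn, hw2 n hn]
      linear_combination hself n
  · rintro ⟨w', h1, h2, h3, h4⟩
    rw [xr_iff] at h1
    obtain ⟨g1, g2, g3, g4⟩ := h1
    exact ⟨g2, g3, h3, fun n hn => by rw [← h4 n hn, g4 n hn]⟩

theorem dnB_Bx (i : ι) (s : Finset (ι × ι)) : DnB (fun b δ => Bx i s b δ) := by
  intro κ w x β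
  refine (Dn.ex (P := fun w' v => XR (v w) w' (v x) (v (β i)) ∧
    As s (fun i => v (β i)) (v w) w')
    (Dn.and (Dn.rel (Sum.inl w) (Sum.inr 0) (Sum.inl x) (Sum.inl (β i)))
      (Dn.as s (Sum.inl w) (Sum.inr 0) (fun i => Sum.inl (β i))))).congr fun v => ?_
  exact (Bx_iff i s (fun i => v (β i)) (v w) (v x)).symm

theorem chn_lev : Chn lev where
  anti := fun δ x hx => by
    rw [mem_lev] at hx ⊢
    omega
  cell := fun δ _ => isCell_lev δ
  bdd := fun δ x hx => mem_lev.1 hx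

theorem chn_Bx (i : ι) (s : Finset (ι × ι)) (b : ι → Wd) : Chn (Bx i s b) where
  anti := by
    rintro δ x ⟨h1, h2, h3, h4⟩
    exact ⟨h1, by omega, fun p hp => ⟨(h3 p hp).1, by have := (h3 p hp).2; omega⟩,
      fun n hn => h4 n (by omega)⟩
  cell := by
    rintro δ ⟨x0, h1, h2, h3, h4⟩
    have e : Bx i s b δ = ball (b i).len δ x0.dig := by
      ext x
      rw [mem_ball]
      constructor
      · rintro ⟨g1, g2, g3, g4⟩
        refine ⟨g1, by omega, fun n hn => ?_⟩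
        have h5 := g4 n hn
        rw [← h4 n hn] at h5
        rw [← dz_inj]
        exact add_right_cancel h5
      · rintro ⟨g1, g2, g3⟩
        refine ⟨g1, by omega, h3, fun n hn => ?_⟩
        rw [← h4 n hn, dz_inj.2 (g3 n hn)]
    rw [e]
    exact isCell_ball _ _ _
  bdd := fun δ x hx => hx.2.1

end

end Run7.h713
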