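import Pool.Agent.Run7.h713.Step
import Pool.Agent.Run7.h713.DDefs

/-!
Distality from the separation of one-variable formulas by formulas defining cells.
-/

set_option autoImplicit false

namespace Run7.h713

open FirstOrder FirstOrder.Language

/-- Every formula in one variable is separated by finitely many formulas defining cells. -/
def Sepa (ι : Type) : Prop :=
  ∀ φ : Lw.Formula (Fin 1 ⊕ ι), ∃ F : Set (Lw.Formula (Fin 1 ⊕ ι)), F.Finite ∧
    (∀ χ ∈ F, CellFam χ) ∧ ∀ (b : ι → Wd) (x x' : Wd),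
      (∀ χ ∈ F, (x ∈ St χ b ↔ x' ∈ St χ b)) → (x ∈ St φ b ↔ x' ∈ St φ b)

section

variable {N : Type 1} [Lw.Structure N] [N ⊨ Lw.completeTheory Wd]

theorem sepa_N {ι : Type} [Finite ι] (φ : Lw.Formula (Fin 1 ⊕ ι))
    (F : Set (Lw.Formula (Fin 1 ⊕ ι))) (hF : F.Finite)
    (h : ∀ (b : ι → Wd) (x x' : Wd),
      (∀ χ ∈ F, (x ∈ St χ b ↔ x' ∈ St χ b)) → (x ∈ St φ b ↔ x' ∈ St φ b))
    (b : ι → N) (x x' : N) (hx : ∀ χ ∈ F, (x ∈ St χ b ↔ x' ∈ St χ b)) :
    x ∈ St φ b ↔ x' ∈ St φ b := by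
  classical
  have : Finite F := hF
  -- `at i χ` is the formula `χ(x_i; b)`
  let at_ : Fin 2 → Lw.Formula (Fin 1 ⊕ ι) → Lw.Formula (ι ⊕ Fin 2) := fun i χ =>
    χ.relabel (Sum.elim (fun _ => Sum.inr i) Sum.inl)
  have hat : ∀ {V : Type} [Lw.Structure V] (i : Fin 2) (χ : Lw.Formula (Fin 1 ⊕ ι)) (b : ι → V)
      (y : Fin 2 → V), (at_ i χ).Realize (Sum.elim b y) ↔ y i ∈ St χ b := by
    intro V _ i χ b y
    show (χ.relabel _).Realize _ ↔ _
    rw [Formula.realize_relabel]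
    have e : (Sum.elim b y ∘ Sum.elim (fun _ => Sum.inr i) Sum.inl : Fin 1 ⊕ ι → V) =
        Sum.elim (fun _ => y i) b := by
      funext a
      rcases a with a | a <;> rfl
    rw [e]
    exact Iff.rfl
  have hat' : ∀ {V : Type 1} [Lw.Structure V] (i : Fin 2) (χ : Lw.Formula (Fin 1 ⊕ ι)) (b : ι → V)
      (y : Fin 2 → V), (at_ i χ).Realize (Sum.elim b y) ↔ y i ∈ St χ b := by
    intro V _ i χ b y
    show (χ.relabel _).Realize _ ↔ _
    rw [Formula.realize_relabel]
    have e : (Sum.elim b y ∘ Sum.elim (fun _ => Sum.inr i) Sum.inl : Fin 1 ⊕ ι → V) =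
        Sum.elim (fun _ => y i) b := by
      funext a
      rcases a with a | a <;> rfl
    rw [e]
    exact Iff.rfl
  have key := transfer ((Formula.iInf (fun χ : F => (at_ 0 χ.1).iff (at_ 1 χ.1))).imp
    ((at_ 0 φ).iff (at_ 1 φ))) (by
    intro v
    have ev : v = Sum.elim (v ∘ Sum.inl) (v ∘ Sum.inr) := by
      funext a
      rcases a with a | a <;> rfl
    rw [ev, Formula.realize_imp, Formula.realize_iInf, Formula.realize_iff, hat, hat]
    intro h1
    refine h _ _ _ (fun χ hχ => ?_)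
    have := h1 ⟨χ, hχ⟩
    rw [Formula.realize_iff, hat, hat] at this
    exact this) N (Sum.elim b ![x, x'])
  rw [Formula.realize_imp, Formula.realize_iInf, Formula.realize_iff, hat', hat'] at key
  refine key (fun χ => ?_)
  rw [Formula.realize_iff, hat', hat']
  exact hx χ.1 χ.2

theorem phi_case {X : Type} [LinearOrder X] {β : Type} [Finite β] (hsep : Sepa β)
    (φ : Lw.Formula (Fin 1 ⊕ β)) {a : N} {d : X → β → N}
    {V : Set X} {c : X} (hc : c ∈ V) (h1 : H1 d V) (h2 : H2 a d (V \ {c})) {x1 x2 y1 y2 : X}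
    (vx1 : x1 ∈ V) (vx2 : x2 ∈ V) (vy1 : y1 ∈ V) (vy2 : y2 ∈ V) (l1 : x1 < x2) (l2 : x2 < c)
    (l3 : c < y1) (l4 : y1 < y2) : a ∈ St φ (d x1) ↔ a ∈ St φ (d c) := by
  classical
  obtain ⟨F, hF, hcell, hs⟩ := hsep φ
  have : Finite F := hF
  have hcase : ∀ χ ∈ F, (a ∈ St χ (d x1) ↔ a ∈ St χ (d c)) := fun χ hχ =>
    cell_case (hcell χ hχ) hc h1 h2 vx1 vx2 vy1 vy2 l1 l2 l3 l4
  have main : ∀ x y, x ∈ V → y ∈ V → (∀ χ ∈ F, (a ∈ St χ (d x) ↔ a ∈ St χ (d y))) →
      a ∈ St φ (d x) → a ∈ St φ (d y) := by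
    intro x y hx hy hxy hax
    let Φ : Lw.Formula (Fin 1 × β) := ((swp (cp φ 0)) ⊓ (Formula.iInf (fun χ : F =>
      if a ∈ St χ.1 (d y) then swp (cp χ.1 0) else (swp (cp χ.1 0)).not)) :
        Lw.Formula ((Fin 1 × β) ⊕ Fin 1)).iExs (Fin 1)
    have hΦ : ∀ z, Φ.Realize (fun p => d z p.2) ↔ ∃ t : N, t ∈ St φ (d z) ∧
        ∀ χ ∈ F, (t ∈ St χ (d z) ↔ a ∈ St χ (d y)) := by
      intro z
      have e : ∀ χ : Lw.Formula (Fin 1 ⊕ β), St (cp χ (0 : Fin 1)) (fun p => d z p.2) =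
          St χ (d z) := fun χ => St_cp χ (0 : Fin 1) d (fun _ => z)
      show Formula.Realize (Formula.iExs _ _) _ ↔ _
      rw [Formula.realize_iExs]
      constructor
      · rintro ⟨t, ht⟩
        rw [Formula.realize_inf, Formula.realize_iInf, realize_swp, e] at ht
        refine ⟨t 0, ht.1, fun χ hχ => ?_⟩
        have := ht.2 ⟨χ, hχ⟩
        by_cases hay : a ∈ St χ (d y)
        · simp only [hay, if_true] at this
          rw [realize_swp, e] at this
          exact iff_of_true this hay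
        · simp only [hay, if_false] at this
          rw [Formula.realize_not, realize_swp, e] at this
          exact iff_of_false this hay
      · rintro ⟨t, ht, ht'⟩
        refine ⟨fun _ => t, ?_⟩
        rw [Formula.realize_inf, Formula.realize_iInf, realize_swp, e]
        refine ⟨ht, fun χ => ?_⟩
        by_cases hay : a ∈ St χ.1 (d y)
        · simp only [hay, if_true]
          rw [realize_swp, e]
          exact (ht' χ.1 χ.2).2 hay
        · simp only [hay, if_false]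
          rw [Formula.realize_not, realize_swp, e]
          exact fun hcon => hay ((ht' χ.1 χ.2).1 hcon)
    have hinv := h1 1 Φ (fun _ => x) (fun _ => y) (fun _ => hx) (fun _ => hy) (by simp)
    rw [hΦ, hΦ] at hinv
    obtain ⟨t, ht, ht'⟩ := hinv.1 ⟨a, hax, hxy⟩
    exact (sepa_N φ F hF hs (d y) t a ht').1 ht
  exact ⟨main x1 c vx1 hc hcase, main c x1 hc vx1 (fun χ hχ => (hcase χ hχ).symm)⟩

end

end Run7.h713
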