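import Pool.Agent.Run7.h713.Words

/-!
The Ehrenfeucht-Fraisse analysis of the structure of finite binary words.
-/

set_option autoImplicit false

namespace Run7.h713

open FirstOrder FirstOrder.Language

/-- A finite set of pairs of numbers which preserves distances below the threshold `K`. -/
def Good (K : ℕ) (P : Finset (ℕ × ℕ)) : Prop :=
  (0, 0) ∈ P ∧ ∀ p ∈ P, ∀ q ∈ P, min (q.1 - p.1) K = min (q.2 - p.2) K

theorem Good.mono {K K' : ℕ} (h : K' ≤ K) {P : Finset (ℕ × ℕ)} (hP : Good K P) : Good K' P := by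
  refine ⟨hP.1, fun p hp q hq => ?_⟩
  have := hP.2 p hp q hq
  omega

/-- the reversed set of pairs -/
def sw (P : Finset (ℕ × ℕ)) : Finset (ℕ × ℕ) := P.image Prod.swap

theorem mem_sw {P : Finset (ℕ × ℕ)} {p : ℕ × ℕ} : p ∈ sw P ↔ (p.2, p.1) ∈ P := by
  unfold sw
  rw [Finset.mem_image]
  constructor
  · rintro ⟨q, hq, rfl⟩
    exact hq
  · intro h
    exact ⟨(p.2, p.1), h, rfl⟩

theorem Good.swap {K : ℕ} {P : Finset (ℕ × ℕ)} (hP : Good K P) : Good K (sw P) := by
  refine ⟨mem_sw.2 hP.1, fun p hp q hq => ?_⟩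
  have := hP.2 _ (mem_sw.1 hp) _ (mem_sw.1 hq)
  exact this.symm

theorem Good.extend {K : ℕ} (hK : 1 ≤ K) {P : Finset (ℕ × ℕ)} (hP : Good (2 * K) P) (c : ℕ) :
    ∃ c', Good K (insert (c, c') P) := by
  classical
  obtain ⟨h0, h1⟩ := hP
  have hne : (P.filter (fun p => p.1 ≤ c)).Nonempty := ⟨(0, 0), by simp [h0]⟩
  obtain ⟨p, hp, hpm⟩ := Finset.exists_max_image _ (fun p => p.1) hne
  rw [Finset.mem_filter] at hp
  have hpm' : ∀ r ∈ P, r.1 ≤ c → r.1 ≤ p.1 := fun r hr hrc =>
    hpm r (Finset.mem_filter.2 ⟨hr, hrc⟩)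
  have key : ∀ c', (∀ r ∈ P, min (c - r.1) K = min (c' - r.2) K ∧
      min (r.1 - c) K = min (r.2 - c') K) → Good K (insert (c, c') P) := by
    intro c' h
    refine ⟨Finset.mem_insert_of_mem h0, fun a ha b hb => ?_⟩
    rw [Finset.mem_insert] at ha hb
    rcases ha with rfl | ha <;> rcases hb with rfl | hb
    · simp
    · exact (h b hb).2
    · exact (h a ha).1
    · have := h1 a ha b hb
      omega
  by_cases hd : c - p.1 < K
  · refine ⟨p.2 + (c - p.1), key _ fun r hr => ?_⟩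
    have e1 := h1 p hp.1 r hr
    have e2 := h1 r hr p hp.1
    have e3 := hp.2
    by_cases hrc : r.1 ≤ c
    · have e4 := hpm' r hr hrc
      omega
    · omega
  · by_cases hq : ∃ q ∈ P, c < q.1 ∧ q.1 - c < K
    · have hne2 : (P.filter (fun q => c < q.1)).Nonempty := by
        obtain ⟨q, hq1, hq2, _⟩ := hq
        exact ⟨q, by simp [hq1, hq2]⟩
      obtain ⟨q, hq3, hqm⟩ := Finset.exists_min_image _ (fun q => q.1) hne2
      rw [Finset.mem_filter] at hq3
      have hqm' : ∀ r ∈ P, c < r.1 → q.1 ≤ r.1 := fun r hr hrc =>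
        hqm r (Finset.mem_filter.2 ⟨hr, hrc⟩)
      have hqK : q.1 - c < K := by
        obtain ⟨q', hq1, hq2, hq4⟩ := hq
        have := hqm' q' hq1 hq2
        omega
      refine ⟨q.2 - (q.1 - c), key _ fun r hr => ?_⟩
      have e1 := h1 q hq3.1 r hr
      have e2 := h1 r hr q hq3.1
      have e3 := h1 p hp.1 q hq3.1
      have e5 := hq3.2
      have e6 := hp.2
      clear key h1 hne hpm hqm hq hne2
      have e7 : c - p.1 + (q.1 - c) = q.1 - p.1 := by omega
      have e8 : K + (q.1 - c) ≤ q.2 - p.2 := by omega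
      by_cases hrc : r.1 ≤ c
      · have e4 := hpm' r hr hrc
        clear hpm' hqm' e3
        have e9 : K + (q.1 - c) ≤ q.1 - r.1 := by omega
        have e10 : K + (q.1 - c) ≤ q.2 - r.2 := by omega
        constructor <;> omega
      · have e4 := hqm' r hr (by omega)
        clear hpm' hqm' e3
        have e9 : q.2 ≤ r.2 := by omega
        have e10 : q.1 - c ≤ q.2 := by omega
        have e11 : r.1 - c = (r.1 - q.1) + (q.1 - c) := by omega
        have e12 : r.2 - (q.2 - (q.1 - c)) = (r.2 - q.2) + (q.1 - c) := by omega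
        constructor
        · omega
        · rw [e11, e12]
          clear e11 e12 e10 e9 e8 e7 e2
          omega
    · refine ⟨p.2 + K, key _ fun r hr => ?_⟩
      have e1 := h1 p hp.1 r hr
      have e2 := h1 r hr p hp.1
      have e3 := hp.2
      by_cases hrc : r.1 ≤ c
      · have e4 := hpm' r hr hrc
        omega
      · have e5 : ¬ (r.1 - c < K) := fun hcon => hq ⟨r, hr, by omega, hcon⟩
        omega

/-- The words `x` and `x'` correspond to each other under `P`. -/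
def Mat (P : Finset (ℕ × ℕ)) (x x' : Wd) : Prop :=
  (x.len, x'.len) ∈ P ∧ (∀ p ∈ P, x.dig p.1 = x'.dig p.2) ∧
    (∀ i, x.dig i = true → ∃ p ∈ P, p.1 = i) ∧ (∀ i, x'.dig i = true → ∃ p ∈ P, p.2 = i)

theorem Mat.swap {P : Finset (ℕ × ℕ)} {x x' : Wd} (h : Mat P x x') : Mat (sw P) x' x := by
  obtain ⟨h1, h2, h3, h4⟩ := h
  refine ⟨mem_sw.2 h1, fun p hp => (h2 _ (mem_sw.1 hp)).symm, fun i hi => ?_, fun i hi => ?_⟩
  · obtain ⟨p, hp, rfl⟩ := h4 i hi
    exact ⟨(p.2, p.1), mem_sw.2 hp, rfl⟩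
  · obtain ⟨p, hp, rfl⟩ := h3 i hi
    exact ⟨(p.2, p.1), mem_sw.2 hp, rfl⟩

theorem Good.fst_eq {K : ℕ} (hK : 1 ≤ K) {P : Finset (ℕ × ℕ)} (hP : Good K P) {p q : ℕ × ℕ}
    (hp : p ∈ P) (hq : q ∈ P) : p.1 = q.1 ↔ p.2 = q.2 := by
  have h1 := hP.2 p hp q hq
  have h2 := hP.2 q hq p hp
  omega

theorem Good.fst_le {K : ℕ} (hK : 1 ≤ K) {P : Finset (ℕ × ℕ)} (hP : Good K P) {p q : ℕ × ℕ}
    (hp : p ∈ P) (hq : q ∈ P) : p.1 ≤ q.1 ↔ p.2 ≤ q.2 := by
  have h1 := hP.2 p hp q hq
  have h2 := hP.2 q hq p hp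
  omega

theorem Good.fst_lt {K : ℕ} (hK : 1 ≤ K) {P : Finset (ℕ × ℕ)} (hP : Good K P) {p q : ℕ × ℕ}
    (hp : p ∈ P) (hq : q ∈ P) : p.1 < q.1 ↔ p.2 < q.2 := by
  have h1 := hP.2 p hp q hq
  have h2 := hP.2 q hq p hp
  omega

theorem Mat.mono {K : ℕ} (hK : 1 ≤ K) {P P' : Finset (ℕ × ℕ)} (hPP : P ⊆ P') (hP' : Good K P')
    {x x' : Wd} (h : Mat P x x') : Mat P' x x' := by
  obtain ⟨h1, h2, h3, h4⟩ := h
  refine ⟨hPP h1, fun p hp => ?_, fun i hi => ?_, fun i hi => ?_⟩
  · by_cases hx : x.dig p.1 = true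
    · obtain ⟨q, hq, hqp⟩ := h3 _ hx
      have e : q.2 = p.2 := (hP'.fst_eq hK (hPP hq) hp).1 hqp
      rw [← e, ← hqp]
      exact h2 q hq
    · by_cases hx' : x'.dig p.2 = true
      · obtain ⟨q, hq, hqp⟩ := h4 _ hx'
        have e : q.1 = p.1 := (hP'.fst_eq hK (hPP hq) hp).2 hqp
        rw [← e, ← hqp]
        exact h2 q hq
      · simp only [Bool.not_eq_true] at hx hx'
        rw [hx, hx']
  · obtain ⟨p, hp, e⟩ := h3 i hi
    exact ⟨p, hPP hp, e⟩
  · obtain ⟨p, hp, e⟩ := h4 i hi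
    exact ⟨p, hPP hp, e⟩

theorem Mat.eq_imp {K : ℕ} (hK : 1 ≤ K) {P : Finset (ℕ × ℕ)} (hP : Good K P)
    {x x' y y' : Wd} (hx : Mat P x x') (hy : Mat P y y') (h : x = y) : x' = y' := by
  subst h
  obtain ⟨h1, h2, h3, h4⟩ := hx
  obtain ⟨g1, g2, g3, g4⟩ := hy
  ext i
  · exact (hP.fst_eq hK h1 g1).1 rfl
  · by_cases e1 : x'.dig i = true
    · obtain ⟨p, hp, rfl⟩ := h4 i e1
      rw [← h2 p hp, ← g2 p hp]
    · by_cases e2 : y'.dig i = true
      · obtain ⟨p, hp, rfl⟩ := g4 i e2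
        rw [← h2 p hp, ← g2 p hp]
      · simp only [Bool.not_eq_true] at e1 e2
        rw [e1, e2]

theorem Mat.eq_iff {K : ℕ} (hK : 1 ≤ K) {P : Finset (ℕ × ℕ)} (hP : Good K P)
    {x x' y y' : Wd} (hx : Mat P x x') (hy : Mat P y y') : x = y ↔ x' = y' :=
  ⟨hx.eq_imp hK hP hy, hx.swap.eq_imp hK hP.swap hy.swap⟩

theorem Mat.xr_imp {K : ℕ} (hK : 1 ≤ K) {P : Finset (ℕ × ℕ)} (hP : Good K P)
    {a a' b b' c c' d d' : Wd} (ha : Mat P a a') (hb : Mat P b b') (hc : Mat P c c')
    (hd : Mat P d d') (h : XR a b c d) : XR a' b' c' d' := by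
  obtain ⟨h1, h2, h3, h4⟩ := h
  refine ⟨(hP.fst_eq hK ha.1 hb.1).1 h1, (hP.fst_eq hK hc.1 hd.1).1 h2,
    (hP.fst_le hK ha.1 hc.1).1 h3, ?_⟩
  intro i hi
  have key : (∃ p ∈ P, p.2 = i) → (a'.dig i ^^ b'.dig i) = (c'.dig i ^^ d'.dig i) := by
    rintro ⟨p, hp, rfl⟩
    have hlt : p.1 < a.len := (hP.fst_lt hK hp ha.1).2 hi
    have := h4 p.1 hlt
    rw [← ha.2.1 p hp, ← hb.2.1 p hp, ← hc.2.1 p hp, ← hd.2.1 p hp]
    exact this
  by_cases e1 : a'.dig i = true
  · exact key (ha.2.2.2 i e1)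
  by_cases e2 : b'.dig i = true
  · exact key (hb.2.2.2 i e2)
  by_cases e3 : c'.dig i = true
  · exact key (hc.2.2.2 i e3)
  by_cases e4 : d'.dig i = true
  · exact key (hd.2.2.2 i e4)
  simp only [Bool.not_eq_true] at e1 e2 e3 e4
  rw [e1, e2, e3, e4]

theorem Mat.xr_iff {K : ℕ} (hK : 1 ≤ K) {P : Finset (ℕ × ℕ)} (hP : Good K P)
    {a a' b b' c c' d d' : Wd} (ha : Mat P a a') (hb : Mat P b b') (hc : Mat P c c')
    (hd : Mat P d d') : XR a b c d ↔ XR a' b' c' d' :=
  ⟨Mat.xr_imp hK hP ha hb hc hd, Mat.xr_imp hK hP.swap ha.swap hb.swap hc.swap hd.swap⟩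

/-- The word `x` is supported on the set of positions `S`. -/
def SuppOn (S : ℕ → Prop) (x : Wd) : Prop := ∀ i, x.dig i = true → S i

/-- Normalisation of one word over a set `S` of positions: if `α` is the first position outside
`S` at which `y` has digit 1 then `y` can be cut off after `α`, fixing all words supported on
`S`. -/
theorem exists_cut (S : ℕ → Prop) (y : Wd) (α : ℕ) (hα : ¬ S α) (hy : y.dig α = true) :
    ∃ g : Wd ≃[Lw] Wd, (∀ x, SuppOn S x → g x = x) ∧ (∀ x, (g x).len = x.len) ∧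
      ∀ i, (g y).dig i = (y.dig i && decide (i ≤ α)) := by
  refine ⟨shear α (fun i => y.dig i && decide (α < i)) ?_, ?_, ?_, ?_⟩
  · intro i hi
    have : ¬ α < i := by omega
    simp [this]
  · intro x hx
    have h0 : x.dig α = false := by
      by_contra h
      simp only [Bool.not_eq_false] at h
      exact hα (hx α h)
    ext i
    · rfl
    · rw [shear_dig, h0]
      simp
  · intro x
    rfl
  · intro i
    rw [shear_dig, hy]
    by_cases h1 : i < y.len
    · by_cases h2 : α < i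
      · have h3 : ¬ i ≤ α := by omega
        cases y.dig i <;> simp [h1, h2, h3]
      · have h3 : i ≤ α := by omega
        cases y.dig i <;> simp [h1, h2, h3]
    · have h4 := y.sup i (by omega)
      simp [h4]

/-- One step of the back-and-forth. -/
theorem step {K : ℕ} (hK : 1 ≤ K) {P : Finset (ℕ × ℕ)} (hP : Good (4 * K) P) (y : Wd) :
    ∃ (g : Wd ≃[Lw] Wd) (P' : Finset (ℕ × ℕ)) (y' : Wd), P ⊆ P' ∧ Good K P' ∧
      (∀ x, SuppOn (fun i => ∃ p ∈ P, p.1 = i) x → g x = x) ∧ Mat P' (g y) y' := by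
  classical
  have hP2 : Good (2 * (2 * K)) P := by
    have : 2 * (2 * K) = 4 * K := by ring
    rw [this]; exact hP
  obtain ⟨γ', hγ'⟩ := hP2.extend (by omega) y.len
  set P1 := insert (y.len, γ') P with hP1
  -- the general conclusion from a normalised word
  have fin : ∀ (P2 : Finset (ℕ × ℕ)) (z : Wd), Good K P2 → P1 ⊆ P2 → z.len = y.len →
      SuppOn (fun i => ∃ p ∈ P2, p.1 = i) z → ∃ y', Mat P2 z y' := by
    intro P2 z hG hsub hlen hsupp
    have hmem : (y.len, γ') ∈ P2 := hsub (by rw [hP1]; exact Finset.mem_insert_self _ _)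
    refine ⟨⟨γ', fun j => decide (∃ p ∈ P2, p.2 = j ∧ z.dig p.1 = true), ?_⟩, ?_⟩
    · intro j hj
      simp only [decide_eq_false_iff_not]
      rintro ⟨p, hp, rfl, hz⟩
      have h1 : ¬ y.len ≤ p.1 := by
        intro hcon
        rw [z.sup _ (by omega)] at hz
        exact absurd hz (by simp)
      have h2 : p.1 < y.len := by omega
      have h3 : p.2 < γ' := (hG.fst_lt hK hp hmem).1 h2
      omega
    · refine ⟨?_, ?_, hsupp, ?_⟩
      · show (z.len, γ') ∈ P2
        rw [hlen]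
        exact hmem
      · intro p hp
        show z.dig p.1 = decide (∃ q ∈ P2, q.2 = p.2 ∧ z.dig q.1 = true)
        by_cases hz : z.dig p.1 = true
        · rw [hz]
          symm
          simp only [decide_eq_true_eq]
          exact ⟨p, hp, rfl, hz⟩
        · simp only [Bool.not_eq_true] at hz
          rw [hz]
          symm
          simp only [decide_eq_false_iff_not]
          rintro ⟨q, hq, hqp, hzq⟩
          have : q.1 = p.1 := (hG.fst_eq hK hq hp).2 hqp
          rw [this, hz] at hzq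
          exact absurd hzq (by simp)
      · intro j hj
        have hj' : decide (∃ q ∈ P2, q.2 = j ∧ z.dig q.1 = true) = true := hj
        simp only [decide_eq_true_eq] at hj'
        obtain ⟨q, hq, hqj, _⟩ := hj'
        exact ⟨q, hq, hqj⟩
  have hsub1 : P ⊆ P1 := by
    rw [hP1]; exact Finset.subset_insert _ _
  by_cases hex : ∃ i, y.dig i = true ∧ ¬ ∃ p ∈ P1, p.1 = i
  · set α := Nat.find hex with hα
    have hα1 := Nat.find_spec hex
    rw [← hα] at hα1
    have hα2 : ∀ i < α, y.dig i = true → ∃ p ∈ P1, p.1 = i := by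
      intro i hi hyi
      have := Nat.find_min hex hi
      push Not at this
      obtain ⟨p, hp, hpi⟩ := this hyi
      exact ⟨p, hp, hpi⟩
    obtain ⟨g, hg1, hg2, hg3⟩ := exists_cut (fun i => ∃ p ∈ P1, p.1 = i) y α hα1.2 hα1.1
    obtain ⟨α', hα'⟩ := Good.extend hK (P := P1) hγ' α
    obtain ⟨y', hy'⟩ := fin (insert (α, α') P1) (g y) hα' (Finset.subset_insert _ _) (hg2 y) (by
      intro i hi
      rw [hg3 i] at hi
      simp only [Bool.and_eq_true, decide_eq_true_eq] at hi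
      rcases Nat.lt_or_ge i α with h | h
      · obtain ⟨p, hp, hpi⟩ := hα2 i h hi.1
        exact ⟨p, Finset.mem_insert_of_mem hp, hpi⟩
      · have : i = α := by omega
        exact ⟨(α, α'), Finset.mem_insert_self _ _, this.symm⟩)
    refine ⟨g, insert (α, α') P1, y', hsub1.trans (Finset.subset_insert _ _), hα', ?_, hy'⟩
    intro x hx
    refine hg1 x ?_
    intro i hi
    obtain ⟨p, hp, hpi⟩ := hx i hi
    exact ⟨p, hsub1 hp, hpi⟩
  · have hG : Good K P1 := hγ'.mono (by omega)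
    obtain ⟨y', hy'⟩ := fin P1 y hG (Finset.Subset.refl _) rfl (by
      intro i hi
      by_contra hcon
      exact hex ⟨i, hi, hcon⟩)
    exact ⟨FirstOrder.Language.Equiv.refl Lw Wd, P1, y', hsub1, hG, fun x _ => rfl, hy'⟩

/-- The threshold of a formula. -/
def rk {α : Type*} : ∀ {n : ℕ}, Lw.BoundedFormula α n → ℕ
  | _, .falsum => 1
  | _, .equal _ _ => 1
  | _, .rel _ _ => 1
  | _, .imp f g => max (rk f) (rk g)
  | _, .all f => 4 * rk f

theorem one_le_rk {α : Type*} {n : ℕ} (φ : Lw.BoundedFormula α n) : 1 ≤ rk φ := by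
  induction φ with
  | falsum => exact le_rfl
  | equal => exact le_rfl
  | rel => exact le_rfl
  | imp f g ih1 ih2 =>
    show 1 ≤ max (rk f) (rk g)
    omega
  | all f ih =>
    show 1 ≤ 4 * rk f
    omega

theorem term_var {α : Type*} (t : Lw.Term α) : ∃ a, t = Term.var a := by
  cases t with
  | var a => exact ⟨a, rfl⟩
  | func f _ => exact (f : Empty).elim

theorem ef {α : Type*} {n : ℕ} (φ : Lw.BoundedFormula α n) :
    ∀ (P : Finset (ℕ × ℕ)), Good (rk φ) P → ∀ (v v' : α → Wd) (xs xs' : Fin n → Wd),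
      (∀ a, Mat P (v a) (v' a)) → (∀ i, Mat P (xs i) (xs' i)) →
        (φ.Realize v xs ↔ φ.Realize v' xs') := by
  induction φ with
  | falsum => intros; exact Iff.rfl
  | @equal n t1 t2 =>
    intro P hP v v' xs xs' hv hxs
    obtain ⟨a, rfl⟩ := term_var t1
    obtain ⟨b, rfl⟩ := term_var t2
    show (Sum.elim v xs a = Sum.elim v xs b ↔ Sum.elim v' xs' a = Sum.elim v' xs' b)
    have key : ∀ c, Mat P (Sum.elim v xs c) (Sum.elim v' xs' c) := by
      rintro (c | c)
      · exact hv c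
      · exact hxs c
    exact Mat.eq_iff (K := 1) le_rfl hP (key a) (key b)
  | @rel n l R ts =>
    intro P hP v v' xs xs' hv hxs
    cases R
    have key : ∀ c, Mat P (Sum.elim v xs c) (Sum.elim v' xs' c) := by
      rintro (c | c)
      · exact hv c
      · exact hxs c
    have key2 : ∀ i, Mat P ((ts i).realize (Sum.elim v xs)) ((ts i).realize (Sum.elim v' xs')) := by
      intro i
      obtain ⟨a, ha⟩ := term_var (ts i)
      rw [ha]
      exact key a
    show XR _ _ _ _ ↔ XR _ _ _ _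
    exact Mat.xr_iff (K := 1) le_rfl hP (key2 0) (key2 1) (key2 2) (key2 3)
  | imp f g ih1 ih2 =>
    intro P hP v v' xs xs' hv hxs
    have hP' : Good (max (rk f) (rk g)) P := hP
    rw [BoundedFormula.realize_imp, BoundedFormula.realize_imp,
      ih1 P (hP'.mono (le_max_left _ _)) v v' xs xs' hv hxs,
      ih2 P (hP'.mono (le_max_right _ _)) v v' xs xs' hv hxs]
  | @all n f ih =>
    have main : ∀ (P : Finset (ℕ × ℕ)), Good (4 * rk f) P →
        ∀ (v v' : α → Wd) (xs xs' : Fin n → Wd),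
        (∀ a, Mat P (v a) (v' a)) → (∀ i, Mat P (xs i) (xs' i)) →
        (∀ y, f.Realize v (Fin.snoc xs y)) → ∀ y', f.Realize v' (Fin.snoc xs' y') := by
      intro P hP v v' xs xs' hv hxs hall y'
      obtain ⟨g, P', y, hsub, hG, hfix, hm⟩ := step (one_le_rk f) hP.swap y'
      have hv2 : ∀ a, g (v' a) = v' a := fun a => hfix _ (hv a).swap.2.2.1
      have hxs2 : ∀ i, g (xs' i) = xs' i := fun i => hfix _ (hxs i).swap.2.2.1
      have h1 := hall y
      have h2 := (ih P' hG v' v (Fin.snoc xs' (g y')) (Fin.snoc xs y)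
        (fun a => (hv a).swap.mono (one_le_rk f) hsub hG) (by
          intro i
          refine Fin.lastCases ?_ (fun i => ?_) i
          · simpa using hm
          · simpa using (hxs i).swap.mono (one_le_rk f) hsub hG)).2 h1
      have h3 : (Fin.snoc xs' (g y') : Fin (n + 1) → Wd) = g ∘ (Fin.snoc xs' y' : Fin (n + 1) → Wd) := by
        funext i
        refine Fin.lastCases ?_ (fun i => ?_) i
        · simp
        · simp [hxs2]
      have h4 : v' = g ∘ v' := by
        funext a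
        exact (hv2 a).symm
      rw [h3, h4, StrongHomClass.realize_boundedFormula g f] at h2
      exact h2
    intro P hP v v' xs xs' hv hxs
    constructor
    · exact main P hP v v' xs xs' hv hxs
    · exact main (sw P) hP.swap v' v xs' xs (fun a => (hv a).swap) (fun i => (hxs i).swap)

/-- The version for formulas. -/
theorem ef_formula {α : Type*} (φ : Lw.Formula α) (P : Finset (ℕ × ℕ)) (hP : Good (rk φ) P)
    (v v' : α → Wd) (h : ∀ a, Mat P (v a) (v' a)) : φ.Realize v ↔ φ.Realize v' :=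
  ef φ P hP v v' _ _ h (fun i => i.elim0)

end Run7.h713
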