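import Pool.Agent.Run7.h713.NonFork

/-!
The formula does not fork.
-/

set_option autoImplicit false

namespace Run7.h713

open FirstOrder FirstOrder.Language

section

variable {L : FirstOrder.Language.{0, 0}} {U : Type 1} [L.Structure U]

theorem Fml.holds_neg {n : ℕ} (θ : Fml L U n) (a : Fin n → U) : θ.neg.Holds a ↔ ¬ θ.Holds a := by
  show (θ.form.not).Realize (Sum.elim a θ.par) ↔ _
  rw [Formula.realize_not]
  rfl

theorem SameType.realize {A : Set U} {k : ℕ} {c c' : Fin k → U}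
    (h : SameType (L := L) A c c') {I : Type} (v : I → U) (hv : ∀ j, v j ∈ A)
    (φ : L.Formula (I ⊕ Fin k)) :
    φ.Realize (Sum.elim v c) ↔ φ.Realize (Sum.elim v c') := by
  classical
  let s' : Finset I := (BoundedFormula.freeVarFinset φ).toLeft
  let e : s' ≃ Fin s'.card := s'.equivFin
  let f : (BoundedFormula.freeVarFinset φ) → Fin k ⊕ Fin s'.card := fun x =>
    match x with
    | ⟨Sum.inl a, hx⟩ => Sum.inr (e ⟨a, Finset.mem_toLeft.2 hx⟩)
    | ⟨Sum.inr b, _⟩ => Sum.inl b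
  let θ : Fml L U k := ⟨s'.card, BoundedFormula.restrictFreeVar φ f, fun j => v (e.symm j).1⟩
  have key : ∀ d : Fin k → U, θ.Holds d ↔ φ.Realize (Sum.elim v d) := by
    intro d
    refine BoundedFormula.realize_restrictFreeVar (Sum.elim v d) ?_
    rintro ⟨a | b, hx⟩
    · show v (e.symm (e ⟨a, _⟩)).1 = v a
      rw [e.symm_apply_apply]
    · rfl
  rw [← key, ← key]
  exact h θ (fun j => hv _)

/-- A global type which is invariant under the automorphisms fixing `A` does not contain a formula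
forking over `A`. -/
theorem not_forks_of_invariant {T : L.Theory} (hU : IsMonster T U) {A : Set U} [Small.{0} A]
    {n : ℕ} (p : Set (Fml L U n)) (hc : Consistent p) (hcomp : ∀ θ : Fml L U n, θ ∈ p ∨ θ.neg ∈ p)
    (hinv : ∀ σ : U ≃[L] U, (∀ a ∈ A, σ a = a) → ∀ θ ∈ p,
      (⟨θ.len, θ.form, σ ∘ θ.par⟩ : Fml L U n) ∈ p) (θ : Fml L U n) (hθ : θ ∈ p) :
    ¬ Forks A θ := by
  rintro ⟨F, hF, hdiv, himp⟩
  -- some member of `F` belongs to `p`
  have h1 : ∃ ψ ∈ F, ψ ∈ p := by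
    by_contra hcon
    push Not at hcon
    have h2 : ∀ ψ ∈ F, ψ.neg ∈ p := fun ψ hψ => (hcomp ψ).resolve_left (hcon ψ hψ)
    obtain ⟨a, ha⟩ := hc (insert θ (Fml.neg '' F)) ((hF.image _).insert _) (by
      intro ψ hψ
      rcases Set.mem_insert_iff.1 hψ with rfl | hψ
      · exact hθ
      · obtain ⟨ψ', hψ', rfl⟩ := hψ
        exact h2 ψ' hψ')
    obtain ⟨ψ, hψ, hψa⟩ := himp a (ha θ (Set.mem_insert _ _))
    have := ha ψ.neg (Set.mem_insert_of_mem _ ⟨ψ, hψ, rfl⟩)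
    rw [Fml.holds_neg] at this
    exact this hψa
  obtain ⟨ψ, hψF, hψp⟩ := h1
  obtain ⟨k, b, hb, hk⟩ := hdiv ψ hψF
  have h3 : ∀ j, (⟨ψ.len, ψ.form, b j⟩ : Fml L U n) ∈ p := by
    intro j
    obtain ⟨σ, hσ⟩ := hU.homogeneous (Shrink.{0} A ⊕ Fin ψ.len)
      (Sum.elim (fun x => ((equivShrink A).symm x).1) ψ.par)
      (Sum.elim (fun x => ((equivShrink A).symm x).1) (b j)) (fun φ =>
        ((hb j).realize _ (fun x => ((equivShrink A).symm x).2) φ).symm)
    have h4 := hinv σ (by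
      intro a ha
      have := hσ (Sum.inl (equivShrink A ⟨a, ha⟩))
      simp only [Sum.elim_inl, Equiv.symm_apply_apply] at this
      exact this) ψ hψp
    have h5 : σ ∘ ψ.par = b j := by
      funext x
      exact hσ (Sum.inr x)
    rw [h5] at h4
    exact h4
  obtain ⟨a, ha⟩ := hc ((fun j => (⟨ψ.len, ψ.form, b j⟩ : Fml L U n)) '' (Finset.range k : Set ℕ))
    ((Finset.finite_toSet _).image _) (by
      rintro _ ⟨j, _, rfl⟩
      exact h3 j)
  exact hk (Finset.range k) (Finset.card_range k) ⟨a, fun j hj => ha _ ⟨j, hj, rfl⟩⟩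

end

/-- The formula `R(0, 1, x, y) ∧ R(b, b, x, x)`. -/
def theF {U : Type 1} (e0 e1 b : U) : Fml Lw U 2 :=
  ⟨3, Rf (Sum.inr 0) (Sum.inr 1) (Sum.inl 0) (Sum.inl 1) ⊓
    Rf (Sum.inr 2) (Sum.inr 2) (Sum.inl 0) (Sum.inl 0), ![e0, e1, b]⟩

theorem holds_theF {U : Type 1} [Lw.Structure U] (e0 e1 b : U) (a : Fin 2 → U) :
    (theF e0 e1 b).Holds a ↔ RR e0 e1 (a 0) (a 1) ∧ RR b b (a 0) (a 0) := by
  unfold Fml.Holds theF
  rw [Formula.realize_inf, realize_Rf, realize_Rf]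
  exact Iff.rfl

theorem theF_mem {U : Type 1} [Lw.Structure U] (i : Wd ↪ₑ[Lw] U) (b : U) :
    theF (i (zw 1)) (i (wn 1)) b ∈ ty i := by
  refine ⟨⟨1, b, [], by simp⟩, ?_⟩
  rintro a ⟨h1, h2, _⟩
  rw [holds_theF]
  exact ⟨h2, h1⟩

theorem not_forks_theF {U : Type 1} [Lw.Structure U] {T : Lw.Theory} (hU : IsMonster T U)
    (i : Wd ↪ₑ[Lw] U) (b : U) : ¬ Forks (Set.range i) (theF (i (zw 1)) (i (wn 1)) b) := by
  refine not_forks_of_invariant (A := Set.range i) hU (ty i) ty_consistent ty_complete ?_ _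
    (theF_mem i b)
  intro σ hσ θ hθ
  exact ty_invariant σ (fun w => hσ (i w) ⟨w, rfl⟩) θ hθ

end Run7.h713
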