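import Pool.Agent.Run7.h713.Succ

/-!
A coherent interpretation of all names.
-/

set_option autoImplicit false

namespace Run7.h713

open FirstOrder FirstOrder.Language

variable {L : FirstOrder.Language.{0, 0}} {N₀ : Type} [L.Structure N₀]

omit [L.Structure N₀] in
theorem Ag.refl (D : Set (Nm L N₀)) {N : Type 1} [L.Structure N] (ν : Nm L N₀ → N) : Ag D ν ν :=
  fun _ => Iff.rfl

omit [L.Structure N₀] in
/-- The elementarity of the extended map. -/
theorem hm_insert {D : Set (Nm L N₀)} {N' : Type 1} [L.Structure N'] (ν' : Nm L N₀ → N')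
    {I : Type} (f g : I → Nm L N₀) (d x y : Nm L N₀)
    (hold : ∀ a b, Sg (insert d D) f g a b → Sg D f g a b ∨ (a = x ∧ b = y))
    (h : ∀ φ : L.Formula ({q : Nm L N₀ × Nm L N₀ // Sg D f g q.1 q.2} ⊕ Fin 1),
        φ.Realize (Sum.elim (fun q => ν' q.1.1) (fun _ => ν' x)) ↔
          φ.Realize (Sum.elim (fun q => ν' q.1.2) (fun _ => ν' y))) :
    Hm (insert d D) ν' f g := by
  classical
  have key : ∀ q : {q : Nm L N₀ × Nm L N₀ // Sg (insert d D) f g q.1 q.2},
      ∃ m : {q : Nm L N₀ × Nm L N₀ // Sg D f g q.1 q.2} ⊕ Fin 1,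
        ν' q.1.1 = Sum.elim (fun q => ν' q.1.1) (fun _ => ν' x) m ∧
        ν' q.1.2 = Sum.elim (fun q => ν' q.1.2) (fun _ => ν' y) m := by
    rintro ⟨⟨a, b⟩, hq⟩
    rcases hold a b hq with h | ⟨rfl, rfl⟩
    · exact ⟨Sum.inl ⟨(a, b), h⟩, rfl, rfl⟩
    · exact ⟨Sum.inr 0, rfl, rfl⟩
  choose m hm1 hm2 using key
  intro φ
  have h1 := h (φ.relabel m)
  rw [Formula.realize_relabel, Formula.realize_relabel] at h1
  simp only [hm1, hm2]
  exact h1

theorem exists_full [Nonempty N₀] : ∃ S : St L N₀, Coh S ∧ ∀ d, d ∈ S.D := by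
  classical
  obtain ⟨S0, hS0⟩ := exists_base (L := L) (N₀ := N₀)
  have : Nonempty {S : St L N₀ // Coh S} := ⟨⟨S0, hS0⟩⟩
  obtain ⟨⟨S, hS⟩, hmax⟩ := exists_maximal_of_nonempty_chains_bounded
    (r := fun S S' : {S : St L N₀ // Coh S} => Le S.1 S'.1) chain_ub
    (fun {a b c} h h' => Le.trans h h')
  refine ⟨S, hS, ?_⟩
  have finish : ∀ (d : Nm L N₀) (N' : Type 1) (s1 : L.Structure N') (s2 : Nonempty N')
      (ν' : Nm L N₀ → N'), Ag S.D S.ν ν' →
      Coh (⟨insert d S.D, N', s1, s2, ν'⟩ : St L N₀) → d ∈ S.D := by
    intro d N' s1 s2 ν' hag hcoh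
    have := hmax ⟨_, hcoh⟩ ⟨Set.subset_insert _ _, hag⟩
    exact this.1 (Set.mem_insert _ _)
  have claim : ∀ d, Sub S.D d → d ∈ S.D := by
    intro d hsub
    by_contra hd
    rcases d with n | ⟨I, f, p⟩ | ⟨I, f, g, a0⟩ | ⟨I, f, g, a0⟩
    · exact hd (hS.base_mem n)
    · by_cases hFS : FS (fun i => S.ν (f i)) p
      · obtain ⟨N', s1, s2, ν', hag, hQ⟩ := extend S.ν (D := S.D)
          {ψ | ∃ φ ∈ p, ψ = φ.relabel (Sum.elim f (fun _ => Nm.real I f p))} (by
          intro F hF hsubF
          choose! u hu1 hu2 using hsubF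
          obtain ⟨x, hx⟩ := hFS (u '' F) (hF.image _) (by
            rintro _ ⟨ψ, hψ, rfl⟩
            exact hu1 hψ)
          refine ⟨Function.update S.ν (Nm.real I f p) x, ?_, ?_⟩
          · intro y hy
            rw [Function.update_of_ne]
            rintro rfl
            exact hd hy
          · intro ψ hψ
            rw [hu2 hψ, Formula.realize_relabel]
            have e : (Function.update S.ν (Nm.real I f p) x ∘
                Sum.elim f (fun _ => Nm.real I f p) : I ⊕ Fin 1 → S.N) =
                Sum.elim (fun i => S.ν (f i)) (fun _ => x) := by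
              funext j
              rcases j with j | j
              · show Function.update S.ν (Nm.real I f p) x (f j) = S.ν (f j)
                rw [Function.update_of_ne]
                intro hcon
                exact hd (hcon ▸ hsub j)
              · show Function.update S.ν (Nm.real I f p) x (Nm.real I f p) = x
                rw [Function.update_self]
            rw [e]
            exact hx _ ⟨ψ, hψ, rfl⟩)
        refine hd (finish _ N' s1 s2 ν' hag (coh_insert hS _ hsub ν' hag ?_ ?_ ?_))
        · intro I' f' p' heq _ φ hφ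
          cases heq
          have h1 := hQ _ ⟨φ, hφ, rfl⟩
          rw [Formula.realize_relabel] at h1
          exact (realize_real ν' f _ φ).1 h1
        · intro I' f' g' a heq
          cases heq
        · intro I' f' g' a heq
          cases heq
      · refine hd (finish _ S.N S.str S.ne S.ν (Ag.refl _ _) (coh_insert hS _ hsub S.ν
          (Ag.refl _ _) ?_ ?_ ?_))
        · intro I' f' p' heq hFS'
          cases heq
          exact absurd hFS' hFS
        · intro I' f' g' a heq
          cases heq
        · intro I' f' g' a heq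
          cases heq
    · by_cases hs : Same S.ν f g
      · have hm := hS.hom_ok f g hsub.1 hsub.2.1 hs
        obtain ⟨N', s1, s2, ν', hag, hQ⟩ := extend_hom S.ν (Nm.fwd I f g a0) hd
          (fun q : {q : Nm L N₀ × Nm L N₀ // Sg S.D f g q.1 q.2} => q.1.1) (fun q => q.1.2)
          (fun q => (Sg.mem hS.closed hsub.1 hsub.2.1 q.2).1)
          (fun q => (Sg.mem hS.closed hsub.1 hsub.2.1 q.2).2) a0 hsub.2.2 hm
        refine hd (finish _ N' s1 s2 ν' hag (coh_insert hS _ hsub ν' hag ?_ ?_ ?_))
        · intro I' f' p' heq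
          cases heq
        · intro I' f' g' a heq _
          cases heq
          refine hm_insert ν' f g _ a0 (Nm.fwd I f g a0) ?_ hQ
          rintro a b (h | ⟨h1, h2⟩ | ⟨h1, h2⟩)
          · exact Or.inl (Or.inl h)
          · rcases h2 with h2 | h2
            · right
              rw [h1] at h2
              cases h2
              exact ⟨rfl, h1⟩
            · exact Or.inl (Or.inr (Or.inl ⟨h1, h2⟩))
          · rcases h2 with h2 | h2
            · rw [h1] at h2
              cases h2
            · exact Or.inl (Or.inr (Or.inr ⟨h1, h2⟩))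
        · intro I' f' g' a heq
          cases heq
      · refine hd (finish _ S.N S.str S.ne S.ν (Ag.refl _ _) (coh_insert hS _ hsub S.ν
          (Ag.refl _ _) ?_ ?_ ?_))
        · intro I' f' p' heq
          cases heq
        · intro I' f' g' a heq hs'
          cases heq
          exact absurd hs' hs
        · intro I' f' g' a heq
          cases heq
    · by_cases hs : Same S.ν f g
      · have hm := hS.hom_ok f g hsub.1 hsub.2.1 hs
        obtain ⟨N', s1, s2, ν', hag, hQ⟩ := extend_hom S.ν (Nm.bwd I f g a0) hd
          (fun q : {q : Nm L N₀ × Nm L N₀ // Sg S.D f g q.1 q.2} => q.1.2) (fun q => q.1.1)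
          (fun q => (Sg.mem hS.closed hsub.1 hsub.2.1 q.2).2)
          (fun q => (Sg.mem hS.closed hsub.1 hsub.2.1 q.2).1) a0 hsub.2.2 (fun φ => (hm φ).symm)
        refine hd (finish _ N' s1 s2 ν' hag (coh_insert hS _ hsub ν' hag ?_ ?_ ?_))
        · intro I' f' p' heq
          cases heq
        · intro I' f' g' a heq
          cases heq
        · intro I' f' g' a heq _
          cases heq
          refine hm_insert ν' f g _ (Nm.bwd I f g a0) a0 ?_ (fun φ => (hQ φ).symm)
          rintro a b (h | ⟨h1, h2⟩ | ⟨h1, h2⟩)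
          · exact Or.inl (Or.inl h)
          · rcases h2 with h2 | h2
            · rw [h1] at h2
              cases h2
            · exact Or.inl (Or.inr (Or.inl ⟨h1, h2⟩))
          · rcases h2 with h2 | h2
            · right
              rw [h1] at h2
              cases h2
              exact ⟨h1, rfl⟩
            · exact Or.inl (Or.inr (Or.inr ⟨h1, h2⟩))
      · refine hd (finish _ S.N S.str S.ne S.ν (Ag.refl _ _) (coh_insert hS _ hsub S.ν
          (Ag.refl _ _) ?_ ?_ ?_))
        · intro I' f' p' heq
          cases heq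
        · intro I' f' g' a heq
          cases heq
        · intro I' f' g' a heq hs'
          cases heq
          exact absurd hs' hs
  intro d
  induction d with
  | base n => exact hS.base_mem n
  | real I f p ih => exact claim _ ih
  | fwd I f g d ih1 ih2 ih3 => exact claim _ ⟨ih1, ih2, ih3⟩
  | bwd I f g d ih1 ih2 ih3 => exact claim _ ⟨ih1, ih2, ih3⟩

end Run7.h713
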