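import Pool.Agent.Run7.h713.Cells

/-!
Cells in the models of the theory of words, and the basic step of distality.
-/

set_option autoImplicit false

namespace Run7.h713

open FirstOrder FirstOrder.Language

/-- the formula for `Odd3` -/
noncomputable def OddF {α : Type} (A B C : Lw.Formula (Fin 1 ⊕ α)) : Lw.Formula α :=
  ((SubF (pull Sum.inl B) (pull Sum.inr cellF)) ⊓ ((SubF (pull Sum.inl C) (pull Sum.inr cellF)) ⊓
    (DisF (pull Sum.inr cellF) (pull Sum.inl A)) : Lw.Formula (α ⊕ Fin 4))).iExs (Fin 4)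

theorem realize_OddF {V : Type*} [Lw.Structure V] {α : Type} (A B C : Lw.Formula (Fin 1 ⊕ α))
    (v : α → V) : (OddF A B C).Realize v ↔ Odd3 (St A v) (St B v) (St C v) := by
  unfold OddF Odd3
  rw [Formula.realize_iExs]
  have e : ∀ (w : Fin 4 → V), (Sum.elim v w ∘ Sum.inl : α → V) = v := fun w => rfl
  have e' : ∀ (w : Fin 4 → V), (Sum.elim v w ∘ Sum.inr : Fin 4 → V) = w := fun w => rfl
  simp only [Formula.realize_inf, realize_SubF, realize_DisF, St_pull, e, e', St_cellF]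

section

variable {N : Type 1} [Lw.Structure N] [N ⊨ Lw.completeTheory Wd]

theorem lam_N {w w' : Fin 4 → N} {x : N} (h : x ∈ CC w) (h' : x ∈ CC w') :
    CC w ⊆ CC w' ∨ CC w' ⊆ CC w := by
  let A : Lw.Formula (Fin 1 ⊕ (Fin 4 ⊕ Fin 4)) := pull Sum.inl cellF
  let B : Lw.Formula (Fin 1 ⊕ (Fin 4 ⊕ Fin 4)) := pull Sum.inr cellF
  have hA : ∀ {V : Type} [Lw.Structure V] (v : Fin 4 ⊕ Fin 4 → V), St A v = CC (v ∘ Sum.inl) := by
    intro V _ v
    rw [St_pull, St_cellF]
  have hB : ∀ {V : Type} [Lw.Structure V] (v : Fin 4 ⊕ Fin 4 → V), St B v = CC (v ∘ Sum.inr) := by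
    intro V _ v
    rw [St_pull, St_cellF]
  have key := transfer ((DisF A B).not.imp (SubF A B ⊔ SubF B A)) (by
    intro v
    rw [Formula.realize_imp, Formula.realize_not, Formula.realize_sup, realize_DisF, realize_SubF,
      realize_SubF, hA, hB]
    intro hne
    push Not at hne
    obtain ⟨x, hx, hx'⟩ := hne
    exact (isCell_CC _).chain (isCell_CC _) hx hx') N (Sum.elim w w')
  rw [Formula.realize_imp, Formula.realize_not, Formula.realize_sup, realize_DisF, realize_SubF,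
    realize_SubF, St_pull, St_pull, St_cellF, St_cellF] at key
  exact key (fun hd => hd x h h')

/-- `χ(x; y)` defines cells -/
def CellFam {β : Type} (χ : Lw.Formula (Fin 1 ⊕ β)) : Prop :=
  ∀ b : β → Wd, (St χ b).Nonempty → IsCell (St χ b)

theorem cellFam_N {β : Type} [Finite β] {χ : Lw.Formula (Fin 1 ⊕ β)} (hχ : CellFam χ) (b : β → N)
    (hb : (St χ b).Nonempty) : ∃ w : Fin 4 → N, St χ b = CC w := by
  let A : Lw.Formula (Fin 1 ⊕ (β ⊕ Fin 4)) := pull Sum.inl χ
  let B : Lw.Formula (Fin 1 ⊕ (β ⊕ Fin 4)) := pull Sum.inr cellF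
  have key := transfer ((NonF χ).imp ((SubF A B ⊓ SubF B A).iExs (Fin 4))) (by
    intro v
    rw [Formula.realize_imp, realize_NonF, Formula.realize_iExs]
    intro hne
    obtain ⟨w, hw⟩ := exists_code (hχ v hne)
    refine ⟨w, ?_⟩
    rw [Formula.realize_inf, realize_SubF, realize_SubF, St_pull, St_pull, St_cellF]
    show St χ v ⊆ CC w ∧ CC w ⊆ St χ v
    rw [hw]
    exact ⟨subset_rfl, subset_rfl⟩) N b
  rw [Formula.realize_imp, realize_NonF, Formula.realize_iExs] at key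
  obtain ⟨w, hw⟩ := key hb
  rw [Formula.realize_inf, realize_SubF, realize_SubF, St_pull, St_pull, St_cellF] at hw
  exact ⟨w, Set.Subset.antisymm hw.1 hw.2⟩

theorem t3_N {w0 w1 w2 : Fin 4 → N} (n0 : (CC w0).Nonempty) (n1 : (CC w1).Nonempty)
    (n2 : (CC w2).Nonempty) (h01 : ∀ y, y ∈ CC w0 → y ∉ CC w1) (h02 : ∀ y, y ∈ CC w0 → y ∉ CC w2)
    (h12 : ∀ y, y ∈ CC w1 → y ∉ CC w2) :
    Odd3 (CC w0) (CC w1) (CC w2) ∨ Odd3 (CC w1) (CC w0) (CC w2) ∨
      Odd3 (CC w2) (CC w0) (CC w1) := by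
  let A : Fin 3 → Lw.Formula (Fin 1 ⊕ (Fin 3 × Fin 4)) := fun i => pull (fun t => (i, t)) cellF
  have key := transfer ((NonF (A 0)).imp ((NonF (A 1)).imp ((NonF (A 2)).imp
    ((DisF (A 0) (A 1)).imp ((DisF (A 0) (A 2)).imp ((DisF (A 1) (A 2)).imp
      (OddF (A 0) (A 1) (A 2) ⊔ (OddF (A 1) (A 0) (A 2) ⊔ OddF (A 2) (A 0) (A 1))))))))) (by
    intro v
    simp only [Formula.realize_imp, realize_NonF, realize_DisF, Formula.realize_sup, realize_OddF,
      A, St_pull, St_cellF]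
    intro a0 a1 a2 b01 b02 b12
    exact t3 (isCell_CC _) (isCell_CC _) (isCell_CC _) a0 a1 a2 b01 b02 b12) N
      (fun p => ![w0, w1, w2] p.1 p.2)
  simp only [Formula.realize_imp, realize_NonF, realize_DisF, Formula.realize_sup, realize_OddF,
      A, St_pull, St_cellF] at key
  exact key n0 n1 n2 h01 h02 h12

end

end Run7.h713
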