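import Pool.Agent.Run7.h713.Full
import Pool.Agent.Run7.h713.Defs

/-!
Existence of monster models.
-/

set_option autoImplicit false

namespace Run7.h713

open FirstOrder FirstOrder.Language

variable {L : FirstOrder.Language.{0, 0}} {N₀ : Type} [L.Structure N₀]

theorem exists_named [Nonempty N₀] : ∃ (U : Type 1) (_ : L.Structure U) (ρ : Nm L N₀ → U),
    Function.Surjective ρ ∧
    (∀ φ : L.Formula N₀, φ.Realize (fun n => ρ (Nm.base n)) ↔ φ.Realize (fun n => n)) ∧
    (∀ (I : Type) (f : I → Nm L N₀) (p : Set (L.Formula (I ⊕ Fin 1))), FS (fun i => ρ (f i)) p →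
      ∀ φ ∈ p, φ.Realize (Sum.elim (fun i => ρ (f i)) (fun _ => ρ (Nm.real I f p)))) ∧
    (∀ (I : Type) (f g : I → Nm L N₀), Same ρ f g → Hm Set.univ ρ f g) := by
  classical
  obtain ⟨S, hS, hfull⟩ := exists_full (L := L) (N₀ := N₀)
  have hD : S.D = Set.univ := Set.eq_univ_of_forall hfull
  -- the witnesses
  have wit : ∀ (n : ℕ) (a : Fin n → Nm L N₀) (φ : L.Formula (Fin n ⊕ Fin 1)) (x : S.N),
      φ.Realize (Sum.elim (fun j => S.ν (a j)) (fun _ => x)) →
        ∃ d, φ.Realize (Sum.elim (fun j => S.ν (a j)) (fun _ => S.ν d)) := by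
    intro n a φ x hx
    refine ⟨Nm.real (Fin n) a {φ}, hS.real_ok a {φ} (hfull _) ?_ φ rfl⟩
    intro F _ hsub
    refine ⟨x, fun ψ hψ => ?_⟩
    rw [hsub hψ]
    exact hx
  let V : L.Substructure S.N := ⟨Set.range S.ν, by
    intro n F x hx
    choose a ha using hx
    obtain ⟨d, hd⟩ := wit n a ((Term.func F (fun j => Term.var (Sum.inl j))).equal
      (Term.var (Sum.inr 0))) (Structure.funMap F x) (by
        rw [Formula.realize_equal]
        simp [ha])
    rw [Formula.realize_equal] at hd
    refine ⟨d, ?_⟩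
    simp only [Term.realize_func, Term.realize_var, Sum.elim_inl, Sum.elim_inr] at hd
    rw [← hd]
    congr 1
    funext j
    exact ha j⟩
  have hV : V.IsElementary := by
    refine V.isElementary_of_exists ?_
    intro n φ x a hφ
    have hx : ∀ j, ∃ b, S.ν b = (x j : S.N) := fun j => (x j).2
    choose b hb using hx
    let m : Empty ⊕ Fin (n + 1) → Fin n ⊕ Fin 1 :=
      Sum.elim Empty.elim (fun j => Fin.lastCases (Sum.inr 0) (fun i => Sum.inl i) j)
    have key : ∀ y : S.N, ((BoundedFormula.toFormula φ).relabel m).Realize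
        (Sum.elim (fun j => S.ν (b j)) (fun _ => y)) ↔
        φ.Realize default (Fin.snoc ((↑) ∘ x) y : _ → S.N) := by
      intro y
      rw [Formula.realize_relabel, BoundedFormula.realize_toFormula]
      have e1 : ((Sum.elim (fun j => S.ν (b j)) (fun _ => y) ∘ m) ∘ Sum.inl : Empty → S.N) =
          default := Subsingleton.elim _ _
      have e2 : ((Sum.elim (fun j => S.ν (b j)) (fun _ => y) ∘ m) ∘ Sum.inr : Fin (n + 1) → S.N) =
          (Fin.snoc ((↑) ∘ x) y : _ → S.N) := by
        funext j
        refine Fin.lastCases ?_ (fun i => ?_) j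
        · simp [m]
        · simp [m, hb]
      rw [e1, e2]
    obtain ⟨d, hd⟩ := wit n b _ a ((key a).2 hφ)
    exact ⟨⟨S.ν d, ⟨d, rfl⟩⟩, (key _).1 hd⟩
  let E : L.ElementarySubstructure S.N := ⟨V, hV⟩
  let ρ : Nm L N₀ → E := fun d => ⟨S.ν d, ⟨d, rfl⟩⟩
  have el : ∀ {J : Type 1} (v : J → E) (φ : L.Formula J),
      φ.Realize v ↔ φ.Realize (fun j => (v j : S.N)) := fun v φ => (E.subtype.map_formula φ v).symm
  have el0 : ∀ {J : Type} (v : J → E) (φ : L.Formula J),
      φ.Realize v ↔ φ.Realize (fun j => (v j : S.N)) := fun v φ => (E.subtype.map_formula φ v).symm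
  refine ⟨E, inferInstance, ρ, ?_, ?_, ?_, ?_⟩
  · rintro ⟨x, d, rfl⟩
    exact ⟨d, rfl⟩
  · intro φ
    rw [el0]
    exact hS.base_iff φ
  · intro I f p hFS φ hφ
    rw [el0]
    have h1 := hS.real_ok f p (hfull _) (FS.congr (v := fun i => S.ν (f i)) (fun φ => Iff.rfl) (by
      intro F hF hsub
      obtain ⟨x, hx⟩ := hFS F hF hsub
      refine ⟨x, fun ψ hψ => ?_⟩
      have := hx ψ hψ
      rw [el0] at this
      convert this using 2
      rename_i j
      rcases j with j | j <;> rfl)) φ hφ
    convert h1 using 2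
    rename_i j
    rcases j with j | j <;> rfl
  · intro I f g hs
    have hs' : Same S.ν f g := by
      intro φ
      have := hs φ
      rw [el0, el0] at this
      exact this
    have h2 := hS.hom_ok f g (fun _ => hfull _) (fun _ => hfull _) hs'
    rw [hD] at h2
    intro φ
    rw [el, el]
    exact h2 φ

/-- Every structure in `Type 0` embeds elementarily into a monster model of its theory. -/
theorem exists_monster (L : FirstOrder.Language.{0, 0}) (N₀ : Type) [L.Structure N₀]
    [Nonempty N₀] : ∃ (U : Type 1) (_ : L.Structure U),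
      IsMonster (L.completeTheory N₀) U ∧ Nonempty (N₀ ↪ₑ[L] U) := by
  classical
  obtain ⟨U, hU, ρ, hsurj, hB, hR, hH⟩ := exists_named (L := L) (N₀ := N₀)
  choose nm hnm using hsurj
  let i : N₀ ↪ₑ[L] U := ⟨fun n => ρ (Nm.base n), by
    intro n φ x
    have := hB (φ.relabel x)
    rw [Formula.realize_relabel, Formula.realize_relabel] at this
    exact this⟩
  refine ⟨U, hU, ⟨?_, ?_, ?_⟩, ⟨i⟩⟩
  · exact (i.theory_model_iff _).1 inferInstance
  · intro A hA S hSA hcons
    let f : Shrink.{0} A → Nm L N₀ := fun j => nm ((equivShrink A).symm j).1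
    let tr : (θ : Fml L U 1) → θ.Over A → L.Formula (Shrink.{0} A ⊕ Fin 1) := fun θ h =>
      θ.form.relabel (Sum.elim (fun j => Sum.inr j)
        (fun j => Sum.inl (equivShrink A ⟨θ.par j, h j⟩)))
    have key : ∀ (θ : Fml L U 1) (h : θ.Over A) (a : U),
        (tr θ h).Realize (Sum.elim (fun j => ρ (f j)) (fun _ => a)) ↔ θ.Holds (fun _ => a) := by
      intro θ h a
      show (θ.form.relabel _).Realize _ ↔ _
      rw [Formula.realize_relabel]
      unfold Fml.Holds
      have e : (Sum.elim (fun j => ρ (f j)) (fun _ => a) ∘ Sum.elim (fun j => Sum.inr j)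
          (fun j => Sum.inl (equivShrink A ⟨θ.par j, h j⟩)) : Fin 1 ⊕ Fin θ.len → U) =
          Sum.elim (fun _ => a) θ.par := by
        funext j
        rcases j with j | j
        · rfl
        · show ρ (nm ((equivShrink A).symm (equivShrink A ⟨θ.par j, h j⟩)).1) = θ.par j
          rw [Equiv.symm_apply_apply, hnm]
      rw [e]
    let p : Set (L.Formula (Shrink.{0} A ⊕ Fin 1)) := {φ | ∃ θ ∈ S, ∃ h : θ.Over A, φ = tr θ h}
    have hFS : FS (fun j => ρ (f j)) p := by
      intro F hF hsub
      have : Nonempty (Fml L U 1) := ⟨⟨0, ⊥, fun j => j.elim0⟩⟩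
      choose! u hu1 hu2 hu3 using hsub
      obtain ⟨a, ha⟩ := hcons (u '' F) (hF.image _) (by
        rintro _ ⟨φ, hφ, rfl⟩
        exact hu1 hφ)
      refine ⟨a 0, fun φ hφ => ?_⟩
      rw [hu3 hφ, key]
      have e : (fun _ => a 0 : Fin 1 → U) = a := by
        funext j
        rw [Subsingleton.elim j 0]
      rw [e]
      exact ha _ ⟨φ, hφ, rfl⟩
    refine ⟨fun _ => ρ (Nm.real _ f p), fun θ hθ => ?_⟩
    rw [← key θ (hSA θ hθ)]
    exact hR _ f p hFS _ ⟨θ, hθ, hSA θ hθ, rfl⟩
  · intro I a b hab
    let f : I → Nm L N₀ := fun j => nm (a j)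
    let g : I → Nm L N₀ := fun j => nm (b j)
    have hs : Same ρ f g := by
      intro φ
      have e1 : (fun j => ρ (f j)) = a := funext fun j => hnm (a j)
      have e2 : (fun j => ρ (g j)) = b := funext fun j => hnm (b j)
      rw [e1, e2]
      exact hab φ
    have hm := hH I f g hs
    let F : U → U := fun x => ρ (Nm.fwd I f g (nm x))
    let G : U → U := fun y => ρ (Nm.bwd I f g (nm y))
    have pf : ∀ x, Sg Set.univ f g (nm x) (Nm.fwd I f g (nm x)) :=
      fun x => Or.inr (Or.inl ⟨rfl, trivial⟩)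
    have pb : ∀ y, Sg Set.univ f g (Nm.bwd I f g (nm y)) (nm y) :=
      fun x => Or.inr (Or.inr ⟨rfl, trivial⟩)
    have eqv : ∀ c d c' d', Sg Set.univ f g c d → Sg Set.univ f g c' d' →
        (ρ c = ρ c' ↔ ρ d = ρ d') := by
      intro c d c' d' h h'
      have := hm.tuple (J := Fin 2) ![c, c'] ![d, d'] (by
        intro j
        fin_cases j
        · exact h
        · exact h') ((Term.var 0).equal (Term.var 1))
      rw [Formula.realize_equal, Formula.realize_equal] at this
      exact this
    let e : U ↪ₑ[L] U := ⟨F, by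
      intro n φ x
      have h1 := hm.tuple (fun j => nm (x j)) (fun j => Nm.fwd I f g (nm (x j)))
        (fun j => pf (x j)) φ
      have e1 : (fun j => ρ (nm (x j))) = x := funext fun j => hnm (x j)
      rw [e1] at h1
      exact h1.symm⟩
    let σ : U ≃[L] U :=
      { toFun := F
        invFun := G
        left_inv := fun x => by
          show ρ (Nm.bwd I f g (nm (F x))) = x
          have := (eqv _ _ _ _ (pf x) (pb (F x))).2 (by rw [hnm])
          rw [hnm] at this
          exact this.symm
        right_inv := fun y => by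
          show ρ (Nm.fwd I f g (nm (G y))) = y
          have := (eqv _ _ _ _ (pf (G y)) (pb y)).1 (by rw [hnm])
          rw [hnm] at this
          exact this
        map_fun' := fun h x => e.map_fun h x
        map_rel' := fun r x => e.map_rel r x }
    refine ⟨σ, fun j => ?_⟩
    show ρ (Nm.fwd I f g (nm (a j))) = b j
    have := (eqv _ _ (f j) (g j) (pf (a j)) (Or.inl ⟨j, rfl, rfl⟩)).1 rfl
    rw [this]
    exact hnm (b j)

end Run7.h713
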