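import Pool.Agent.Run7.h713.Compact

/-!
Names for the elements of a monster model, and coherent interpretations of sets of names.
-/

set_option autoImplicit false

namespace Run7.h713

open FirstOrder FirstOrder.Language

/-- Names: `base n` is an element of the given structure, `real I f p` realises the set `p` of
formulas over `f`, `fwd I f g d` is the image of `d` under an automorphism sending `f` to `g`, and
`bwd I f g d` is the preimage of `d`. -/
inductive Nm (L : FirstOrder.Language.{0, 0}) (N₀ : Type) : Type 1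
  | base (n : N₀) : Nm L N₀
  | real (I : Type) (f : I → Nm L N₀) (p : Set (L.Formula (I ⊕ Fin 1))) : Nm L N₀
  | fwd (I : Type) (f g : I → Nm L N₀) (d : Nm L N₀) : Nm L N₀
  | bwd (I : Type) (f g : I → Nm L N₀) (d : Nm L N₀) : Nm L N₀

variable {L : FirstOrder.Language.{0, 0}} {N₀ : Type}

/-- The graph, on the set `D` of names, of the automorphism sending `f` to `g`. -/
def Sg (D : Set (Nm L N₀)) {I : Type} (f g : I → Nm L N₀) (a b : Nm L N₀) : Prop :=
  (∃ i, a = f i ∧ b = g i) ∨ (b = Nm.fwd I f g a ∧ b ∈ D) ∨ (a = Nm.bwd I f g b ∧ a ∈ D)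

/-- `D` is closed under subterms. -/
structure Closed (D : Set (Nm L N₀)) : Prop where
  real_mem : ∀ {I : Type} {f : I → Nm L N₀} {p : Set (L.Formula (I ⊕ Fin 1))},
    Nm.real I f p ∈ D → ∀ i, f i ∈ D
  fwd_mem : ∀ {I : Type} {f g : I → Nm L N₀} {d : Nm L N₀},
    Nm.fwd I f g d ∈ D → (∀ i, f i ∈ D) ∧ (∀ i, g i ∈ D) ∧ d ∈ D
  bwd_mem : ∀ {I : Type} {f g : I → Nm L N₀} {d : Nm L N₀},
    Nm.bwd I f g d ∈ D → (∀ i, f i ∈ D) ∧ (∀ i, g i ∈ D) ∧ d ∈ D

/-- Two interpretations satisfy the same formulas about the names in `D`. -/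
def Ag (D : Set (Nm L N₀)) {N N' : Type 1} [L.Structure N] [L.Structure N'] (ν : Nm L N₀ → N)
    (ν' : Nm L N₀ → N') : Prop :=
  ∀ φ : L.Formula D, φ.Realize (fun x => ν x) ↔ φ.Realize (fun x => ν' x)

theorem Ag.tuple {D : Set (Nm L N₀)} {N N' : Type 1} [L.Structure N] [L.Structure N']
    {ν : Nm L N₀ → N} {ν' : Nm L N₀ → N'} (h : Ag D ν ν') {J : Type*} (a : J → Nm L N₀)
    (ha : ∀ j, a j ∈ D) (φ : L.Formula J) :
    φ.Realize (fun j => ν (a j)) ↔ φ.Realize (fun j => ν' (a j)) := by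
  have := h (φ.relabel (fun j => ⟨a j, ha j⟩))
  rw [Formula.realize_relabel, Formula.realize_relabel] at this
  exact this

theorem Ag.mono {D D' : Set (Nm L N₀)} {N N' : Type 1} [L.Structure N] [L.Structure N']
    {ν : Nm L N₀ → N} {ν' : Nm L N₀ → N'} (h : Ag D' ν ν') (hD : D ⊆ D') : Ag D ν ν' :=
  fun φ => h.tuple (fun x : D => x.1) (fun x => hD x.2) φ

theorem Ag.trans {D : Set (Nm L N₀)} {N N' N'' : Type 1} [L.Structure N] [L.Structure N']
    [L.Structure N''] {ν : Nm L N₀ → N} {ν' : Nm L N₀ → N'} {ν'' : Nm L N₀ → N''}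
    (h : Ag D ν ν') (h' : Ag D ν' ν'') : Ag D ν ν'' :=
  fun φ => (h φ).trans (h' φ)

/-- The tuples of names `f` and `g` have the same type. -/
def Same {N : Type 1} [L.Structure N] (ν : Nm L N₀ → N) {I : Type} (f g : I → Nm L N₀) : Prop :=
  ∀ φ : L.Formula I, φ.Realize (fun i => ν (f i)) ↔ φ.Realize (fun i => ν (g i))

/-- The map sending `f` to `g` and extended by the names in `D` is elementary. -/
def Hm (D : Set (Nm L N₀)) {N : Type 1} [L.Structure N] (ν : Nm L N₀ → N) {I : Type}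
    (f g : I → Nm L N₀) : Prop :=
  ∀ φ : L.Formula {q : Nm L N₀ × Nm L N₀ // Sg D f g q.1 q.2},
    φ.Realize (fun q => ν q.1.1) ↔ φ.Realize (fun q => ν q.1.2)

theorem Hm.tuple {D : Set (Nm L N₀)} {N : Type 1} [L.Structure N] {ν : Nm L N₀ → N} {I : Type}
    {f g : I → Nm L N₀} (h : Hm D ν f g) {J : Type*} (a b : J → Nm L N₀)
    (hab : ∀ j, Sg D f g (a j) (b j)) (φ : L.Formula J) :
    φ.Realize (fun j => ν (a j)) ↔ φ.Realize (fun j => ν (b j)) := by
  have := h (φ.relabel (fun j => ⟨(a j, b j), hab j⟩))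
  rw [Formula.realize_relabel, Formula.realize_relabel] at this
  exact this

/-- A set of names together with an interpretation of the names. -/
structure St (L : FirstOrder.Language.{0, 0}) (N₀ : Type) : Type 2 where
  /-- the set of names -/
  D : Set (Nm L N₀)
  /-- a structure -/
  N : Type 1
  /-- the structure -/
  str : L.Structure N
  ne : Nonempty N
  /-- the interpretation -/
  ν : Nm L N₀ → N

attribute [instance] St.str St.ne

/-- Coherent interpretations. -/
structure Coh [L.Structure N₀] (S : St L N₀) : Prop where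
  closed : Closed S.D
  base_mem : ∀ n, Nm.base n ∈ S.D
  base_iff : ∀ φ : L.Formula N₀, φ.Realize (fun n => S.ν (Nm.base n)) ↔ φ.Realize (fun n => n)
  real_ok : ∀ {I : Type} (f : I → Nm L N₀) (p : Set (L.Formula (I ⊕ Fin 1))),
    Nm.real I f p ∈ S.D → FS (fun i => S.ν (f i)) p →
      ∀ φ ∈ p, φ.Realize (Sum.elim (fun i => S.ν (f i)) (fun _ => S.ν (Nm.real I f p)))
  hom_ok : ∀ {I : Type} (f g : I → Nm L N₀), (∀ i, f i ∈ S.D) → (∀ i, g i ∈ S.D) →
    Same S.ν f g → Hm S.D S.ν f g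

/-- The order on coherent interpretations. -/
def Le (S S' : St L N₀) : Prop := S.D ⊆ S'.D ∧ Ag S.D S.ν S'.ν

theorem Le.trans {S S' S'' : St L N₀} (h : Le S S') (h' : Le S' S'') : Le S S'' :=
  ⟨h.1.trans h'.1, h.2.trans (h'.2.mono h.1)⟩

theorem Sg.mem {D : Set (Nm L N₀)} (hD : Closed D) {I : Type} {f g : I → Nm L N₀}
    (hf : ∀ i, f i ∈ D) (hg : ∀ i, g i ∈ D) {a b : Nm L N₀} (h : Sg D f g a b) :
    a ∈ D ∧ b ∈ D := by
  rcases h with ⟨i, rfl, rfl⟩ | ⟨h1, h2⟩ | ⟨h1, h2⟩
  · exact ⟨hf i, hg i⟩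
  · rw [h1] at h2
    exact ⟨(hD.fwd_mem h2).2.2, h1 ▸ h2⟩
  · rw [h1] at h2
    exact ⟨h1 ▸ h2, (hD.bwd_mem h2).2.2⟩

/-- The base state. -/
theorem exists_base [L.Structure N₀] [Nonempty N₀] : ∃ S : St L N₀, Coh S := by
  classical
  let e : N₀ ≃ ULift.{1} N₀ := Equiv.ulift.symm
  let : L.Structure (ULift.{1} N₀) := e.inducedStructure
  let g : N₀ ≃[L] ULift.{1} N₀ := e.inducedStructureEquiv
  let d0 : ULift.{1} N₀ := Classical.arbitrary _
  let ν : Nm L N₀ → ULift.{1} N₀ := fun x => match x with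
    | Nm.base n => g n
    | _ => d0
  have hbase : ∀ {x : Nm L N₀}, x ∈ Set.range (Nm.base (L := L) (N₀ := N₀)) →
      ∃ n, x = Nm.base n := by
    rintro _ ⟨n, rfl⟩
    exact ⟨n, rfl⟩
  refine ⟨⟨Set.range Nm.base, ULift.{1} N₀, inferInstance, inferInstance, ν⟩, ?_, ?_, ?_, ?_, ?_⟩
  · refine ⟨?_, ?_, ?_⟩
    · intro I f p h
      obtain ⟨n, hn⟩ := hbase h
      cases hn
    · intro I f g d h
      obtain ⟨n, hn⟩ := hbase h
      cases hn
    · intro I f g d h
      obtain ⟨n, hn⟩ := hbase h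
      cases hn
  · intro n
    exact ⟨n, rfl⟩
  · intro φ
    exact StrongHomClass.realize_formula g φ (v := fun n => n)
  · intro I f p h
    obtain ⟨n, hn⟩ := hbase h
    cases hn
  · intro I f g hf hg hs φ
    have key : ∀ q : {q : Nm L N₀ × Nm L N₀ // Sg (Set.range Nm.base) f g q.1 q.2},
        ∃ i, q.1.1 = f i ∧ q.1.2 = g i := by
      rintro ⟨⟨a, b⟩, h⟩
      rcases h with h | ⟨h1, h2⟩ | ⟨h1, h2⟩
      · exact h
      · obtain ⟨n, hn⟩ := hbase h2
        simp only at h1 hn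
        rw [h1] at hn
        cases hn
      · obtain ⟨n, hn⟩ := hbase h2
        simp only at h1 hn
        rw [h1] at hn
        cases hn
    choose t ht1 ht2 using key
    have := hs (φ.relabel t)
    rw [Formula.realize_relabel, Formula.realize_relabel] at this
    simp only [ht1, ht2]
    exact this

end Run7.h713
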