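import Pool.Agent.Run7.h713.Transfer

/-!
An invariant global type which contains the formula.
-/

set_option autoImplicit false

namespace Run7.h713

open FirstOrder FirstOrder.Language

section

variable {U : Type 1} [Lw.Structure U]

/-- the length of `x` is at least every standard number -/
def Big (i : Wd ↪ₑ[Lw] U) (x : U) : Prop := ∀ N : ℕ, RR (i (zw N)) (i (zw N)) x x

/-- The basic sets: long pairs whose sum begins with `10...0` and avoids finitely many
nonstandard nodes. -/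
structure Box (i : Wd ↪ₑ[Lw] U) where
  n : ℕ
  e : U
  W : List (U × U)
  hW : ∀ q ∈ W, Big i q.1

variable {i : Wd ↪ₑ[Lw] U}

/-- the members of a basic set -/
def Box.Mem (B : Box i) (a : Fin 2 → U) : Prop :=
  RR B.e B.e (a 0) (a 0) ∧ RR (i (zw B.n)) (i (wn B.n)) (a 0) (a 1) ∧
    ∀ q ∈ B.W, ¬ RR q.1 q.2 (a 0) (a 1)

theorem Box.nonempty (B : Box i) : ∃ a, B.Mem a := by
  obtain ⟨x, y, h1, h2, h3⟩ := tr_avoid i B.n B.W.length B.e (fun j => (B.W.get j).1)
    (fun j => (B.W.get j).2) (fun j => B.hW _ (List.get_mem _ _) _)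
  refine ⟨![x, y], h1, h2, fun q hq => ?_⟩
  obtain ⟨j, hj⟩ := List.mem_iff_get.1 hq
  rw [← hj]
  exact h3 j

theorem Box.inter (B B' : Box i) : ∃ B'' : Box i, ∀ a, B''.Mem a → B.Mem a ∧ B'.Mem a := by
  have key : ∃ e'' : U, RR B.e B.e e'' e'' ∧ RR B'.e B'.e e'' e'' := by
    rcases tr_total i B.e B'.e with h | h
    · refine ⟨B'.e, h, ?_⟩
      rcases tr_total i B'.e B'.e with h' | h' <;> exact h'
    · refine ⟨B.e, ?_, h⟩
      rcases tr_total i B.e B.e with h' | h' <;> exact h'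
  obtain ⟨e'', h1, h2⟩ := key
  refine ⟨⟨max B.n B'.n, e'', B.W ++ B'.W, ?_⟩, ?_⟩
  · intro q hq
    rw [List.mem_append] at hq
    rcases hq with h | h
    · exact B.hW q h
    · exact B'.hW q h
  · rintro a ⟨k1, k2, k3⟩
    refine ⟨⟨tr_trans i h1 k1, tr_mono i (le_max_left _ _) k2, fun q hq => k3 q ?_⟩,
      ⟨tr_trans i h2 k1, tr_mono i (le_max_right _ _) k2, fun q hq => k3 q ?_⟩⟩
    · exact List.mem_append_left _ hq
    · exact List.mem_append_right _ hq

/-- the invariant type -/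
def ty (i : Wd ↪ₑ[Lw] U) : Set (Fml Lw U 2) := {θ | ∃ B : Box i, ∀ a, B.Mem a → θ.Holds a}

theorem ty_finite (F : Set (Fml Lw U 2)) (hF : F.Finite) (h : F ⊆ ty i) :
    ∃ B : Box i, ∀ a, B.Mem a → ∀ θ ∈ F, θ.Holds a := by
  induction F, hF using Set.Finite.induction_on with
  | empty => exact ⟨⟨0, i (zw 0), [], by simp⟩, by simp⟩
  | insert _ _ ih =>
    obtain ⟨B, hB⟩ := ih ((Set.subset_insert _ _).trans h)
    obtain ⟨B', hB'⟩ := h (Set.mem_insert _ _)
    obtain ⟨B'', hB''⟩ := B.inter B'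
    refine ⟨B'', fun a ha θ hθ => ?_⟩
    rcases Set.mem_insert_iff.1 hθ with rfl | hθ
    · exact hB' a (hB'' a ha).2
    · exact hB a (hB'' a ha).1 θ hθ

theorem ty_consistent : Consistent (ty i) := by
  intro F hF hsub
  obtain ⟨B, hB⟩ := ty_finite F hF hsub
  obtain ⟨a, ha⟩ := B.nonempty
  exact ⟨a, hB a ha⟩

omit [Lw.Structure U] in
theorem pair_eta (a : Fin 2 → U) : ![a 0, a 1] = a := by
  funext j
  fin_cases j <;> rfl

theorem ty_complete (θ : Fml Lw U 2) : θ ∈ ty i ∨ θ.neg ∈ ty i := by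
  classical
  obtain ⟨C, hC⟩ := tr_sep2 i θ.form
  obtain ⟨e, u, u', hu⟩ := hC θ.par
  have h1 : ∀ j : Fin C, ∃ N : ℕ, ¬ Big i (u j) → RR (u j) (u j) (i (zw N)) (i (zw N)) := by
    intro j
    by_cases hj : Big i (u j)
    · exact ⟨0, fun h => absurd hj h⟩
    · unfold Big at hj
      push Not at hj
      obtain ⟨N, hN⟩ := hj
      refine ⟨N, fun _ => ?_⟩
      rcases tr_total i (i (zw N)) (u j) with h | h
      · exact absurd h hN
      · exact h
  choose N hN using h1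
  set n := 1 + ∑ j, N j with hn
  have hNn : ∀ j, N j ≤ n := fun j => by
    have := Finset.single_le_sum (f := N) (fun _ _ => Nat.zero_le _) (Finset.mem_univ j)
    omega
  let B : Box i := ⟨n, e, (List.ofFn (fun j => (u j, u' j))).filter (fun q => Big i q.1), by
    intro q hq
    rw [List.mem_filter] at hq
    simpa using hq.2⟩
  have hB : ∀ a a', B.Mem a → B.Mem a' → (θ.Holds a ↔ θ.Holds a') := by
    rintro a a' ⟨k1, k2, k3⟩ ⟨l1, l2, l3⟩
    unfold Fml.Holds
    rw [← pair_eta a, ← pair_eta a']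
    have hn1 : 1 ≤ n := by omega
    refine hu _ _ _ _ k1 l1 (tr_mono i hn1 k2) (tr_mono i hn1 l2) ?_
    intro j
    by_cases hj : Big i (u j)
    · have hmem : (u j, u' j) ∈ B.W := by
        show (u j, u' j) ∈ (List.ofFn (fun j => (u j, u' j))).filter (fun q => Big i q.1)
        rw [List.mem_filter]
        refine ⟨?_, by simpa using hj⟩
        rw [List.mem_ofFn]
        exact ⟨j, rfl⟩
      exact iff_of_false (k3 _ hmem) (l3 _ hmem)
    · have h5 : RR (u j) (u j) (i (zw n)) (i (zw n)) :=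
        tr_trans i (hN j hj) ((tr_rr i _ _ _ _).2 ((xr_lev _ _).2 (hNn j)))
      exact tr_short i h5 k2 l2
  obtain ⟨a0, ha0⟩ := B.nonempty
  by_cases h : θ.Holds a0
  · left
    exact ⟨B, fun a ha => (hB a0 a ha0 ha).1 h⟩
  · right
    refine ⟨B, fun a ha => ?_⟩
    show (θ.form.not).Realize (Sum.elim a θ.par)
    rw [Formula.realize_not]
    exact fun hcon => h ((hB a0 a ha0 ha).2 hcon)

theorem ty_invariant (σ : U ≃[Lw] U) (hσ : ∀ w, σ (i w) = i w) (θ : Fml Lw U 2) (hθ : θ ∈ ty i) :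
    (⟨θ.len, θ.form, σ ∘ θ.par⟩ : Fml Lw U 2) ∈ ty i := by
  obtain ⟨B, hB⟩ := hθ
  have hRR : ∀ a b c d : U, RR (σ a) (σ b) (σ c) (σ d) ↔ RR a b c d := by
    intro a b c d
    have := σ.map_rel rs ![a, b, c, d]
    unfold RR
    rw [← this]
    have e : ((⇑σ) ∘ ![a, b, c, d] : Fin 4 → U) = ![σ a, σ b, σ c, σ d] := by
      funext j
      fin_cases j <;> rfl
    show _ ↔ Structure.RelMap rs ((⇑σ) ∘ ![a, b, c, d])
    rw [e]
  refine ⟨⟨B.n, σ B.e, B.W.map (fun q => (σ q.1, σ q.2)), ?_⟩, ?_⟩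
  · intro q hq
    rw [List.mem_map] at hq
    obtain ⟨q', hq', rfl⟩ := hq
    intro N
    have := (hRR _ _ _ _).2 (B.hW q' hq' N)
    rw [hσ] at this
    exact this
  · rintro a ⟨k1, k2, k3⟩
    have hback : ∀ x : U, ∃ y, σ y = x := fun x => ⟨σ.symm x, σ.apply_symm_apply x⟩
    obtain ⟨a0, h0⟩ := hback (a 0)
    obtain ⟨a1, h1⟩ := hback (a 1)
    have ha : a = σ ∘ ![a0, a1] := by
      funext j
      fin_cases j
      · exact h0.symm
      · exact h1.symm
    have hmem : B.Mem ![a0, a1] := by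
      refine ⟨?_, ?_, ?_⟩
      · have k1' : RR (σ B.e) (σ B.e) (a 0) (a 0) := k1
        rw [← h0, hRR] at k1'
        exact k1'
      · have k2' : RR (i (zw B.n)) (i (wn B.n)) (a 0) (a 1) := k2
        rw [← h0, ← h1, ← hσ (zw B.n), ← hσ (wn B.n), hRR] at k2'
        exact k2'
      · intro q hq hcon
        refine k3 (σ q.1, σ q.2) (List.mem_map.2 ⟨q, hq, rfl⟩) ?_
        show RR (σ q.1) (σ q.2) (a 0) (a 1)
        rw [← h0, ← h1, hRR]
        exact hcon
    have := hB _ hmem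
    unfold Fml.Holds at this ⊢
    have e : (Sum.elim a (σ ∘ θ.par) : Fin 2 ⊕ Fin θ.len → U) = σ ∘ (Sum.elim ![a0, a1] θ.par) := by
      rw [ha]
      funext x
      rcases x with x | x <;> rfl
    show θ.form.Realize (Sum.elim a (σ ∘ θ.par))
    rw [e]
    exact (StrongHomClass.realize_formula σ θ.form).2 this

end

end Run7.h713
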