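import Pool.Agent.Run7.h713.EF

/-!
Formulas in one variable define, in the structure of words, Boolean combinations of boundedly many
members of a laminar family of sets.
-/

set_option autoImplicit false

namespace Run7.h713

open FirstOrder FirstOrder.Language

theorem thr_min {K l a a' : ℕ} (h1 : ∀ k ≤ K, (l + k ≤ a ↔ l + k ≤ a'))
    (h2 : ∀ k ≤ K, (l - k ≤ a ↔ l - k ≤ a')) :
    min (a - l) K = min (a' - l) K ∧ min (l - a) K = min (l - a') K := by
  constructor
  · rcases lt_trichotomy (min (a - l) K) (min (a' - l) K) with h | h | h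
    · have := h1 (min (a - l) K + 1) (by omega)
      omega
    · exact h
    · have := h1 (min (a' - l) K + 1) (by omega)
      omega
  · rcases lt_trichotomy (min (l - a) K) (min (l - a') K) with h | h | h
    · have := h2 (min (l - a) K) (by omega)
      omega
    · exact h
    · have := h2 (min (l - a') K) (by omega)
      omega

/-- Comparison of two digit sequences which are not separated by the balls around centres
supported on `Λ` whose radius is close to `Λ`. -/
theorem thr {Λ : Finset ℕ} {K B : ℕ} (hK : 1 ≤ K) (z z' : ℕ → Bool)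
    (h : ∀ s : ℕ → Bool, (∀ i, s i = true → i ∈ Λ) → ∀ δ ≤ B,
      (δ = B ∨ ∃ l ∈ Λ, ∃ k ≤ K, δ = l + k ∨ δ = l - k) →
        ((∀ i < δ, z i = s i) ↔ ∀ i < δ, z' i = s i)) :
    ((∀ i < B, z i = true → i ∈ Λ) ∧ ∀ i < B, z i = z' i) ∨
    ∃ α α', α < B ∧ α' < B ∧ α ∉ Λ ∧ α' ∉ Λ ∧ z α = true ∧ z' α' = true ∧
      (∀ i < α, z i = true → i ∈ Λ) ∧ (∀ i < α', z' i = true → i ∈ Λ) ∧
      ∀ l ∈ Λ, (l < α ↔ l < α') ∧ (l < α → z l = z' l) ∧
        min (α - l) K = min (α' - l) K ∧ min (l - α) K = min (l - α') K := by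
  classical
  by_cases hz : ∀ i < B, z i = true → i ∈ Λ
  · left
    refine ⟨hz, ?_⟩
    have := (h (fun i => z i && decide (i < B)) (by
      intro i hi
      simp only [Bool.and_eq_true, decide_eq_true_eq] at hi
      exact hz i hi.2 hi.1) B le_rfl (Or.inl rfl)).1 (by
      intro i hi
      simp [hi])
    intro i hi
    rw [this i hi]
    simp [hi]
  · right
    push Not at hz
    have hex : ∃ i, i < B ∧ z i = true ∧ i ∉ Λ := by
      obtain ⟨i, h1, h2, h3⟩ := hz
      exact ⟨i, h1, h2, h3⟩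
    set α := Nat.find hex with hα
    obtain ⟨hα1, hα2, hα3⟩ := Nat.find_spec hex
    rw [← hα] at hα1 hα2 hα3
    have hα4 : ∀ i < α, z i = true → i ∈ Λ := by
      intro i hi hzi
      by_contra hcon
      exact Nat.find_min hex hi ⟨by omega, hzi, hcon⟩
    set s : ℕ → Bool := fun i => z i && decide (i < α) with hs
    have hsΛ : ∀ i, s i = true → i ∈ Λ := by
      intro i hi
      simp only [hs, Bool.and_eq_true, decide_eq_true_eq] at hi
      exact hα4 i hi.2 hi.1
    have hzs : ∀ δ, ((∀ i < δ, z i = s i) ↔ δ ≤ α) := by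
      intro δ
      constructor
      · intro hh
        by_contra hcon
        have := hh α (by omega)
        rw [hα2] at this
        simp [hs] at this
      · intro hh i hi
        have : i < α := by omega
        simp [hs, this]
    have hex' : ∃ i, i < B ∧ z' i ≠ s i := by
      by_contra hcon
      push Not at hcon
      have := (h s hsΛ B le_rfl (Or.inl rfl)).2 hcon
      rw [hzs] at this
      omega
    set α' := Nat.find hex' with hα'
    obtain ⟨hα'1, hα'2⟩ := Nat.find_spec hex'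
    rw [← hα'] at hα'1 hα'2
    have hα'3 : ∀ i < α', z' i = s i := by
      intro i hi
      by_contra hcon
      exact Nat.find_min hex' hi ⟨by omega, hcon⟩
    have hzs' : ∀ δ, ((∀ i < δ, z' i = s i) ↔ δ ≤ α') := by
      intro δ
      constructor
      · intro hh
        by_contra hcon
        exact hα'2 (hh α' (by omega))
      · intro hh i hi
        exact hα'3 i (by omega)
    have hthr : ∀ δ, (∃ l ∈ Λ, ∃ k ≤ K, δ = l + k ∨ δ = l - k) → (δ ≤ α ↔ δ ≤ α') := by
      intro δ hδ
      by_cases hB : δ ≤ B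
      · rw [← hzs, ← hzs']
        exact h s hsΛ δ hB (Or.inr hδ)
      · constructor <;> intro <;> omega
    have hlt : ∀ l ∈ Λ, (l < α ↔ l < α') := by
      intro l hl
      have := hthr (l + 1) ⟨l, hl, 1, hK, Or.inl rfl⟩
      omega
    have hα'Λ : α' ∉ Λ := by
      intro hcon
      have h1 := hthr α' ⟨α', hcon, 0, by omega, Or.inl rfl⟩
      have h2 := hlt α' hcon
      have : α = α' := by omega
      rw [this] at hα3
      exact hα3 hcon
    have hsα' : s α' = false := by
      by_contra hcon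
      simp only [Bool.not_eq_false] at hcon
      exact hα'Λ (hsΛ _ hcon)
    have hz'α' : z' α' = true := by
      rw [hsα'] at hα'2
      simpa using hα'2
    refine ⟨α, α', hα1, hα'1, hα3, hα'Λ, hα2, hz'α', hα4, ?_, ?_⟩
    · intro i hi hzi
      rw [hα'3 i hi] at hzi
      exact hsΛ i hzi
    · intro l hl
      refine ⟨hlt l hl, ?_, ?_⟩
      · intro hla
        rw [hα'3 l ((hlt l hl).1 hla)]
        simp [hs, hla]
      · exact thr_min (fun k hk => hthr _ ⟨l, hl, k, hk, Or.inl rfl⟩)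
          (fun k hk => hthr _ ⟨l, hl, k, hk, Or.inr rfl⟩)

/-- The zero word. -/
def zw (n : ℕ) : Wd := ⟨n, fun _ => false, fun _ _ => rfl⟩

/-- The word of length `n` with the digits `s`. -/
def cw (n : ℕ) (s : ℕ → Bool) : Wd := ⟨n, fun i => s i && decide (i < n), fun i hi => by
  have : ¬ i < n := by omega
  simp [this]⟩

theorem cw_dig {n : ℕ} {s : ℕ → Bool} {i : ℕ} (hi : i < n) : (cw n s).dig i = s i := by
  simp [cw, hi]

/-- The words of length at least `δ`. -/
def lev (δ : ℕ) : Set Wd := {x | XR (zw δ) (zw δ) x x}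

/-- The words of length `γ` which agree with `s` below `δ`. -/
def ball (γ δ : ℕ) (s : ℕ → Bool) : Set Wd := {x | XR (zw δ) (zw δ) x (cw γ s)}

theorem mem_lev {δ : ℕ} {x : Wd} : x ∈ lev δ ↔ δ ≤ x.len := by
  constructor
  · intro h
    exact h.2.2.1
  · intro h
    exact ⟨rfl, rfl, h, fun i _ => by simp⟩

theorem mem_ball {γ δ : ℕ} {s : ℕ → Bool} {x : Wd} :
    x ∈ ball γ δ s ↔ x.len = γ ∧ δ ≤ γ ∧ ∀ i < δ, x.dig i = s i := by
  constructor
  · rintro ⟨_, h2, h3, h4⟩
    have h2' : x.len = γ := h2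
    have h3' : δ ≤ x.len := h3
    refine ⟨h2', by omega, fun i hi => ?_⟩
    have h5 := h4 i hi
    rw [cw_dig (by omega)] at h5
    simp only [zw] at h5
    revert h5
    cases x.dig i <;> cases s i <;> simp
  · rintro ⟨h1, h2, h3⟩
    refine ⟨rfl, h1, ?_, fun i hi => ?_⟩
    · show δ ≤ x.len
      omega
    · have hi' : i < δ := hi
      rw [cw_dig (by omega), h3 i hi']
      simp [zw]

/-- The members of the laminar family. -/
def IsCell (D : Set Wd) : Prop :=
  (∃ u : Wd, D = {x | XR u u x x}) ∨ ∃ u x₀ : Wd, D = {x | XR u u x x₀}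

theorem isCell_lev (δ : ℕ) : IsCell (lev δ) := Or.inl ⟨_, rfl⟩
theorem isCell_ball (γ δ : ℕ) (s : ℕ → Bool) : IsCell (ball γ δ s) := Or.inr ⟨_, _, rfl⟩

theorem xr_aut (g : Wd ≃[Lw] Wd) (a b c d : Wd) : XR (g a) (g b) (g c) (g d) ↔ XR a b c d := by
  have := g.map_rel rs ![a, b, c, d]
  exact this

theorem IsCell.preimage {D : Set Wd} (h : IsCell D) (g : Wd ≃[Lw] Wd) : IsCell (g ⁻¹' D) := by
  rcases h with ⟨u, rfl⟩ | ⟨u, x₀, rfl⟩
  · left
    refine ⟨g.symm u, ?_⟩
    ext x
    simp only [Set.mem_preimage, Set.mem_ofPred_eq]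
    rw [← xr_aut g (g.symm u) (g.symm u) x x]
    simp
  · right
    refine ⟨g.symm u, g.symm x₀, ?_⟩
    ext x
    simp only [Set.mem_preimage, Set.mem_ofPred_eq]
    rw [← xr_aut g (g.symm u) (g.symm u) x (g.symm x₀)]
    simp

theorem xr_lev (u x : Wd) : XR u u x x ↔ u.len ≤ x.len :=
  ⟨fun h => h.2.2.1, fun h => ⟨rfl, rfl, h, fun i _ => by simp⟩⟩

theorem xr_ball (u x x₀ : Wd) :
    XR u u x x₀ ↔ x.len = x₀.len ∧ u.len ≤ x.len ∧ ∀ i < u.len, x.dig i = x₀.dig i := by
  constructor
  · rintro ⟨_, h2, h3, h4⟩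
    refine ⟨h2, h3, fun i hi => ?_⟩
    have h5 := h4 i hi
    revert h5
    cases u.dig i <;> cases x.dig i <;> cases x₀.dig i <;> simp
  · rintro ⟨h1, h2, h3⟩
    refine ⟨rfl, h1, h2, fun i hi => ?_⟩
    rw [h3 i hi]
    simp

/-- The cells containing a given word form a chain. -/
theorem IsCell.chain {D D' : Set Wd} (h : IsCell D) (h' : IsCell D') {x : Wd} (hx : x ∈ D)
    (hx' : x ∈ D') : D ⊆ D' ∨ D' ⊆ D := by
  rcases h with ⟨u, rfl⟩ | ⟨u, x₀, rfl⟩ <;> rcases h' with ⟨u', rfl⟩ | ⟨u', x₀', rfl⟩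
  · rcases le_total u.len u'.len with h1 | h1
    · right
      intro y hy
      simp only [Set.mem_ofPred_eq, xr_lev] at hy ⊢
      omega
    · left
      intro y hy
      simp only [Set.mem_ofPred_eq, xr_lev] at hy ⊢
      omega
  · right
    intro y hy
    simp only [Set.mem_ofPred_eq, xr_lev, xr_ball] at hx hx' hy ⊢
    omega
  · left
    intro y hy
    simp only [Set.mem_ofPred_eq, xr_lev, xr_ball] at hx hx' hy ⊢
    omega
  · simp only [Set.mem_ofPred_eq, xr_ball] at hx hx'
    rcases le_total u.len u'.len with h1 | h1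
    · right
      intro y hy
      simp only [Set.mem_ofPred_eq, xr_ball] at hy ⊢
      refine ⟨by omega, by omega, fun i hi => ?_⟩
      rw [hy.2.2 i (by omega), ← hx'.2.2 i (by omega), hx.2.2 i hi]
    · left
      intro y hy
      simp only [Set.mem_ofPred_eq, xr_ball] at hy ⊢
      refine ⟨by omega, by omega, fun i hi => ?_⟩
      rw [hy.2.2 i (by omega), ← hx.2.2 i (by omega), hx'.2.2 i hi]

/-- The numbers close to `Λ`. -/
def near (Λ : Finset ℕ) (K : ℕ) : Finset ℕ :=
  (Λ ×ˢ Finset.range (K + 1)).image (fun q => q.1 + q.2) ∪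
    (Λ ×ˢ Finset.range (K + 1)).image (fun q => q.1 - q.2)

theorem mem_near {Λ : Finset ℕ} {K δ : ℕ} :
    δ ∈ near Λ K ↔ ∃ l ∈ Λ, ∃ k ≤ K, δ = l + k ∨ δ = l - k := by
  unfold near
  simp only [Finset.mem_union, Finset.mem_image, Finset.mem_product, Finset.mem_range, Prod.exists]
  constructor
  · rintro (⟨l, k, ⟨h1, h2⟩, h3⟩ | ⟨l, k, ⟨h1, h2⟩, h3⟩)
    · exact ⟨l, h1, k, by omega, Or.inl h3.symm⟩
    · exact ⟨l, h1, k, by omega, Or.inr h3.symm⟩
  · rintro ⟨l, h1, k, h2, h3 | h3⟩
    · exact Or.inl ⟨l, k, ⟨h1, by omega⟩, h3.symm⟩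
    · exact Or.inr ⟨l, k, ⟨h1, by omega⟩, h3.symm⟩

theorem card_near (Λ : Finset ℕ) (K : ℕ) : (near Λ K).card ≤ 2 * (Λ.card * (K + 1)) := by
  unfold near
  refine (Finset.card_union_le _ _).trans ?_
  have h1 := Finset.card_image_le (s := Λ ×ˢ Finset.range (K + 1)) (f := fun q => q.1 + q.2)
  have h2 := Finset.card_image_le (s := Λ ×ˢ Finset.range (K + 1)) (f := fun q => q.1 - q.2)
  rw [Finset.card_product, Finset.card_range] at h1 h2
  omega

open Classical in
/-- The cells used for a tuple supported on `Λ`. -/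
noncomputable def fam (Λ : Finset ℕ) (K : ℕ) : Finset (Set Wd) :=
  (near Λ K).image lev ∪
    (Λ ×ˢ (near Λ K) ×ˢ Λ.powerset).image (fun q => ball q.1 q.2.1 (fun i => decide (i ∈ q.2.2)))

/-- The bound for the number of cells. -/
def famBound (N K : ℕ) : ℕ := 2 * (N * (K + 1)) + N * (2 * (N * (K + 1)) * 2 ^ N)

theorem card_fam (Λ : Finset ℕ) (K N : ℕ) (h : Λ.card ≤ N) : (fam Λ K).card ≤ famBound N K := by
  classical
  have h1 : (near Λ K).card ≤ 2 * (N * (K + 1)) :=
    (card_near Λ K).trans (by gcongr)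
  unfold fam famBound
  refine (Finset.card_union_le _ _).trans ?_
  refine Nat.add_le_add (Finset.card_image_le.trans h1) (Finset.card_image_le.trans ?_)
  rw [Finset.card_product, Finset.card_product, Finset.card_powerset]
  gcongr
  norm_num

theorem isCell_fam {Λ : Finset ℕ} {K : ℕ} {D : Set Wd} (h : D ∈ fam Λ K) : IsCell D := by
  classical
  unfold fam at h
  rw [Finset.mem_union, Finset.mem_image, Finset.mem_image] at h
  rcases h with ⟨δ, _, rfl⟩ | ⟨q, _, rfl⟩
  · exact isCell_lev _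
  · exact isCell_ball _ _ _

theorem lev_mem_fam {Λ : Finset ℕ} {K δ : ℕ} (h : δ ∈ near Λ K) : lev δ ∈ fam Λ K := by
  classical
  unfold fam
  exact Finset.mem_union_left _ (Finset.mem_image_of_mem _ h)

theorem ball_mem_fam {Λ : Finset ℕ} {K γ δ : ℕ} (hγ : γ ∈ Λ) (h : δ ∈ near Λ K) (s : ℕ → Bool)
    (hs : ∀ i, s i = true → i ∈ Λ) : ball γ δ s ∈ fam Λ K := by
  classical
  unfold fam
  refine Finset.mem_union_right _ (Finset.mem_image.2 ⟨(γ, δ, Λ.filter (fun i => s i = true)),
    ?_, ?_⟩)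
  · simp only [Finset.mem_product, Finset.mem_powerset]
    exact ⟨hγ, h, Finset.filter_subset _ _⟩
  · have : (fun i => decide (i ∈ Λ.filter (fun i => s i = true))) = s := by
      funext i
      by_cases hi : s i = true
      · simp [hi, hs i hi]
      · simp only [Bool.not_eq_true] at hi
        simp [hi]
    show ball γ δ (fun i => decide (i ∈ Λ.filter (fun i => s i = true))) = _
    rw [this]

/-- the diagonal correspondence together with some more pairs -/
theorem good_insert {K : ℕ} {Q : Finset (ℕ × ℕ)} (hQ : Good K Q) (a a' : ℕ)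
    (h : ∀ q ∈ Q, min (a - q.1) K = min (a' - q.2) K ∧ min (q.1 - a) K = min (q.2 - a') K) :
    Good K (insert (a, a') Q) := by
  refine ⟨Finset.mem_insert_of_mem hQ.1, fun p hp q hq => ?_⟩
  rw [Finset.mem_insert] at hp hq
  rcases hp with rfl | hp <;> rcases hq with rfl | hq
  · simp
  · exact (h q hq).2
  · exact (h p hp).1
  · exact hQ.2 p hp q hq

/-- the diagonal of `Λ` -/
def dg (Λ : Finset ℕ) : Finset (ℕ × ℕ) := Λ.image (fun i => (i, i))

theorem mem_dg {Λ : Finset ℕ} {p : ℕ × ℕ} : p ∈ dg Λ ↔ p.1 ∈ Λ ∧ p.1 = p.2 := by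
  unfold dg
  rw [Finset.mem_image]
  constructor
  · rintro ⟨i, hi, rfl⟩
    exact ⟨hi, rfl⟩
  · rintro ⟨h1, h2⟩
    exact ⟨p.1, h1, Prod.ext rfl h2⟩

theorem good_dg {K : ℕ} {Λ : Finset ℕ} (h0 : 0 ∈ Λ) : Good K (dg Λ) := by
  refine ⟨mem_dg.2 ⟨h0, rfl⟩, fun p hp q hq => ?_⟩
  rw [mem_dg] at hp hq
  rw [hp.2, hq.2]

theorem mat_dg {Λ : Finset ℕ} {x : Wd} (h1 : x.len ∈ Λ) (h2 : SuppOn (· ∈ Λ) x) :
    Mat (dg Λ) x x := by
  refine ⟨mem_dg.2 ⟨h1, rfl⟩, fun p hp => ?_, fun i hi => ?_, fun i hi => ?_⟩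
  · rw [(mem_dg.1 hp).2]
  · exact ⟨(i, i), mem_dg.2 ⟨h2 i hi, rfl⟩, rfl⟩
  · exact ⟨(i, i), mem_dg.2 ⟨h2 i hi, rfl⟩, rfl⟩

/-- Not separated words satisfy the same formulas over a normalised tuple. -/
theorem sep_norm {m : ℕ} (φ : Lw.Formula (Fin 1 ⊕ Fin m)) (Λ : Finset ℕ) (h0 : 0 ∈ Λ)
    (c : Fin m → Wd) (hc : ∀ i, (c i).len ∈ Λ ∧ SuppOn (· ∈ Λ) (c i)) (x x' : Wd)
    (hsep : ∀ D ∈ fam Λ (rk φ), (x ∈ D ↔ x' ∈ D)) :
    φ.Realize (Sum.elim (fun _ => x) c) ↔ φ.Realize (Sum.elim (fun _ => x') c) := by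
  classical
  set K := rk φ with hKdef
  have hK : 1 ≤ K := one_le_rk φ
  have hlev : ∀ δ, (∃ l ∈ Λ, ∃ k ≤ K, δ = l + k ∨ δ = l - k) → (δ ≤ x.len ↔ δ ≤ x'.len) := by
    intro δ hδ
    have := hsep (lev δ) (lev_mem_fam (mem_near.2 hδ))
    rwa [mem_lev, mem_lev] at this
  have hlen : ∀ l ∈ Λ, (x.len = l ↔ x'.len = l) := by
    intro l hl
    have h1 := hlev l ⟨l, hl, 0, by omega, Or.inl rfl⟩
    have h2 := hlev (l + 1) ⟨l, hl, 1, hK, Or.inl rfl⟩
    omega
  -- the conclusion from automorphisms and a correspondence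
  have fin : ∀ (P : Finset (ℕ × ℕ)) (g g' : Wd ≃[Lw] Wd), Good K P → dg Λ ⊆ P →
      (∀ i, g (c i) = c i) → (∀ i, g' (c i) = c i) → Mat P (g x) (g' x') →
      (φ.Realize (Sum.elim (fun _ => x) c) ↔ φ.Realize (Sum.elim (fun _ => x') c)) := by
    intro P g g' hG hsub hg hg' hm
    have e1 := realize_aut g φ (Sum.elim (fun _ => x) c)
    have e2 := realize_aut g' φ (Sum.elim (fun _ => x') c)
    rw [← e1, ← e2]
    refine ef_formula φ P hG _ _ ?_
    rintro (a | a)
    · exact hm
    · show Mat P (g (c a)) (g' (c a))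
      rw [hg, hg']
      exact (mat_dg (hc a).1 (hc a).2).mono hK hsub hG
  by_cases hγ : ∃ i, (c i).len = x.len
  · -- the length of `x` occurs among the parameters
    obtain ⟨i0, hi0⟩ := hγ
    have hγΛ : x.len ∈ Λ := by
      rw [← hi0]; exact (hc i0).1
    have hxx' : x'.len = x.len := (hlen x.len hγΛ).1 rfl
    have hcomp : ∀ s : ℕ → Bool, (∀ i, s i = true → i ∈ Λ) → ∀ δ ≤ x.len,
      (δ = x.len ∨ ∃ l ∈ Λ, ∃ k ≤ K, δ = l + k ∨ δ = l - k) →
        ((∀ i < δ, x.dig i = s i) ↔ ∀ i < δ, x'.dig i = s i) := by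
      intro s hs δ hδ hδ2
      have hδ3 : δ ∈ near Λ K := by
        rw [mem_near]
        rcases hδ2 with rfl | h
        · exact ⟨_, hγΛ, 0, by omega, Or.inl rfl⟩
        · exact h
      have := hsep (ball x.len δ s) (ball_mem_fam hγΛ hδ3 s hs)
      rw [mem_ball, mem_ball] at this
      simpa [hxx', hδ] using this
    rcases thr hK x.dig x'.dig hcomp with ⟨_, h2⟩ |
      ⟨α, α', hα1, hα1', hα2, hα2', hα3, hα3', hα4, hα4', hα5⟩
    · have : x = x' := by
        ext i
        · exact hxx'.symm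
        · rcases Nat.lt_or_ge i x.len with h | h
          · exact h2 i h
          · rw [x.sup i h, x'.sup i (by omega)]
      rw [this]
    · obtain ⟨g, hg1, hg2, hg3⟩ := exists_cut (· ∈ Λ) x α hα2 hα3
      obtain ⟨g', hg1', hg2', hg3'⟩ := exists_cut (· ∈ Λ) x' α' hα2' hα3'
      have hG : Good K (insert (α, α') (dg Λ)) := by
        refine good_insert (good_dg h0) α α' ?_
        intro q hq
        rw [mem_dg] at hq
        rw [← hq.2]
        exact ⟨(hα5 q.1 hq.1).2.2.1, (hα5 q.1 hq.1).2.2.2⟩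
      refine fin _ g g' hG (Finset.subset_insert _ _) (fun i => hg1 _ (hc i).2)
        (fun i => hg1' _ (hc i).2) ⟨?_, ?_, ?_, ?_⟩
      · rw [hg2, hg2', hxx']
        exact Finset.mem_insert_of_mem (mem_dg.2 ⟨hγΛ, rfl⟩)
      · intro p hp
        rw [hg3, hg3']
        rw [Finset.mem_insert] at hp
        rcases hp with rfl | hp
        · simp [hα3, hα3']
        · rw [mem_dg] at hp
          obtain ⟨k1, k2, _, _⟩ := hα5 p.1 hp.1
          rw [← hp.2]
          have n1 : p.1 ≠ α := fun h => hα2 (h ▸ hp.1)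
          have n2 : p.1 ≠ α' := fun h => hα2' (h ▸ hp.1)
          by_cases hlt : p.1 < α
          · have e1 : p.1 ≤ α := by omega
            have e2 : p.1 ≤ α' := by omega
            simp [e1, e2, k2 hlt]
          · have e1 : ¬ p.1 ≤ α := by omega
            have e2 : ¬ p.1 ≤ α' := by omega
            simp [e1, e2]
      · intro i hi
        rw [hg3] at hi
        simp only [Bool.and_eq_true, decide_eq_true_eq] at hi
        rcases Nat.lt_or_ge i α with h | h
        · exact ⟨(i, i), Finset.mem_insert_of_mem (mem_dg.2 ⟨hα4 i h hi.1, rfl⟩), rfl⟩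
        · exact ⟨(α, α'), Finset.mem_insert_self _ _, by simp; omega⟩
      · intro i hi
        rw [hg3'] at hi
        simp only [Bool.and_eq_true, decide_eq_true_eq] at hi
        rcases Nat.lt_or_ge i α' with h | h
        · exact ⟨(i, i), Finset.mem_insert_of_mem (mem_dg.2 ⟨hα4' i h hi.1, rfl⟩), rfl⟩
        · exact ⟨(α, α'), Finset.mem_insert_self _ _, by simp; omega⟩
  · -- a new length
    have hγ' : ¬ ∃ i, (c i).len = x'.len := by
      rintro ⟨i, hi⟩
      exact hγ ⟨i, ((hlen _ (hc i).1).2 hi.symm).symm⟩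
    have hG : Good K (insert (x.len, x'.len) (dg Λ)) := by
      refine good_insert (good_dg h0) _ _ ?_
      intro q hq
      rw [mem_dg] at hq
      rw [← hq.2]
      exact thr_min (fun k hk => hlev _ ⟨q.1, hq.1, k, hk, Or.inl rfl⟩)
        (fun k hk => hlev _ ⟨q.1, hq.1, k, hk, Or.inr rfl⟩)
    have hfix : ∀ (w : Wd), (¬ ∃ i, (c i).len = w.len) → ∀ i, trans w (c i) = c i := by
      intro w hw i
      ext j
      · rfl
      · rw [trans_dig]
        have : ¬ (c i).len = w.len := fun h => hw ⟨i, h⟩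
        simp [this]
    have hz : ∀ (w : Wd) (j : ℕ), (trans w w).dig j = false := by
      intro w j
      rw [trans_dig]
      simp
    refine fin _ (trans x) (trans x') hG (Finset.subset_insert _ _) (hfix x hγ) (hfix x' hγ')
      ⟨?_, ?_, ?_, ?_⟩
    · rw [trans_len, trans_len]
      exact Finset.mem_insert_self _ _
    · intro p _
      rw [hz, hz]
    · intro i hi
      rw [hz] at hi
      exact absurd hi (by simp)
    · intro i hi
      rw [hz] at hi
      exact absurd hi (by simp)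

/-- Every finite list of words can be moved to a list supported on a small set. -/
theorem exists_norm (l : List Wd) : ∃ (g : Wd ≃[Lw] Wd) (Λ : Finset ℕ),
    (∀ x, (g x).len = x.len) ∧ Λ.card ≤ 2 * l.length + 1 ∧ 0 ∈ Λ ∧
      ∀ x ∈ l, (g x).len ∈ Λ ∧ SuppOn (· ∈ Λ) (g x) := by
  classical
  induction l with
  | nil =>
    exact ⟨FirstOrder.Language.Equiv.refl Lw Wd, {0}, fun _ => rfl, by simp, by simp, by simp⟩
  | cons y l ih =>
    obtain ⟨g, Λ, h1, h2, h3, h4⟩ := ih
    set Λ1 := insert (g y).len Λ with hΛ1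
    have hc1 : Λ1.card ≤ Λ.card + 1 := Finset.card_insert_le _ _
    by_cases hex : ∃ i, (g y).dig i = true ∧ i ∉ Λ1
    · set α := Nat.find hex with hα
      obtain ⟨hα1, hα2⟩ := Nat.find_spec hex
      rw [← hα] at hα1 hα2
      have hα3 : ∀ i < α, (g y).dig i = true → i ∈ Λ1 := by
        intro i hi hh
        by_contra hcon
        exact Nat.find_min hex hi ⟨hh, hcon⟩
      obtain ⟨g', hg1, hg2, hg3⟩ := exists_cut (· ∈ Λ1) (g y) α hα2 hα1
      have hc2 : (insert α Λ1).card ≤ Λ1.card + 1 := Finset.card_insert_le _ _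
      refine ⟨g'.comp g, insert α Λ1, ?_, ?_, ?_, ?_⟩
      · intro x
        show (g' (g x)).len = x.len
        rw [hg2, h1]
      · simp only [List.length_cons]
        omega
      · exact Finset.mem_insert_of_mem (Finset.mem_insert_of_mem h3)
      · intro x hx
        rw [List.mem_cons] at hx
        rcases hx with rfl | hx
        · refine ⟨?_, ?_⟩
          · show (g' (g x)).len ∈ _
            rw [hg2]
            exact Finset.mem_insert_of_mem (Finset.mem_insert_self _ _)
          · intro i hi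
            have hi' : (g' (g x)).dig i = true := hi
            rw [hg3] at hi'
            simp only [Bool.and_eq_true, decide_eq_true_eq] at hi'
            rcases Nat.lt_or_ge i α with h | h
            · exact Finset.mem_insert_of_mem (hα3 i h hi'.1)
            · have : i = α := by omega
              rw [this]
              exact Finset.mem_insert_self _ _
        · have hfix : g' (g x) = g x := by
            refine hg1 _ ?_
            intro i hi
            exact Finset.mem_insert_of_mem ((h4 x hx).2 i hi)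
          refine ⟨?_, ?_⟩
          · show (g' (g x)).len ∈ _
            rw [hfix]
            exact Finset.mem_insert_of_mem (Finset.mem_insert_of_mem (h4 x hx).1)
          · intro i hi
            have hi' : (g' (g x)).dig i = true := hi
            rw [hfix] at hi'
            exact Finset.mem_insert_of_mem (Finset.mem_insert_of_mem ((h4 x hx).2 i hi'))
    · refine ⟨g, Λ1, h1, ?_, ?_, ?_⟩
      · simp only [List.length_cons]
        omega
      · exact Finset.mem_insert_of_mem h3
      · intro x hx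
        rw [List.mem_cons] at hx
        rcases hx with rfl | hx
        · refine ⟨Finset.mem_insert_self _ _, ?_⟩
          intro i hi
          by_contra hcon
          exact hex ⟨i, hi, hcon⟩
        · exact ⟨Finset.mem_insert_of_mem (h4 x hx).1,
            fun i hi => Finset.mem_insert_of_mem ((h4 x hx).2 i hi)⟩

/-- One-variable formulas: bounded complexity. -/
theorem sep {m : ℕ} (φ : Lw.Formula (Fin 1 ⊕ Fin m)) : ∃ C : ℕ, ∀ c : Fin m → Wd,
    ∃ F : Finset (Set Wd), F.card ≤ C ∧ (∀ D ∈ F, IsCell D) ∧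
      ∀ x x' : Wd, (∀ D ∈ F, (x ∈ D ↔ x' ∈ D)) →
        (φ.Realize (Sum.elim (fun _ => x) c) ↔ φ.Realize (Sum.elim (fun _ => x') c)) := by
  classical
  refine ⟨famBound (2 * m + 1) (rk φ), fun c => ?_⟩
  obtain ⟨g, Λ, h1, h2, h3, h4⟩ := exists_norm (List.ofFn c)
  rw [List.length_ofFn] at h2
  refine ⟨(fam Λ (rk φ)).image (fun D => g ⁻¹' D), ?_, ?_, ?_⟩
  · exact Finset.card_image_le.trans (card_fam _ _ _ h2)
  · intro D hD
    rw [Finset.mem_image] at hD
    obtain ⟨D', hD', rfl⟩ := hD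
    exact (isCell_fam hD').preimage g
  · intro x x' hsep
    have e1 := realize_aut g φ (Sum.elim (fun _ => x) c)
    have e2 := realize_aut g φ (Sum.elim (fun _ => x') c)
    rw [← e1, ← e2]
    have key := sep_norm φ Λ h3 (fun i => g (c i)) (fun i => h4 (c i) (by
      rw [List.mem_ofFn]
      exact ⟨i, rfl⟩)) (g x) (g x') (by
      intro D hD
      have := hsep (g ⁻¹' D) (Finset.mem_image_of_mem _ hD)
      exact this)
    have f1 : (fun a => g (Sum.elim (fun _ => x) c a)) =
        (Sum.elim (fun _ => g x) (fun i => g (c i)) : Fin 1 ⊕ Fin m → Wd) := by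
      funext a
      rcases a with a | a <;> rfl
    have f2 : (fun a => g (Sum.elim (fun _ => x') c a)) =
        (Sum.elim (fun _ => g x') (fun i => g (c i)) : Fin 1 ⊕ Fin m → Wd) := by
      funext a
      rcases a with a | a <;> rfl
    rw [f1, f2]
    exact key

end Run7.h713
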