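import Pool.Agent.Run7.h713.Sep

/-!
Formulas in two variables `x, y` at large equal lengths whose first digits differ: over a tuple of
parameters they only depend on boundedly many initial segments of the sum `x + y`.
-/

set_option autoImplicit false

namespace Run7.h713

open FirstOrder FirstOrder.Language

theorem sep2_norm {m : ℕ} (ψ : Lw.Formula (Fin 2 ⊕ Fin m)) (Λ : Finset ℕ) (μ : ℕ) (h0 : 0 ∈ Λ)
    (hμ : ∀ l ∈ Λ, l ≤ μ)
    (c : Fin m → Wd) (hc : ∀ i, (c i).len ∈ Λ ∧ SuppOn (· ∈ Λ) (c i)) (x y x' y' : Wd)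
    (hx : μ + rk ψ + 1 ≤ x.len) (hx' : μ + rk ψ + 1 ≤ x'.len)
    (hy : y.len = x.len) (hy' : y'.len = x'.len)
    (z0 : (x.dig 0 ^^ y.dig 0) = true) (z0' : (x'.dig 0 ^^ y'.dig 0) = true)
    (hsep : ∀ s : ℕ → Bool, (∀ i, s i = true → i ∈ Λ) → ∀ δ ≤ μ + 1,
      (δ = μ + 1 ∨ ∃ l ∈ Λ, ∃ k ≤ rk ψ, δ = l + k ∨ δ = l - k) →
        ((∀ i < δ, (x.dig i ^^ y.dig i) = s i) ↔ ∀ i < δ, (x'.dig i ^^ y'.dig i) = s i)) :
    ψ.Realize (Sum.elim ![x, y] c) ↔ ψ.Realize (Sum.elim ![x', y'] c) := by
  classical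
  set K := rk ψ with hKdef
  have hK : 1 ≤ K := one_le_rk ψ
  -- translations
  have hfix : ∀ (w : Wd), μ + K + 1 ≤ w.len → ∀ i, trans w (c i) = c i := by
    intro w hw i
    ext j
    · rfl
    · rw [trans_dig]
      have h1 := hμ _ (hc i).1
      have : ¬ (c i).len = w.len := by omega
      simp [this]
  have hzx : ∀ (w : Wd) (j : ℕ), (trans w w).dig j = false := by
    intro w j
    rw [trans_dig]
    simp
  have hzy : ∀ (w v : Wd), v.len = w.len → ∀ j : ℕ, (trans w v).dig j = (w.dig j ^^ v.dig j) := by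
    intro w v hv j
    rw [trans_dig]
    simp [hv, Bool.xor_comm]
  -- the conclusion from automorphisms and a correspondence
  have fin : ∀ (P : Finset (ℕ × ℕ)) (g g' : Wd ≃[Lw] Wd), Good K P → dg Λ ⊆ P →
      (∀ i, g (c i) = c i) → (∀ i, g' (c i) = c i) →
      Mat P (g (trans x x)) (g' (trans x' x')) → Mat P (g (trans x y)) (g' (trans x' y')) →
      (ψ.Realize (Sum.elim ![x, y] c) ↔ ψ.Realize (Sum.elim ![x', y'] c)) := by
    intro P g g' hG hsub hg hg' hm1 hm2
    have e1 := realize_aut (trans x) ψ (Sum.elim ![x, y] c)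
    have e2 := realize_aut (trans x') ψ (Sum.elim ![x', y'] c)
    have e3 := realize_aut g ψ (fun a => trans x (Sum.elim ![x, y] c a))
    have e4 := realize_aut g' ψ (fun a => trans x' (Sum.elim ![x', y'] c a))
    rw [← e1, ← e2, ← e3, ← e4]
    refine ef_formula ψ P hG _ _ ?_
    rintro (a | a)
    · fin_cases a
      · exact hm1
      · exact hm2
    · show Mat P (g (trans x (c a))) (g' (trans x' (c a)))
      rw [hfix x hx, hfix x' hx', hg, hg']
      exact (mat_dg (hc a).1 (hc a).2).mono hK hsub hG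
  rcases thr hK (fun i => x.dig i ^^ y.dig i) (fun i => x'.dig i ^^ y'.dig i) hsep with
    ⟨h1, h2⟩ | ⟨α, α', hα1, hα1', hα2, hα2', hα3, hα3', hα4, hα4', hα5⟩
  · -- everything below `μ + 1` lies in `Λ`
    have main : ∀ (w v : Wd), μ + K + 1 ≤ w.len → v.len = w.len → (w.dig 0 ^^ v.dig 0) = true →
        ∃ g : Wd ≃[Lw] Wd, (∀ i, g (c i) = c i) ∧ (∀ u, (g u).len = u.len) ∧
          (∀ j, (g (trans w w)).dig j = false) ∧
          (∀ j, (g (trans w v)).dig j = ((w.dig j ^^ v.dig j) && decide (j < μ + 1))) := by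
      intro w v hw hv hz
      refine ⟨shear 0 (fun i => (w.dig i ^^ v.dig i) && decide (μ < i)) ?_, ?_, ?_, ?_, ?_⟩
      · intro i hi
        have : ¬ μ < i := by omega
        simp [this]
      · intro i
        ext j
        · rfl
        · rw [shear_dig]
          have h3 := hμ _ (hc i).1
          by_cases h4 : j < (c i).len
          · have h5 : ¬ μ < j := by omega
            simp [h5]
          · simp [h4]
      · intro u
        rfl
      · intro j
        rw [shear_dig, hzx, hzx]
        simp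
      · intro j
        rw [shear_dig, hzy w v hv, hzy w v hv, hz]
        rw [trans_len, hv]
        by_cases h4 : j < w.len
        · by_cases h5 : μ < j
          · have h6 : ¬ j < μ + 1 := by omega
            simp [h4, h5, h6]
          · have h6 : j < μ + 1 := by omega
            simp [h5, h6]
        · rw [w.sup j (by omega), v.sup j (by omega)]
          simp
    obtain ⟨g, g1, g2, g3, g4⟩ := main x y hx hy z0
    obtain ⟨g', g1', g2', g3', g4'⟩ := main x' y' hx' hy' z0'
    have hG : Good K (insert (x.len, x'.len) (dg Λ)) := by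
      refine good_insert (good_dg h0) _ _ ?_
      intro q hq
      rw [mem_dg] at hq
      rw [← hq.2]
      have := hμ _ hq.1
      omega
    refine fin _ g g' hG (Finset.subset_insert _ _) g1 g1' ⟨?_, ?_, ?_, ?_⟩ ⟨?_, ?_, ?_, ?_⟩
    · rw [g2, g2', trans_len, trans_len]
      exact Finset.mem_insert_self _ _
    · intro p _
      rw [g3, g3']
    · intro i hi
      rw [g3] at hi
      exact absurd hi (by simp)
    · intro i hi
      rw [g3'] at hi
      exact absurd hi (by simp)
    · rw [g2, g2', trans_len, trans_len, hy, hy']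
      exact Finset.mem_insert_self _ _
    · intro p hp
      rw [g4, g4']
      rw [Finset.mem_insert] at hp
      rcases hp with rfl | hp
      · have e1 : ¬ x.len < μ + 1 := by omega
        have e2 : ¬ x'.len < μ + 1 := by omega
        simp [e1, e2]
      · rw [mem_dg] at hp
        have h5 := hμ _ hp.1
        rw [← hp.2]
        have h6 : p.1 < μ + 1 := by omega
        have h7 := h2 p.1 h6
        rw [h7]
    · intro i hi
      rw [g4] at hi
      simp only [Bool.and_eq_true, decide_eq_true_eq] at hi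
      exact ⟨(i, i), Finset.mem_insert_of_mem (mem_dg.2 ⟨h1 i hi.2 hi.1, rfl⟩), rfl⟩
    · intro i hi
      rw [g4'] at hi
      simp only [Bool.and_eq_true, decide_eq_true_eq] at hi
      have h7 := h2 i hi.2
      rw [← h7] at hi
      exact ⟨(i, i), Finset.mem_insert_of_mem (mem_dg.2 ⟨h1 i hi.2 hi.1, rfl⟩), rfl⟩
  · -- a digit below `μ + 1` outside `Λ`
    have hd1 : (trans x y).dig α = true := by
      rw [hzy x y hy]; exact hα3
    have hd1' : (trans x' y').dig α' = true := by
      rw [hzy x' y' hy']; exact hα3'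
    obtain ⟨g, hg1, hg2, hg3⟩ := exists_cut (· ∈ Λ) (trans x y) α hα2 hd1
    obtain ⟨g', hg1', hg2', hg3'⟩ := exists_cut (· ∈ Λ) (trans x' y') α' hα2' hd1'
    have hG1 : Good K (insert (α, α') (dg Λ)) := by
      refine good_insert (good_dg h0) α α' ?_
      intro q hq
      rw [mem_dg] at hq
      rw [← hq.2]
      exact ⟨(hα5 q.1 hq.1).2.2.1, (hα5 q.1 hq.1).2.2.2⟩
    have hG : Good K (insert (x.len, x'.len) (insert (α, α') (dg Λ))) := by
      refine good_insert hG1 _ _ ?_
      intro q hq
      rw [Finset.mem_insert] at hq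
      rcases hq with rfl | hq
      · show min (x.len - α) K = min (x'.len - α') K ∧ min (α - x.len) K = min (α' - x'.len) K
        omega
      · rw [mem_dg] at hq
        rw [← hq.2]
        have := hμ _ hq.1
        omega
    have hzsupp : ∀ w : Wd, SuppOn (· ∈ Λ) (trans w w) := by
      intro w i hi
      rw [hzx] at hi
      exact absurd hi (by simp)
    have hsub : dg Λ ⊆ insert (x.len, x'.len) (insert (α, α') (dg Λ)) :=
      (Finset.subset_insert _ _).trans (Finset.subset_insert _ _)
    refine fin _ g g' hG hsub (fun i => hg1 _ (hc i).2)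
      (fun i => hg1' _ (hc i).2) ⟨?_, ?_, ?_, ?_⟩ ⟨?_, ?_, ?_, ?_⟩
    · rw [hg2, hg2', trans_len, trans_len]
      exact Finset.mem_insert_self _ _
    · intro p _
      rw [hg1 _ (hzsupp x), hg1' _ (hzsupp x'), hzx, hzx]
    · intro i hi
      rw [hg1 _ (hzsupp x), hzx] at hi
      exact absurd hi (by simp)
    · intro i hi
      rw [hg1' _ (hzsupp x'), hzx] at hi
      exact absurd hi (by simp)
    · rw [hg2, hg2', trans_len, trans_len, hy, hy']
      exact Finset.mem_insert_self _ _
    · intro p hp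
      rw [hg3, hg3', hzy x y hy, hzy x' y' hy']
      rw [Finset.mem_insert, Finset.mem_insert] at hp
      rcases hp with rfl | rfl | hp
      · have e1 : ¬ x.len ≤ α := by omega
        have e2 : ¬ x'.len ≤ α' := by omega
        simp [e1, e2]
      · show ((x.dig α ^^ y.dig α) && decide (α ≤ α)) = ((x'.dig α' ^^ y'.dig α') && decide (α' ≤ α'))
        rw [hα3, hα3']
        simp
      · rw [mem_dg] at hp
        obtain ⟨k1, k2, _, _⟩ := hα5 p.1 hp.1
        rw [← hp.2]
        have n1 : p.1 ≠ α := fun h => hα2 (h ▸ hp.1)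
        have n2 : p.1 ≠ α' := fun h => hα2' (h ▸ hp.1)
        by_cases hlt : p.1 < α
        · have e1 : p.1 ≤ α := by omega
          have e2 : p.1 ≤ α' := by omega
          have e3 := k2 hlt
          simp [e1, e2, e3]
        · have e1 : ¬ p.1 ≤ α := by omega
          have e2 : ¬ p.1 ≤ α' := by omega
          simp [e1, e2]
    · intro i hi
      rw [hg3, hzy x y hy] at hi
      simp only [Bool.and_eq_true, decide_eq_true_eq] at hi
      rcases Nat.lt_or_ge i α with h | h
      · exact ⟨(i, i), hsub (mem_dg.2 ⟨hα4 i h hi.1, rfl⟩), rfl⟩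
      · exact ⟨(α, α'), Finset.mem_insert_of_mem (Finset.mem_insert_self _ _), by
          show α = i
          omega⟩
    · intro i hi
      rw [hg3', hzy x' y' hy'] at hi
      simp only [Bool.and_eq_true, decide_eq_true_eq] at hi
      rcases Nat.lt_or_ge i α' with h | h
      · exact ⟨(i, i), hsub (mem_dg.2 ⟨hα4' i h hi.1, rfl⟩), rfl⟩
      · exact ⟨(α, α'), Finset.mem_insert_of_mem (Finset.mem_insert_self _ _), by
          show α' = i
          omega⟩

/-- the two words of length one -/
def eps (b : Bool) : Wd := cw 1 (fun _ => b)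

open Classical in
/-- The nodes used for a tuple supported on `Λ`. -/
noncomputable def nodes (Λ : Finset ℕ) (K μ : ℕ) : Finset (Wd × Wd) :=
  ((insert (μ + 1) (near Λ K)) ×ˢ Λ.powerset).image
    (fun q => (zw q.1, cw q.1 (fun i => decide (i ∈ q.2))))

/-- The bound for the number of nodes. -/
def nodeBound (N K : ℕ) : ℕ := (2 * (N * (K + 1)) + 1) * 2 ^ N

theorem card_nodes (Λ : Finset ℕ) (K μ N : ℕ) (h : Λ.card ≤ N) :
    (nodes Λ K μ).card ≤ nodeBound N K := by
  classical
  have h1 : (near Λ K).card ≤ 2 * (N * (K + 1)) :=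
    (card_near Λ K).trans (by gcongr)
  unfold nodes nodeBound
  refine Finset.card_image_le.trans ?_
  rw [Finset.card_product, Finset.card_powerset]
  have h2 : (insert (μ + 1) (near Λ K)).card ≤ 2 * (N * (K + 1)) + 1 :=
    (Finset.card_insert_le _ _).trans (by omega)
  gcongr
  norm_num

theorem mem_nodes {Λ : Finset ℕ} {K μ δ : ℕ} (h : δ = μ + 1 ∨ δ ∈ near Λ K) (s : ℕ → Bool)
    (hs : ∀ i, s i = true → i ∈ Λ) : (zw δ, cw δ s) ∈ nodes Λ K μ := by
  classical
  unfold nodes
  refine Finset.mem_image.2 ⟨(δ, Λ.filter (fun i => s i = true)), ?_, ?_⟩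
  · simp only [Finset.mem_product, Finset.mem_powerset, Finset.mem_insert]
    exact ⟨h, Finset.filter_subset _ _⟩
  · have : (fun i => decide (i ∈ Λ.filter (fun i => s i = true))) = s := by
      funext i
      by_cases hi : s i = true
      · simp [hi, hs i hi]
      · simp only [Bool.not_eq_true] at hi
        simp [hi]
    show (zw δ, cw δ (fun i => decide (i ∈ Λ.filter (fun i => s i = true)))) = _
    rw [this]

theorem xr_node (δ : ℕ) (s : ℕ → Bool) (x y : Wd) : XR (zw δ) (cw δ s) x y ↔
    x.len = y.len ∧ δ ≤ x.len ∧ ∀ i < δ, (x.dig i ^^ y.dig i) = s i := by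
  constructor
  · rintro ⟨_, h2, h3, h4⟩
    refine ⟨h2, h3, fun i hi => ?_⟩
    have h5 := h4 i hi
    rw [cw_dig hi] at h5
    simp only [zw, Bool.false_xor] at h5
    exact h5.symm
  · rintro ⟨h1, h2, h3⟩
    refine ⟨rfl, h1, h2, fun i hi => ?_⟩
    have hi' : i < δ := hi
    rw [cw_dig hi', h3 i hi']
    simp [zw]

/-- Formulas in two variables: bounded complexity at large equal lengths with different first
digits. -/
theorem sep2 {m : ℕ} (ψ : Lw.Formula (Fin 2 ⊕ Fin m)) : ∃ C : ℕ, ∀ c : Fin m → Wd,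
    ∃ (e : Wd) (u u' : Fin C → Wd), ∀ x y x' y' : Wd, XR e e x x → XR e e x' x' →
      XR (eps false) (eps true) x y → XR (eps false) (eps true) x' y' →
      (∀ j, XR (u j) (u' j) x y ↔ XR (u j) (u' j) x' y') →
        (ψ.Realize (Sum.elim ![x, y] c) ↔ ψ.Realize (Sum.elim ![x', y'] c)) := by
  classical
  refine ⟨nodeBound (2 * m + 1) (rk ψ), fun c => ?_⟩
  obtain ⟨g, Λ, h1, h2, h3, h4⟩ := exists_norm (List.ofFn c)
  rw [List.length_ofFn] at h2
  set μ := Λ.sup id with hμdef
  have hμ : ∀ l ∈ Λ, l ≤ μ := fun l hl => Finset.le_sup (f := id) hl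
  set l := (nodes Λ (rk ψ) μ).toList with hl
  have hlen : l.length ≤ nodeBound (2 * m + 1) (rk ψ) := by
    rw [hl, Finset.length_toList]
    exact card_nodes _ _ _ _ h2
  refine ⟨zw (μ + rk ψ + 1), fun j => g.symm (l.getD j (zw 0, zw 0)).1,
    fun j => g.symm (l.getD j (zw 0, zw 0)).2, ?_⟩
  intro x y x' y' hx hx' hxy hxy' hsep
  rw [xr_lev] at hx hx'
  have hx1 : μ + rk ψ + 1 ≤ x.len := hx
  have hx1' : μ + rk ψ + 1 ≤ x'.len := hx'
  have e1 := realize_aut g ψ (Sum.elim ![x, y] c)
  have e2 := realize_aut g ψ (Sum.elim ![x', y'] c)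
  rw [← e1, ← e2]
  have f1 : ∀ a b : Wd, (fun i => g (Sum.elim ![a, b] c i)) =
      (Sum.elim ![g a, g b] (fun i => g (c i)) : Fin 2 ⊕ Fin m → Wd) := by
    intro a b
    funext i
    rcases i with i | i
    · fin_cases i <;> rfl
    · rfl
  rw [f1, f1]
  have heps : ((g (eps false)).dig 0 ^^ (g (eps true)).dig 0) = true := by
    by_contra hcon
    have hne : g (eps false) ≠ g (eps true) := by
      intro h
      have := g.injective h
      have h5 := congrArg (fun w => Wd.dig w 0) this
      simp [eps, cw] at h5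
    apply hne
    ext i
    · rw [h1, h1]
      rfl
    · rcases Nat.eq_zero_or_pos i with rfl | hi
      · revert hcon
        cases (g (eps false)).dig 0 <;> cases (g (eps true)).dig 0 <;> simp
      · rw [(g (eps false)).sup i (by rw [h1]; exact hi), (g (eps true)).sup i (by rw [h1]; exact hi)]
  have hz0 : ∀ a b : Wd, XR (eps false) (eps true) a b → ((g a).dig 0 ^^ (g b).dig 0) = true := by
    intro a b hab
    rw [← xr_aut g] at hab
    have := hab.2.2.2 0 (by rw [h1]; exact Nat.one_pos)
    rw [← this]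
    exact heps
  have hxy1 : x.len = y.len := hxy.2.1
  have hxy1' : x'.len = y'.len := hxy'.2.1
  refine sep2_norm ψ Λ μ h3 hμ (fun i => g (c i)) (fun i => h4 (c i) (by
      rw [List.mem_ofFn]
      exact ⟨i, rfl⟩)) (g x) (g y) (g x') (g y') (by rw [h1]; omega) (by rw [h1]; omega)
      (by rw [h1, h1]; omega) (by rw [h1, h1]; omega) (hz0 _ _ hxy) (hz0 _ _ hxy') ?_
  intro s hs δ hδ hδ2
  have hmem : (zw δ, cw δ s) ∈ nodes Λ (rk ψ) μ := by
    refine mem_nodes ?_ s hs
    rcases hδ2 with h | h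
    · exact Or.inl h
    · exact Or.inr (mem_near.2 h)
  rw [← Finset.mem_toList, ← hl, List.mem_iff_getElem] at hmem
  obtain ⟨j, hj, hjeq⟩ := hmem
  have hj' : j < nodeBound (2 * m + 1) (rk ψ) := by omega
  have h6 := hsep ⟨j, hj'⟩
  simp only [List.getD_eq_getElem?_getD] at h6
  rw [List.getElem?_eq_getElem hj, Option.getD_some, hjeq] at h6
  rw [← xr_aut g, ← xr_aut g (g.symm (zw δ)) (g.symm (cw δ s)) x' y'] at h6
  simp only [FirstOrder.Language.Equiv.apply_symm_apply] at h6
  rw [xr_node, xr_node, h1, h1, h1, h1] at h6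
  have hd1 : δ ≤ x.len := by omega
  have hd2 : δ ≤ x'.len := by omega
  simpa [hxy1, hxy1', hxy1 ▸ hd1, hxy1' ▸ hd2] using h6

end Run7.h713
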