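import Pool.Agent.Run7.h713.Lam

/-!
The basic step of distality: one element and one formula defining cells.
-/

set_option autoImplicit false

namespace Run7.h713

open FirstOrder FirstOrder.Language

section

variable {N : Type 1} [Lw.Structure N] {X : Type} [LinearOrder X] {β : Type}

/-- indiscernibility of `(d x)_{x ∈ V}` -/
def H1 (d : X → β → N) (V : Set X) : Prop :=
  ∀ (q : ℕ) (ρ : Lw.Formula (Fin q × β)) (u v : Fin q → X), (∀ i, u i ∈ V) → (∀ i, v i ∈ V) →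
    (∀ i j, u i < u j ↔ v i < v j) →
      (ρ.Realize (fun p => d (u p.1) p.2) ↔ ρ.Realize (fun p => d (v p.1) p.2))

/-- indiscernibility of `(d x)_{x ∈ V}` over `a` -/
def H2 (a : N) (d : X → β → N) (V : Set X) : Prop :=
  ∀ (q : ℕ) (ρ : Lw.Formula (Fin 1 ⊕ (Fin q × β))) (u v : Fin q → X), (∀ i, u i ∈ V) →
    (∀ i, v i ∈ V) → (∀ i j, u i < u j ↔ v i < v j) →
      (ρ.Realize (Sum.elim (fun _ => a) (fun p => d (u p.1) p.2)) ↔
        ρ.Realize (Sum.elim (fun _ => a) (fun p => d (v p.1) p.2)))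

/-- the copy of `χ` with the parameters number `i` -/
def cp {q : ℕ} (χ : Lw.Formula (Fin 1 ⊕ β)) (i : Fin q) : Lw.Formula (Fin 1 ⊕ (Fin q × β)) :=
  pull (fun t => (i, t)) χ

omit [LinearOrder X] in
theorem St_cp {q : ℕ} (χ : Lw.Formula (Fin 1 ⊕ β)) (i : Fin q) (d : X → β → N) (u : Fin q → X) :
    St (cp χ i) (fun p => d (u p.1) p.2) = St χ (d (u i)) := by
  unfold cp
  rw [St_pull]
  rfl

theorem sub_inv {d : X → β → N} {V : Set X} (h : H1 d V) (χ : Lw.Formula (Fin 1 ⊕ β)) {q : ℕ}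
    (u v : Fin q → X) (hu : ∀ i, u i ∈ V) (hv : ∀ i, v i ∈ V) (huv : ∀ i j, u i < u j ↔ v i < v j)
    (i j : Fin q) : St χ (d (u i)) ⊆ St χ (d (u j)) ↔ St χ (d (v i)) ⊆ St χ (d (v j)) := by
  have := h q (SubF (cp χ i) (cp χ j)) u v hu hv huv
  rw [realize_SubF, realize_SubF, St_cp, St_cp, St_cp, St_cp] at this
  exact this

theorem dis_inv {d : X → β → N} {V : Set X} (h : H1 d V) (χ : Lw.Formula (Fin 1 ⊕ β)) {q : ℕ}
    (u v : Fin q → X) (hu : ∀ i, u i ∈ V) (hv : ∀ i, v i ∈ V) (huv : ∀ i j, u i < u j ↔ v i < v j)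
    (i j : Fin q) : (∀ x, x ∈ St χ (d (u i)) → x ∉ St χ (d (u j))) ↔
      (∀ x, x ∈ St χ (d (v i)) → x ∉ St χ (d (v j))) := by
  have := h q (DisF (cp χ i) (cp χ j)) u v hu hv huv
  rw [realize_DisF, realize_DisF, St_cp, St_cp, St_cp, St_cp] at this
  exact this

theorem non_inv {d : X → β → N} {V : Set X} (h : H1 d V) (χ : Lw.Formula (Fin 1 ⊕ β)) {x y : X}
    (hx : x ∈ V) (hy : y ∈ V) : (St χ (d x)).Nonempty ↔ (St χ (d y)).Nonempty := by
  have := h 1 (NonF (cp χ 0)) (fun _ => x) (fun _ => y) (fun _ => hx) (fun _ => hy) (by simp)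
  have e : ∀ z, St (cp χ (0 : Fin 1)) (fun p => d z p.2) = St χ (d z) := fun z =>
    St_cp χ (0 : Fin 1) d (fun _ => z)
  rw [realize_NonF, realize_NonF, e, e] at this
  exact this

theorem odd_inv {d : X → β → N} {V : Set X} (h : H1 d V) (χ : Lw.Formula (Fin 1 ⊕ β)) {q : ℕ}
    (u v : Fin q → X) (hu : ∀ i, u i ∈ V) (hv : ∀ i, v i ∈ V) (huv : ∀ i j, u i < u j ↔ v i < v j)
    (i j k : Fin q) : Odd3 (St χ (d (u i))) (St χ (d (u j))) (St χ (d (u k))) ↔
      Odd3 (St χ (d (v i))) (St χ (d (v j))) (St χ (d (v k))) := by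
  have := h q (OddF (cp χ i) (cp χ j) (cp χ k)) u v hu hv huv
  rw [realize_OddF, realize_OddF, St_cp, St_cp, St_cp, St_cp, St_cp, St_cp] at this
  exact this

theorem mem_inv {a : N} {d : X → β → N} {V : Set X} (h : H2 a d V) (χ : Lw.Formula (Fin 1 ⊕ β))
    {x y : X} (hx : x ∈ V) (hy : y ∈ V) : a ∈ St χ (d x) ↔ a ∈ St χ (d y) := by
  have := h 1 (cp χ 0) (fun _ => x) (fun _ => y) (fun _ => hx) (fun _ => hy) (by simp)
  have e : ∀ z, (cp χ (0 : Fin 1)).Realize (Sum.elim (fun _ => a) (fun p => d z p.2)) ↔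
      a ∈ St χ (d z) := by
    intro z
    have := St_cp χ (0 : Fin 1) d (fun _ => z)
    rw [← this]
    exact Iff.rfl
  rw [e, e] at this
  exact this

/-- the family consisting of the singleton of the parameter -/
def sing {α : Type} : Lw.Formula (Fin 1 ⊕ (Fin 1 ⊕ α)) :=
  (Term.var (Sum.inl 0)).equal (Term.var (Sum.inr (Sum.inl 0)))

omit [LinearOrder X] in
theorem St_sing {α : Type} (a : N) (v : α → N) :
    St (sing : Lw.Formula (Fin 1 ⊕ (Fin 1 ⊕ α))) (Sum.elim (fun _ => a) v) = {a} := by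
  ext x
  show sing.Realize _ ↔ _
  unfold sing
  rw [Formula.realize_equal]
  exact Iff.rfl

theorem odda_inv {a : N} {d : X → β → N} {V : Set X} (h : H2 a d V)
    (χ : Lw.Formula (Fin 1 ⊕ β)) {q : ℕ} (u v : Fin q → X) (hu : ∀ i, u i ∈ V)
    (hv : ∀ i, v i ∈ V) (huv : ∀ i j, u i < u j ↔ v i < v j) (i j : Fin q) :
    Odd3 (St χ (d (u i))) {a} (St χ (d (u j))) ↔
      Odd3 (St χ (d (v i))) {a} (St χ (d (v j))) := by
  have := h q (OddF (pull Sum.inr (cp χ i)) sing (pull Sum.inr (cp χ j))) u v hu hv huv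
  have e : ∀ (i : Fin q) (w : Fin q → X), St (pull Sum.inr (cp χ i))
      (Sum.elim (fun _ => a) (fun p => d (w p.1) p.2) : Fin 1 ⊕ (Fin q × β) → N) =
        St χ (d (w i)) := by
    intro i w
    rw [St_pull, ← St_cp χ i d w]
    rfl
  rw [realize_OddF, realize_OddF, e, e, e, e, St_sing, St_sing] at this
  exact this

theorem two_lt {x y x' y' : X} (h : x < y) (h' : x' < y') :
    ∀ i j : Fin 2, ![x, y] i < ![x, y] j ↔ ![x', y'] i < ![x', y'] j := by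
  intro i j
  fin_cases i <;> fin_cases j <;> simp [h, h', h.not_gt, h'.not_gt]

theorem three_lt {x y z x' y' z' : X} (h : x < y) (k : y < z) (h' : x' < y') (k' : y' < z') :
    ∀ i j : Fin 3, ![x, y, z] i < ![x, y, z] j ↔ ![x', y', z'] i < ![x', y', z'] j := by
  have h1 := h.trans k
  have h2 := h'.trans k'
  intro i j
  fin_cases i <;> fin_cases j <;>
    simp [h, h', h.not_gt, h'.not_gt, k, k', k.not_gt, k'.not_gt, h1, h2, h1.not_gt, h2.not_gt]

omit [LinearOrder X] in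
theorem two_mem {x y : X} {V : Set X} (hx : x ∈ V) (hy : y ∈ V) : ∀ i : Fin 2, ![x, y] i ∈ V := by
  intro i
  fin_cases i
  · exact hx
  · exact hy

omit [LinearOrder X] in
theorem three_mem {x y z : X} {V : Set X} (hx : x ∈ V) (hy : y ∈ V) (hz : z ∈ V) :
    ∀ i : Fin 3, ![x, y, z] i ∈ V := by
  intro i
  fin_cases i
  · exact hx
  · exact hy
  · exact hz

variable [N ⊨ Lw.completeTheory Wd] [Finite β]

theorem cell_case {χ : Lw.Formula (Fin 1 ⊕ β)} (hχ : CellFam χ) {a : N} {d : X → β → N}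
    {V : Set X} {c : X} (hc : c ∈ V) (h1 : H1 d V) (h2 : H2 a d (V \ {c})) {x1 x2 y1 y2 : X}
    (vx1 : x1 ∈ V) (vx2 : x2 ∈ V) (vy1 : y1 ∈ V) (vy2 : y2 ∈ V) (l1 : x1 < x2) (l2 : x2 < c)
    (l3 : c < y1) (l4 : y1 < y2) : a ∈ St χ (d x1) ↔ a ∈ St χ (d c) := by
  classical
  have l13 : x1 < c := l1.trans l2
  have l24 : c < y2 := l3.trans l4
  have l14 : x1 < y1 := l13.trans l3
  have l25 : x2 < y1 := l2.trans l3
  have wx1 : x1 ∈ V \ {c} := ⟨vx1, l13.ne⟩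
  have wx2 : x2 ∈ V \ {c} := ⟨vx2, l2.ne⟩
  have wy1 : y1 ∈ V \ {c} := ⟨vy1, l3.ne'⟩
  have wy2 : y2 ∈ V \ {c} := ⟨vy2, l24.ne'⟩
  -- comparability of cells with a common point
  have comp : ∀ (x y : X) (z : N), z ∈ St χ (d x) → z ∈ St χ (d y) →
      St χ (d x) ⊆ St χ (d y) ∨ St χ (d y) ⊆ St χ (d x) := by
    intro x y z hx hy
    obtain ⟨w, hw⟩ := cellFam_N hχ (d x) ⟨z, hx⟩
    obtain ⟨w', hw'⟩ := cellFam_N hχ (d y) ⟨z, hy⟩
    rw [hw] at hx
    rw [hw'] at hy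
    rw [hw, hw']
    exact lam_N hx hy
  have sub2 : ∀ {x y x' y' : X}, x ∈ V → y ∈ V → x' ∈ V → y' ∈ V → x < y → x' < y' →
      (St χ (d x) ⊆ St χ (d y) ↔ St χ (d x') ⊆ St χ (d y')) := by
    intro x y x' y' a1 a2 a3 a4 b1 b2
    exact sub_inv h1 χ ![x, y] ![x', y'] (two_mem a1 a2) (two_mem a3 a4) (two_lt b1 b2) 0 1
  have sup2 : ∀ {x y x' y' : X}, x ∈ V → y ∈ V → x' ∈ V → y' ∈ V → x < y → x' < y' →
      (St χ (d y) ⊆ St χ (d x) ↔ St χ (d y') ⊆ St χ (d x')) := by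
    intro x y x' y' a1 a2 a3 a4 b1 b2
    exact sub_inv h1 χ ![x, y] ![x', y'] (two_mem a1 a2) (two_mem a3 a4) (two_lt b1 b2) 1 0
  have dis2 : ∀ {x y x' y' : X}, x ∈ V → y ∈ V → x' ∈ V → y' ∈ V → x < y → x' < y' →
      ((∀ z, z ∈ St χ (d x) → z ∉ St χ (d y)) ↔ (∀ z, z ∈ St χ (d x') → z ∉ St χ (d y'))) := by
    intro x y x' y' a1 a2 a3 a4 b1 b2
    exact dis_inv h1 χ ![x, y] ![x', y'] (two_mem a1 a2) (two_mem a3 a4) (two_lt b1 b2) 0 1
  constructor
  · -- the positive case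
    intro ha
    have hay : a ∈ St χ (d y1) := (mem_inv h2 χ wx1 wy1).1 ha
    rcases comp x1 y1 a ha hay with hs | hs
    · exact (sub2 vx1 vy1 vx1 hc l14 l13).1 hs ha
    · exact (sup2 vx1 vy1 hc vy1 l14 l3).1 hs hay
  · -- the negative case
    intro hac
    by_contra ha
    have hax2 : a ∉ St χ (d x2) := fun h => ha ((mem_inv h2 χ wx2 wx1).1 h)
    have hay1 : a ∉ St χ (d y1) := fun h => ha ((mem_inv h2 χ wy1 wx1).1 h)
    have hay2 : a ∉ St χ (d y2) := fun h => ha ((mem_inv h2 χ wy2 wx1).1 h)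
    have hne : ∀ x ∈ V, (St χ (d x)).Nonempty := fun x hx => (non_inv h1 χ hc hx).1 ⟨a, hac⟩
    have hdis0 : ∀ z, z ∈ St χ (d x1) → z ∉ St χ (d y1) := by
      intro z hz hz'
      rcases comp x1 y1 z hz hz' with hs | hs
      · exact hay1 ((sub2 vx1 vy1 hc vy1 l14 l3).1 hs hac)
      · exact ha ((sup2 vx1 vy1 vx1 hc l14 l13).1 hs hac)
    have hdis : ∀ {x y : X}, x ∈ V → y ∈ V → x < y → ∀ z, z ∈ St χ (d x) → z ∉ St χ (d y) := by
      intro x y hx hy hxy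
      exact (dis2 vx1 vy1 hx hy l14 hxy).1 hdis0
    -- codes of cells
    have hcode : ∀ x ∈ V, ∃ w : Fin 4 → N, St χ (d x) = CC w := fun x hx =>
      cellFam_N hχ (d x) (hne x hx)
    -- two cells with a common nonempty subset are comparable
    have cmp : ∀ (w w' : Fin 4 → N) (x : X), x ∈ V → St χ (d x) ⊆ CC w → St χ (d x) ⊆ CC w' →
        CC w ⊆ CC w' ∨ CC w' ⊆ CC w := by
      intro w w' x hx hw hw'
      obtain ⟨z, hz⟩ := hne x hx
      exact lam_N (hw hz) (hw' hz)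
    -- contradiction from a nonempty set both inside and disjoint
    have bad : ∀ (w : Fin 4 → N) (x : X), x ∈ V → St χ (d x) ⊆ CC w →
        (∀ z, z ∈ CC w → z ∉ St χ (d x)) → False := by
      intro w x hx hw hw'
      obtain ⟨z, hz⟩ := hne x hx
      exact hw' z (hw hz) hz
    have t : Odd3 (St χ (d x1)) (St χ (d x2)) (St χ (d y1)) ∨
        Odd3 (St χ (d x2)) (St χ (d x1)) (St χ (d y1)) ∨
        Odd3 (St χ (d y1)) (St χ (d x1)) (St χ (d x2)) := by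
      obtain ⟨w0, hw0⟩ := hcode x1 vx1
      obtain ⟨w1, hw1⟩ := hcode x2 vx2
      obtain ⟨w2, hw2⟩ := hcode y1 vy1
      have n0 := hne x1 vx1
      have n1 := hne x2 vx2
      have n2 := hne y1 vy1
      have d01 := hdis vx1 vx2 l1
      have d02 := hdis vx1 vy1 l14
      have d12 := hdis vx2 vy1 l25
      rw [hw0] at n0 d01 d02 ⊢
      rw [hw1] at n1 d01 d12 ⊢
      rw [hw2] at n2 d02 d12 ⊢
      exact t3_N n0 n1 n2 d01 d02 d12
    rcases t with t | t | t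
    · -- the first is odd
      have pat : ∀ {x y z : X}, x ∈ V → y ∈ V → z ∈ V → x < y → y < z →
          Odd3 (St χ (d x)) (St χ (d y)) (St χ (d z)) := by
        intro x y z a1 a2 a3 b1 b2
        exact (odd_inv h1 χ ![x1, x2, y1] ![x, y, z] (three_mem vx1 vx2 vy1) (three_mem a1 a2 a3)
          (three_lt l1 l25 b1 b2) 0 1 2).1 t
      obtain ⟨w, hw1, hw2, hw3⟩ := pat vx1 hc vy1 l13 l3
      have q1 : Odd3 (St χ (d x1)) {a} (St χ (d y1)) :=
        ⟨w, fun z hz => by rw [Set.mem_singleton_iff.1 hz]; exact hw1 hac, hw2, hw3⟩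
      have q2 : Odd3 (St χ (d y1)) {a} (St χ (d y2)) :=
        (odda_inv h2 χ ![x1, y1] ![y1, y2] (two_mem wx1 wy1) (two_mem wy1 wy2)
          (two_lt l14 l4) 0 1).1 q1
      obtain ⟨w, hw1, hw2, hw3⟩ := q2
      obtain ⟨w', hw1', hw2', hw3'⟩ := pat hc vy1 vy2 l3 l4
      rcases cmp w w' y2 vy2 hw2 hw2' with hs | hs
      · exact hw3' a (hs (hw1 rfl)) hac
      · exact bad w y1 vy1 (hw1'.trans hs) hw3
    · -- the middle is odd
      have pat : ∀ {x y z : X}, x ∈ V → y ∈ V → z ∈ V → x < y → y < z →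
          Odd3 (St χ (d y)) (St χ (d x)) (St χ (d z)) := by
        intro x y z a1 a2 a3 b1 b2
        exact (odd_inv h1 χ ![x1, x2, y1] ![x, y, z] (three_mem vx1 vx2 vy1) (three_mem a1 a2 a3)
          (three_lt l1 l25 b1 b2) 1 0 2).1 t
      obtain ⟨w, hw1, hw2, hw3⟩ := pat vx1 vx2 vy1 l1 l25
      obtain ⟨w', hw1', hw2', hw3'⟩ := pat vx1 vy1 vy2 l14 l4
      obtain ⟨w'', hw1'', hw2'', hw3''⟩ := pat vx2 vy1 vy2 l25 l4
      rcases cmp w w' x1 vx1 hw1 hw1' with hs | hs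
      · exact bad w' y1 vy1 (hw2.trans hs) hw3'
      · have e1 : St χ (d y2) ⊆ CC w := hw2'.trans hs
        rcases cmp w w'' y2 vy2 e1 hw2'' with hs' | hs'
        · exact bad w'' y1 vy1 (hw2.trans hs') hw3''
        · exact bad w x2 vx2 (hw1''.trans hs') hw3
    · -- the last is odd
      have pat : ∀ {x y z : X}, x ∈ V → y ∈ V → z ∈ V → x < y → y < z →
          Odd3 (St χ (d z)) (St χ (d x)) (St χ (d y)) := by
        intro x y z a1 a2 a3 b1 b2
        exact (odd_inv h1 χ ![x1, x2, y1] ![x, y, z] (three_mem vx1 vx2 vy1) (three_mem a1 a2 a3)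
          (three_lt l1 l25 b1 b2) 2 0 1).1 t
      obtain ⟨w, hw1, hw2, hw3⟩ := pat vx1 hc vy1 l13 l3
      have q1 : Odd3 (St χ (d y1)) {a} (St χ (d x1)) :=
        ⟨w, fun z hz => by rw [Set.mem_singleton_iff.1 hz]; exact hw2 hac, hw1, hw3⟩
      have q2 : Odd3 (St χ (d x2)) {a} (St χ (d x1)) :=
        (odda_inv h2 χ ![x1, y1] ![x1, x2] (two_mem wx1 wy1) (two_mem wx1 wx2)
          (two_lt l14 l1) 1 0).1 q1
      obtain ⟨w, hw1, hw2, hw3⟩ := q2
      obtain ⟨w', hw1', hw2', hw3'⟩ := pat vx1 vx2 hc l1 l2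
      rcases cmp w w' x1 vx1 hw2 hw1' with hs | hs
      · exact hw3' a (hs (hw1 rfl)) hac
      · exact bad w x2 vx2 (hw2'.trans hs) hw3

end

end Run7.h713
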