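import Pool.Agent.Run7.h713.Chain

/-!
Adding one name to a coherent interpretation.
-/

set_option autoImplicit false

namespace Run7.h713

open FirstOrder FirstOrder.Language

variable {L : FirstOrder.Language.{0, 0}} {N₀ : Type}

theorem extend {D : Set (Nm L N₀)} {N : Type 1} [L.Structure N] [Nonempty N] (ν : Nm L N₀ → N)
    (Q : Set (L.Formula (Nm L N₀)))
    (hQ : ∀ F : Set (L.Formula (Nm L N₀)), F.Finite → F ⊆ Q →
      ∃ v : Nm L N₀ → N, (∀ x ∈ D, v x = ν x) ∧ ∀ φ ∈ F, φ.Realize v) :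
    ∃ (N' : Type 1) (_ : L.Structure N') (_ : Nonempty N') (ν' : Nm L N₀ → N'),
      Ag D ν ν' ∧ ∀ φ ∈ Q, φ.Realize ν' := by
  classical
  obtain ⟨N', h1, h2, ν', hν'⟩ := compactness
    (Q ∪ {ψ | ∃ φ : L.Formula D, ψ = φ.relabel (fun x => x.1) ∧ φ.Realize (fun x => ν x)}) (by
    intro F hF hsub
    obtain ⟨v, hv1, hv2⟩ := hQ (F ∩ Q) (hF.subset Set.inter_subset_left) Set.inter_subset_right
    refine ⟨N, inferInstance, inferInstance, v, fun ψ hψ => ?_⟩
    rcases hsub hψ with h | ⟨φ, rfl, hφ⟩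
    · exact hv2 ψ ⟨hψ, h⟩
    · rw [Formula.realize_relabel]
      have e : (v ∘ fun x : D => x.1) = fun x : D => ν x := by
        funext x
        exact hv1 x.1 x.2
      rw [e]
      exact hφ)
  have key : ∀ φ : L.Formula D, φ.Realize (fun x => ν x) → φ.Realize (fun x => ν' x) := by
    intro φ hφ
    have := hν' (φ.relabel (fun x => x.1)) (Or.inr ⟨φ, rfl, hφ⟩)
    rw [Formula.realize_relabel] at this
    exact this
  refine ⟨N', h1, h2, ν', ?_, fun φ hφ => hν' φ (Or.inl hφ)⟩
  intro φ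
  refine ⟨key φ, fun h => ?_⟩
  by_contra hcon
  have := key φ.not (by rw [Formula.realize_not]; exact hcon)
  rw [Formula.realize_not] at this
  exact this h

theorem extend_hom {D : Set (Nm L N₀)} {N : Type 1} [L.Structure N] [Nonempty N]
    (ν : Nm L N₀ → N) (d : Nm L N₀) (hd : d ∉ D) {P : Type 1} (s t : P → Nm L N₀)
    (hs : ∀ q, s q ∈ D) (ht : ∀ q, t q ∈ D) (a0 : Nm L N₀) (ha0 : a0 ∈ D)
    (hst : ∀ φ : L.Formula P, φ.Realize (fun q => ν (s q)) ↔ φ.Realize (fun q => ν (t q))) :
    ∃ (N' : Type 1) (_ : L.Structure N') (_ : Nonempty N') (ν' : Nm L N₀ → N'),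
      Ag D ν ν' ∧ ∀ φ : L.Formula (P ⊕ Fin 1),
        φ.Realize (Sum.elim (fun q => ν' (s q)) (fun _ => ν' a0)) ↔
          φ.Realize (Sum.elim (fun q => ν' (t q)) (fun _ => ν' d)) := by
  classical
  obtain ⟨N', h1, h2, ν', hag, hQ⟩ := extend ν
    {ψ | ∃ φ : L.Formula (P ⊕ Fin 1), φ.Realize (Sum.elim (fun q => ν (s q)) (fun _ => ν a0)) ∧
      ψ = φ.relabel (Sum.elim t (fun _ => d))} (by
    intro F hF hsub
    choose! u hu1 hu2 using hsub
    obtain ⟨χ, hχ⟩ := exists_ex (u '' F) (hF.image _)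
    have h3 : χ.Realize (fun q => ν (s q)) := by
      rw [hχ]
      refine ⟨ν a0, ?_⟩
      rintro _ ⟨ψ, hψ, rfl⟩
      exact hu1 hψ
    rw [hst, hχ] at h3
    obtain ⟨x, hx⟩ := h3
    refine ⟨Function.update ν d x, ?_, ?_⟩
    · intro y hy
      rw [Function.update_of_ne]
      rintro rfl
      exact hd hy
    · intro ψ hψ
      rw [hu2 hψ, Formula.realize_relabel]
      have e : (Function.update ν d x ∘ Sum.elim t (fun _ => d) : P ⊕ Fin 1 → N) =
          Sum.elim (fun q => ν (t q)) (fun _ => x) := by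
        funext j
        rcases j with j | j
        · show Function.update ν d x (t j) = ν (t j)
          rw [Function.update_of_ne]
          intro hcon
          exact hd (hcon ▸ ht j)
        · show Function.update ν d x d = x
          rw [Function.update_self]
      rw [e]
      exact hx _ ⟨ψ, hψ, rfl⟩)
  refine ⟨N', h1, h2, ν', hag, ?_⟩
  have key : ∀ φ : L.Formula (P ⊕ Fin 1),
      φ.Realize (Sum.elim (fun q => ν' (s q)) (fun _ => ν' a0)) →
        φ.Realize (Sum.elim (fun q => ν' (t q)) (fun _ => ν' d)) := by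
    intro φ hφ
    have h4 := hag.tuple (Sum.elim s (fun _ => a0) : P ⊕ Fin 1 → Nm L N₀) (by
      rintro (j | j)
      · exact hs j
      · exact ha0) φ
    have e1 : (fun j => ν' ((Sum.elim s (fun _ => a0) : P ⊕ Fin 1 → Nm L N₀) j)) =
        Sum.elim (fun q => ν' (s q)) (fun _ => ν' a0) := by
      funext j
      rcases j with j | j <;> rfl
    have e2 : (fun j => ν ((Sum.elim s (fun _ => a0) : P ⊕ Fin 1 → Nm L N₀) j)) =
        Sum.elim (fun q => ν (s q)) (fun _ => ν a0) := by
      funext j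
      rcases j with j | j <;> rfl
    rw [e1, e2] at h4
    have h5 := hQ _ ⟨φ, h4.2 hφ, rfl⟩
    rw [Formula.realize_relabel] at h5
    have e3 : (ν' ∘ Sum.elim t (fun _ => d) : P ⊕ Fin 1 → N') =
        Sum.elim (fun q => ν' (t q)) (fun _ => ν' d) := by
      funext j
      rcases j with j | j <;> rfl
    rw [e3] at h5
    exact h5
  intro φ
  refine ⟨key φ, fun h => ?_⟩
  by_contra hcon
  have := key φ.not (by rw [Formula.realize_not]; exact hcon)
  rw [Formula.realize_not] at this
  exact this h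

/-- The immediate subterms of a name lie in `D`. -/
def Sub (D : Set (Nm L N₀)) : Nm L N₀ → Prop
  | Nm.base _ => True
  | Nm.real _ f _ => ∀ i, f i ∈ D
  | Nm.fwd _ f g d => (∀ i, f i ∈ D) ∧ (∀ i, g i ∈ D) ∧ d ∈ D
  | Nm.bwd _ f g d => (∀ i, f i ∈ D) ∧ (∀ i, g i ∈ D) ∧ d ∈ D

variable [L.Structure N₀]

theorem coh_insert {S : St L N₀} (hS : Coh S) (d : Nm L N₀) (hsub : Sub S.D d) {N' : Type 1}
    [L.Structure N'] [Nonempty N'] (ν' : Nm L N₀ → N') (hag : Ag S.D S.ν ν')
    (hreal : ∀ (I : Type) (f : I → Nm L N₀) (p : Set (L.Formula (I ⊕ Fin 1))),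
      d = Nm.real I f p → FS (fun i => ν' (f i)) p →
        ∀ φ ∈ p, φ.Realize (Sum.elim (fun i => ν' (f i)) (fun _ => ν' d)))
    (hfwd : ∀ (I : Type) (f g : I → Nm L N₀) (a : Nm L N₀), d = Nm.fwd I f g a →
      Same ν' f g → Hm (insert d S.D) ν' f g)
    (hbwd : ∀ (I : Type) (f g : I → Nm L N₀) (a : Nm L N₀), d = Nm.bwd I f g a →
      Same ν' f g → Hm (insert d S.D) ν' f g) :
    Coh (⟨insert d S.D, N', inferInstance, inferInstance, ν'⟩ : St L N₀) := by
  classical
  refine ⟨⟨?_, ?_, ?_⟩, ?_, ?_, ?_, ?_⟩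
  · intro I f p h i
    rcases h with h | h
    · rw [← h] at hsub
      exact Set.mem_insert_of_mem _ (hsub i)
    · exact Set.mem_insert_of_mem _ (hS.closed.real_mem h i)
  · intro I f g a h
    rcases h with h | h
    · rw [← h] at hsub
      exact ⟨fun i => Set.mem_insert_of_mem _ (hsub.1 i), fun i => Set.mem_insert_of_mem _
        (hsub.2.1 i), Set.mem_insert_of_mem _ hsub.2.2⟩
    · have := hS.closed.fwd_mem h
      exact ⟨fun i => Set.mem_insert_of_mem _ (this.1 i), fun i => Set.mem_insert_of_mem _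
        (this.2.1 i), Set.mem_insert_of_mem _ this.2.2⟩
  · intro I f g a h
    rcases h with h | h
    · rw [← h] at hsub
      exact ⟨fun i => Set.mem_insert_of_mem _ (hsub.1 i), fun i => Set.mem_insert_of_mem _
        (hsub.2.1 i), Set.mem_insert_of_mem _ hsub.2.2⟩
    · have := hS.closed.bwd_mem h
      exact ⟨fun i => Set.mem_insert_of_mem _ (this.1 i), fun i => Set.mem_insert_of_mem _
        (this.2.1 i), Set.mem_insert_of_mem _ this.2.2⟩
  · intro n
    exact Set.mem_insert_of_mem _ (hS.base_mem n)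
  · intro φ
    rw [← hS.base_iff φ]
    exact (hag.tuple _ (fun n => hS.base_mem n) φ).symm
  · intro I f p h hFS φ hφ
    rcases h with h | h
    · rw [h]
      exact hreal I f p h.symm hFS φ hφ
    · have hf := hS.closed.real_mem h
      have h1 := hS.real_ok f p h (FS.congr (fun φ => (hag.tuple f hf φ).symm) hFS) φ hφ
      rw [← realize_real] at h1 ⊢
      refine (hag.tuple (Sum.elim f (fun _ => Nm.real I f p)) ?_ φ).1 h1
      rintro (j | j)
      · exact hf j
      · exact h
  · intro I f g hf hg hs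
    show Hm (insert d S.D) ν' f g
    by_cases c1 : ∃ a, d = Nm.fwd I f g a
    · obtain ⟨a, ha⟩ := c1
      exact hfwd I f g a ha hs
    by_cases c2 : ∃ a, d = Nm.bwd I f g a
    · obtain ⟨a, ha⟩ := c2
      exact hbwd I f g a ha hs
    -- all the pairs are old
    have hold : ∀ a b, Sg (insert d S.D) f g a b → Sg S.D f g a b := by
      rintro a b (h | ⟨h1, h2⟩ | ⟨h1, h2⟩)
      · exact Or.inl h
      · rcases h2 with h2 | h2
        · exact absurd ⟨a, h2.symm.trans h1⟩ c1
        · exact Or.inr (Or.inl ⟨h1, h2⟩)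
      · rcases h2 with h2 | h2
        · exact absurd ⟨b, h2.symm.trans h1⟩ c2
        · exact Or.inr (Or.inr ⟨h1, h2⟩)
    by_cases hD : (∀ i, f i ∈ S.D) ∧ ∀ i, g i ∈ S.D
    · have hsame : Same S.ν f g := by
        intro φ
        rw [hag.tuple f hD.1, hag.tuple g hD.2]
        exact hs φ
      intro φ
      have h3 := (hS.hom_ok f g hD.1 hD.2 hsame).tuple (fun q : {q : Nm L N₀ × Nm L N₀ //
        Sg (insert d S.D) f g q.1 q.2} => q.1.1) (fun q => q.1.2) (fun q => hold _ _ q.2) φ
      rw [hag.tuple (fun q : {q : Nm L N₀ × Nm L N₀ // Sg (insert d S.D) f g q.1 q.2} => q.1.1)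
          (fun q => (Sg.mem hS.closed hD.1 hD.2 (hold _ _ q.2)).1),
        hag.tuple (fun q : {q : Nm L N₀ × Nm L N₀ // Sg (insert d S.D) f g q.1 q.2} => q.1.2)
          (fun q => (Sg.mem hS.closed hD.1 hD.2 (hold _ _ q.2)).2)] at h3
      exact h3
    · have key : ∀ q : {q : Nm L N₀ × Nm L N₀ // Sg (insert d S.D) f g q.1 q.2},
          ∃ i, q.1.1 = f i ∧ q.1.2 = g i := by
        intro q
        rcases hold _ _ q.2 with h | ⟨h1, h2⟩ | ⟨h1, h2⟩
        · exact h
        · rw [h1] at h2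
          have := hS.closed.fwd_mem h2
          exact absurd ⟨this.1, this.2.1⟩ hD
        · rw [h1] at h2
          have := hS.closed.bwd_mem h2
          exact absurd ⟨this.1, this.2.1⟩ hD
      choose t ht1 ht2 using key
      intro φ
      have := hs (φ.relabel t)
      rw [Formula.realize_relabel, Formula.realize_relabel] at this
      simp only [ht1, ht2]
      exact this

end Run7.h713
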