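import Pool.Agent.Run7.h713.Sep2
import Pool.Agent.Run7.h713.Defs

/-!
First-order properties of the structure of words, transferred to an elementary extension.
-/

set_option autoImplicit false

namespace Run7.h713

open FirstOrder FirstOrder.Language

section

variable {U : Type 1} [Lw.Structure U] (i : Wd ↪ₑ[Lw] U)

include i

theorem tr_all {α β : Type} [Finite β] (χ : Lw.Formula (α ⊕ β)) (a : α → Wd)
    (h : ∀ v : β → Wd, χ.Realize (Sum.elim a v)) (v : β → U) :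
    χ.Realize (Sum.elim (i ∘ a) v) := by
  have h1 : (χ.iAlls β).Realize a := Formula.realize_iAlls.2 h
  have h2 := (i.map_formula (χ.iAlls β) a).2 h1
  exact (Formula.realize_iAlls.1 h2) v

theorem tr_rr (a b c d : Wd) : RR (i a) (i b) (i c) (i d) ↔ XR a b c d := by
  have h := i.map_formula (Rf (0 : Fin 4) 1 2 3) ![a, b, c, d]
  rw [realize_Rf, realize_Rf] at h
  exact h

/-- lengths are linearly ordered -/
theorem tr_total (a b : U) : RR a a b b ∨ RR b b a a := by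
  have h := tr_all i (α := Empty) (β := Fin 2)
    (Rf (Sum.inr 0) (Sum.inr 0) (Sum.inr 1) (Sum.inr 1) ⊔
      Rf (Sum.inr 1) (Sum.inr 1) (Sum.inr 0) (Sum.inr 0)) Empty.elim (by
    intro v
    rw [Formula.realize_sup, realize_Rf, realize_Rf]
    simp only [Sum.elim_inr, RR_wd, xr_lev]
    exact le_total _ _) ![a, b]
  rw [Formula.realize_sup, realize_Rf, realize_Rf] at h
  exact h

theorem tr_trans {a b c : U} (h1 : RR a a b b) (h2 : RR b b c c) : RR a a c c := by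
  have h := tr_all i (α := Empty) (β := Fin 3)
    ((Rf (Sum.inr 0) (Sum.inr 0) (Sum.inr 1) (Sum.inr 1)).imp
      ((Rf (Sum.inr 1) (Sum.inr 1) (Sum.inr 2) (Sum.inr 2)).imp
        (Rf (Sum.inr 0) (Sum.inr 0) (Sum.inr 2) (Sum.inr 2)))) Empty.elim (by
    intro v
    rw [Formula.realize_imp, Formula.realize_imp, realize_Rf, realize_Rf, realize_Rf]
    simp only [Sum.elim_inr, RR_wd, xr_lev]
    exact fun h1 h2 => le_trans h1 h2) ![a, b, c]
  rw [Formula.realize_imp, Formula.realize_imp, realize_Rf, realize_Rf, realize_Rf] at h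
  exact h h1 h2

omit i in
/-- The words `1000...`. -/
def wn (n : ℕ) : Wd := cw n (fun j => decide (j = 0))

omit i in
theorem eps_false : eps false = zw 1 := by
  ext j
  · rfl
  · simp [eps, cw, zw]

omit i in
theorem eps_true : eps true = wn 1 := by
  ext j
  · rfl
  · simp [eps, cw, wn]

omit i in
theorem xr_wn (n : ℕ) (x y : Wd) : XR (zw n) (wn n) x y ↔
    x.len = y.len ∧ n ≤ x.len ∧ ∀ j < n, (x.dig j ^^ y.dig j) = decide (j = 0) :=
  xr_node n _ x y

theorem tr_mono {n n' : ℕ} (hn : n ≤ n') {x y : U} (h : RR (i (zw n')) (i (wn n')) x y) :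
    RR (i (zw n)) (i (wn n)) x y := by
  have h1 := tr_all i (α := Fin 4) (β := Fin 2)
    ((Rf (Sum.inl 0) (Sum.inl 1) (Sum.inr 0) (Sum.inr 1)).imp
      (Rf (Sum.inl 2) (Sum.inl 3) (Sum.inr 0) (Sum.inr 1))) ![zw n', wn n', zw n, wn n] (by
    intro v
    rw [Formula.realize_imp, realize_Rf, realize_Rf]
    show XR (zw n') (wn n') (v 0) (v 1) → XR (zw n) (wn n) (v 0) (v 1)
    rw [xr_wn, xr_wn]
    rintro ⟨e1, e2, e3⟩
    exact ⟨e1, by omega, fun j hj => e3 j (by omega)⟩) ![x, y]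
  rw [Formula.realize_imp, realize_Rf, realize_Rf] at h1
  exact h1 h

/-- short nodes do not separate -/
theorem tr_short {n : ℕ} {u u' x y x' y' : U} (hu : RR u u (i (zw n)) (i (zw n)))
    (h : RR (i (zw n)) (i (wn n)) x y) (h' : RR (i (zw n)) (i (wn n)) x' y') :
    RR u u' x y ↔ RR u u' x' y' := by
  have h1 := tr_all i (α := Fin 2) (β := Fin 6)
    ((Rf (Sum.inr 0) (Sum.inr 0) (Sum.inl 0) (Sum.inl 0)).imp
      ((Rf (Sum.inl 0) (Sum.inl 1) (Sum.inr 2) (Sum.inr 3)).imp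
        ((Rf (Sum.inl 0) (Sum.inl 1) (Sum.inr 4) (Sum.inr 5)).imp
          ((Rf (Sum.inr 0) (Sum.inr 1) (Sum.inr 2) (Sum.inr 3)).iff
            (Rf (Sum.inr 0) (Sum.inr 1) (Sum.inr 4) (Sum.inr 5)))))) ![zw n, wn n] (by
    intro v
    rw [Formula.realize_imp, Formula.realize_imp, Formula.realize_imp, Formula.realize_iff,
      realize_Rf, realize_Rf, realize_Rf, realize_Rf, realize_Rf]
    show XR (v 0) (v 0) (zw n) (zw n) → XR (zw n) (wn n) (v 2) (v 3) →
      XR (zw n) (wn n) (v 4) (v 5) → (XR (v 0) (v 1) (v 2) (v 3) ↔ XR (v 0) (v 1) (v 4) (v 5))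
    rw [xr_lev, xr_wn, xr_wn]
    rintro e0 ⟨e1, e2, e3⟩ ⟨e4, e5, e6⟩
    have e0' : (v 0).len ≤ n := e0
    constructor
    · rintro ⟨f1, f2, f3, f4⟩
      refine ⟨f1, e4, by omega, fun j hj => ?_⟩
      rw [f4 j hj, e3 j (by omega), e6 j (by omega)]
    · rintro ⟨f1, f2, f3, f4⟩
      refine ⟨f1, e1, by omega, fun j hj => ?_⟩
      rw [f4 j hj, e3 j (by omega), e6 j (by omega)]) ![u, u', x, y, x', y']
  rw [Formula.realize_imp, Formula.realize_imp, Formula.realize_imp, Formula.realize_iff,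
    realize_Rf, realize_Rf, realize_Rf, realize_Rf, realize_Rf] at h1
  exact h1 hu h h'

omit i in
theorem wd_avoid (n k : ℕ) (e : Wd) (u u' : Fin k → Wd)
    (hu : ∀ j, XR (zw (n + k)) (zw (n + k)) (u j) (u j)) :
    ∃ x y : Wd, XR e e x x ∧ XR (zw n) (wn n) x y ∧ ∀ j, ¬ XR (u j) (u' j) x y := by
  refine ⟨zw (e.len + (n + k)), cw (e.len + (n + k)) (fun j => if j < n then decide (j = 0) else
    if h : j - n < k then !((u ⟨j - n, h⟩).dig j ^^ (u' ⟨j - n, h⟩).dig j) else false), ?_, ?_, ?_⟩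
  · rw [xr_lev]
    show e.len ≤ e.len + (n + k)
    omega
  · rw [xr_wn]
    refine ⟨rfl, ?_, ?_⟩
    · show n ≤ e.len + (n + k)
      omega
    · intro j hj
      rw [cw_dig (by omega)]
      simp [zw, hj]
  · intro j hcon
    have h1 := hu j
    rw [xr_lev] at h1
    have h1' : n + k ≤ (u j).len := h1
    have h2 := hcon.2.2.2 (n + j) (by omega)
    rw [cw_dig (by omega)] at h2
    have h3 : ¬ n + (j : ℕ) < n := by omega
    have h4 : n + (j : ℕ) - n < k := by omega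
    have h5 : (⟨n + (j : ℕ) - n, h4⟩ : Fin k) = j := by
      ext
      simp
    simp only [zw, h3, if_false, h4, dif_pos, h5, Bool.false_xor] at h2
    revert h2
    cases (u j).dig (n + j) <;> cases (u' j).dig (n + j) <;> simp

theorem tr_avoid (n k : ℕ) (e : U) (u u' : Fin k → U)
    (hu : ∀ j, RR (i (zw (n + k))) (i (zw (n + k))) (u j) (u j)) :
    ∃ x y : U, RR e e x x ∧ RR (i (zw n)) (i (wn n)) x y ∧ ∀ j, ¬ RR (u j) (u' j) x y := by
  classical
  -- variables: parameters `Fin 3`, then `Unit ⊕ (Fin k ⊕ Fin k)`, then `Fin 2`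
  let A := Fin 3 ⊕ (Unit ⊕ (Fin k ⊕ Fin k))
  let ψ : Lw.Formula (A ⊕ Fin 2) :=
    (Rf (Sum.inl (Sum.inr (Sum.inl ()))) (Sum.inl (Sum.inr (Sum.inl ()))) (Sum.inr 0) (Sum.inr 0))
      ⊓ ((Rf (Sum.inl (Sum.inl 0)) (Sum.inl (Sum.inl 1)) (Sum.inr 0) (Sum.inr 1)) ⊓
        Formula.iInf (fun j : Fin k => (Rf (Sum.inl (Sum.inr (Sum.inr (Sum.inl j))))
          (Sum.inl (Sum.inr (Sum.inr (Sum.inr j)))) (Sum.inr 0) (Sum.inr 1)).not))
  let χ : Lw.Formula A :=
    (Formula.iInf (fun j : Fin k => Rf (Sum.inl 2) (Sum.inl 2) (Sum.inr (Sum.inr (Sum.inl j)))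
      (Sum.inr (Sum.inr (Sum.inl j))))).imp (ψ.iExs (Fin 2))
  have h := tr_all i χ ![zw n, wn n, zw (n + k)] (by
    intro v
    show Formula.Realize ((Formula.iInf _).imp _) _
    rw [Formula.realize_imp, Formula.realize_iInf, Formula.realize_iExs]
    intro h1
    obtain ⟨x, y, hx, hxy, hW⟩ := wd_avoid n k (v (Sum.inl ())) (fun j => v (Sum.inr (Sum.inl j)))
      (fun j => v (Sum.inr (Sum.inr j))) (fun j => by
        have := h1 j
        rw [realize_Rf] at this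
        exact this)
    refine ⟨![x, y], ?_⟩
    show Formula.Realize (_ ⊓ (_ ⊓ Formula.iInf _)) _
    rw [Formula.realize_inf, Formula.realize_inf, Formula.realize_iInf, realize_Rf, realize_Rf]
    refine ⟨hx, hxy, fun j => ?_⟩
    rw [Formula.realize_not, realize_Rf]
    exact hW j) (Sum.elim (fun _ => e) (Sum.elim u u'))
  have h' : Formula.Realize ((Formula.iInf (fun j : Fin k => Rf (Sum.inl 2) (Sum.inl 2)
    (Sum.inr (Sum.inr (Sum.inl j))) (Sum.inr (Sum.inr (Sum.inl j))))).imp (ψ.iExs (Fin 2)))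
      (Sum.elim (i ∘ ![zw n, wn n, zw (n + k)]) (Sum.elim (fun _ => e) (Sum.elim u u')) : A → U) := h
  rw [Formula.realize_imp, Formula.realize_iInf, Formula.realize_iExs] at h'
  obtain ⟨v, hv⟩ := h' (fun j => by
    rw [realize_Rf]
    exact hu j)
  have hv' : Formula.Realize (_ ⊓ (_ ⊓ Formula.iInf _)) _ := hv
  rw [Formula.realize_inf, Formula.realize_inf, Formula.realize_iInf, realize_Rf, realize_Rf] at hv'
  refine ⟨v 0, v 1, hv'.1, hv'.2.1, fun j => ?_⟩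
  have := hv'.2.2 j
  rw [Formula.realize_not, realize_Rf] at this
  exact this

end

section

variable {m : ℕ}

/-- the variables of the formula below: the words `0` and `1`, the parameters `c`, the bound `e`
and the nodes `u`, `u'` -/
abbrev SepV (m C : ℕ) : Type := (Fin 2 ⊕ Fin m) ⊕ (Unit ⊕ (Fin C ⊕ Fin C))

/-- renaming of variables -/
def r1 (m C : ℕ) : Fin 2 ⊕ Fin m → SepV m C ⊕ Fin 4 :=
  Sum.elim (fun j => Sum.inr (![0, 1] j)) (fun j => Sum.inl (Sum.inl (Sum.inr j)))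

/-- renaming of variables -/
def r2 (m C : ℕ) : Fin 2 ⊕ Fin m → SepV m C ⊕ Fin 4 :=
  Sum.elim (fun j => Sum.inr (![2, 3] j)) (fun j => Sum.inl (Sum.inl (Sum.inr j)))

/-- the statement of `sep2` as a formula -/
noncomputable def sepF (ψ : Lw.Formula (Fin 2 ⊕ Fin m)) (C : ℕ) :
    Lw.Formula (SepV m C ⊕ Fin 4) :=
  (Rf (Sum.inl (Sum.inr (Sum.inl ()))) (Sum.inl (Sum.inr (Sum.inl ()))) (Sum.inr 0)
    (Sum.inr 0)).imp
  ((Rf (Sum.inl (Sum.inr (Sum.inl ()))) (Sum.inl (Sum.inr (Sum.inl ()))) (Sum.inr 2)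
    (Sum.inr 2)).imp
  ((Rf (Sum.inl (Sum.inl (Sum.inl 0))) (Sum.inl (Sum.inl (Sum.inl 1))) (Sum.inr 0)
    (Sum.inr 1)).imp
  ((Rf (Sum.inl (Sum.inl (Sum.inl 0))) (Sum.inl (Sum.inl (Sum.inl 1))) (Sum.inr 2)
    (Sum.inr 3)).imp
  ((Formula.iInf (fun j : Fin C =>
    (Rf (Sum.inl (Sum.inr (Sum.inr (Sum.inl j)))) (Sum.inl (Sum.inr (Sum.inr (Sum.inr j))))
      (Sum.inr 0) (Sum.inr 1)).iff
    (Rf (Sum.inl (Sum.inr (Sum.inr (Sum.inl j)))) (Sum.inl (Sum.inr (Sum.inr (Sum.inr j))))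
      (Sum.inr 2) (Sum.inr 3)))).imp
    ((ψ.relabel (r1 m C)).iff (ψ.relabel (r2 m C)))))))

theorem realize_sepF {V : Type*} [Lw.Structure V] (ψ : Lw.Formula (Fin 2 ⊕ Fin m)) (C : ℕ)
    (e0 e1 : V) (c : Fin m → V) (e' : V) (w w' : Fin C → V) (v : Fin 4 → V) :
    (sepF ψ C).Realize (Sum.elim (Sum.elim (Sum.elim ![e0, e1] c)
      (Sum.elim (fun _ => e') (Sum.elim w w'))) v) ↔
    (RR e' e' (v 0) (v 0) → RR e' e' (v 2) (v 2) → RR e0 e1 (v 0) (v 1) →
      RR e0 e1 (v 2) (v 3) → (∀ j, RR (w j) (w' j) (v 0) (v 1) ↔ RR (w j) (w' j) (v 2) (v 3)) →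
      (ψ.Realize (Sum.elim ![v 0, v 1] c) ↔ ψ.Realize (Sum.elim ![v 2, v 3] c))) := by
  unfold sepF
  rw [Formula.realize_imp, Formula.realize_imp, Formula.realize_imp, Formula.realize_imp,
    Formula.realize_imp, Formula.realize_iInf, Formula.realize_iff, Formula.realize_relabel,
    Formula.realize_relabel, realize_Rf, realize_Rf, realize_Rf, realize_Rf]
  have f1 : (Sum.elim (Sum.elim (Sum.elim ![e0, e1] c)
      (Sum.elim (fun _ => e') (Sum.elim w w'))) v) ∘ (r1 m C) = Sum.elim ![v 0, v 1] c := by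
    funext a
    rcases a with a | a
    · fin_cases a <;> rfl
    · rfl
  have f2 : (Sum.elim (Sum.elim (Sum.elim ![e0, e1] c)
      (Sum.elim (fun _ => e') (Sum.elim w w'))) v) ∘ (r2 m C) = Sum.elim ![v 2, v 3] c := by
    funext a
    rcases a with a | a
    · fin_cases a <;> rfl
    · rfl
  rw [f1, f2]
  simp only [Formula.realize_iff, realize_Rf]
  rfl

end

theorem tr_sep2 {U : Type 1} [Lw.Structure U] (i : Wd ↪ₑ[Lw] U) {m : ℕ}
    (ψ : Lw.Formula (Fin 2 ⊕ Fin m)) : ∃ C : ℕ, ∀ c : Fin m → U,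
    ∃ (e : U) (u u' : Fin C → U), ∀ x y x' y' : U, RR e e x x → RR e e x' x' →
      RR (i (zw 1)) (i (wn 1)) x y → RR (i (zw 1)) (i (wn 1)) x' y' →
      (∀ j, RR (u j) (u' j) x y ↔ RR (u j) (u' j) x' y') →
        (ψ.Realize (Sum.elim ![x, y] c) ↔ ψ.Realize (Sum.elim ![x', y'] c)) := by
  classical
  obtain ⟨C, hC⟩ := sep2 ψ
  refine ⟨C, fun c => ?_⟩
  let χ1 : Lw.Formula (SepV m C) := (sepF ψ C).iAlls (Fin 4)
  let χ2 : Lw.Formula (Fin 2 ⊕ Fin m) := χ1.iExs (Unit ⊕ (Fin C ⊕ Fin C))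
  have h := tr_all i χ2 ![zw 1, wn 1] (by
    intro c
    show (Formula.iExs _ χ1).Realize _
    rw [Formula.realize_iExs]
    obtain ⟨e, u, u', hu⟩ := hC c
    refine ⟨Sum.elim (fun _ => e) (Sum.elim u u'), ?_⟩
    show (Formula.iAlls _ (sepF ψ C)).Realize _
    rw [Formula.realize_iAlls]
    intro v
    refine (realize_sepF ψ C (zw 1) (wn 1) c e u u' v).2 ?_
    intro h1 h2 h3 h4 h5
    rw [← eps_false, ← eps_true] at h3 h4
    exact hu (v 0) (v 1) (v 2) (v 3) h1 h2 h3 h4 h5) c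
  have h2 : (Formula.iExs _ χ1).Realize (Sum.elim (i ∘ ![zw 1, wn 1]) c) := h
  rw [Formula.realize_iExs] at h2
  obtain ⟨w, hw⟩ := h2
  have h3 : (Formula.iAlls _ (sepF ψ C)).Realize (Sum.elim (Sum.elim (i ∘ ![zw 1, wn 1]) c) w) := hw
  rw [Formula.realize_iAlls] at h3
  refine ⟨w (Sum.inl ()), fun j => w (Sum.inr (Sum.inl j)), fun j => w (Sum.inr (Sum.inr j)), ?_⟩
  intro x y x' y' k1 k2 k3 k4 k5
  have h4 := h3 ![x, y, x', y']
  have e1 : (i ∘ ![zw 1, wn 1] : Fin 2 → U) = ![i (zw 1), i (wn 1)] := by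
    funext a
    fin_cases a <;> rfl
  have e2 : w = Sum.elim (fun _ => w (Sum.inl ())) (Sum.elim (fun j => w (Sum.inr (Sum.inl j)))
      (fun j => w (Sum.inr (Sum.inr j)))) := by
    funext a
    rcases a with a | a | a <;> rfl
  rw [e1, e2] at h4
  exact (realize_sepF ψ C _ _ c _ _ _ ![x, y, x', y']).1 h4 k1 k2 k3 k4 k5

end Run7.h713
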