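import Mathlib

/-!
Finite binary words with the quaternary relation `R(a,b,c,d)`: `|a| = |b|`, `|c| = |d|` and the
bitwise sum `a + b` is an initial segment of `c + d`.
-/

set_option autoImplicit false

namespace Run7.h713

open FirstOrder FirstOrder.Language

/-- The relation symbols: one quaternary symbol. -/
inductive Rel4 : ℕ → Type
  | r : Rel4 4

/-- The language with one quaternary relation symbol. -/
def Lw : FirstOrder.Language.{0, 0} := ⟨fun _ => Empty, Rel4⟩

/-- A finite binary word of length `len`; the digits beyond the length are `false`. -/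
@[ext] structure Wd where
  len : ℕ
  dig : ℕ → Bool
  sup : ∀ i, len ≤ i → dig i = false

/-- `|a| = |b|`, `|c| = |d|` and `a + b` is an initial segment of `c + d`. -/
def XR (a b c d : Wd) : Prop :=
  a.len = b.len ∧ c.len = d.len ∧ a.len ≤ c.len ∧
    ∀ i < a.len, (a.dig i ^^ b.dig i) = (c.dig i ^^ d.dig i)

instance : Lw.Structure Wd where
  funMap := fun f => (f : Empty).elim
  RelMap := fun {_} s => match s with
    | Rel4.r => fun xs => XR (xs 0) (xs 1) (xs 2) (xs 3)

/-- the relation symbol -/
def rs : Lw.Relations 4 := Rel4.r

/-- The relation in an arbitrary structure. -/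
def RR {U : Type*} [Lw.Structure U] (a b c d : U) : Prop := Structure.RelMap rs ![a, b, c, d]

theorem RR_wd (a b c d : Wd) : RR a b c d ↔ XR a b c d := Iff.rfl

/-- atomic formula -/
def Rf {α : Type*} (a b c d : α) : Lw.Formula α :=
  rs.formula ![Term.var a, Term.var b, Term.var c, Term.var d]

@[simp] theorem realize_Rf {U : Type*} [Lw.Structure U] {α : Type*} (a b c d : α) (v : α → U) :
    (Rf a b c d).Realize v ↔ RR (v a) (v b) (v c) (v d) := by
  unfold Rf RR
  rw [Formula.realize_rel]
  have : (fun i => (![Term.var a, Term.var b, Term.var c, Term.var d] i : Lw.Term α).realize v)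
      = ![v a, v b, v c, v d] := by
    funext i
    fin_cases i <;> rfl
  rw [this]

/-- an automorphism from an involution preserving `XR` -/
def mkAut (f : Wd → Wd) (hf : ∀ x, f (f x) = x)
    (hR : ∀ a b c d, XR a b c d → XR (f a) (f b) (f c) (f d)) : Wd ≃[Lw] Wd where
  toFun := f
  invFun := f
  left_inv := hf
  right_inv := hf
  map_fun' := fun {_} g => (g : Empty).elim
  map_rel' := by
    intro n s xs
    cases s
    constructor
    · intro h
      have h2 := hR _ _ _ _ h
      simp only [Function.comp, hf] at h2
      exact h2
    · intro h
      exact hR _ _ _ _ h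

/-- The shear automorphism: add `t` (supported beyond `α`) to all words whose digit at `α` is 1. -/
def shearFun (α : ℕ) (t : ℕ → Bool) (x : Wd) : Wd where
  len := x.len
  dig := fun i => x.dig i ^^ (x.dig α && t i && decide (i < x.len))
  sup := fun i hi => by
    have h1 : ¬ i < x.len := by omega
    simp [x.sup i hi, h1]

def shear (α : ℕ) (t : ℕ → Bool) (ht : ∀ i ≤ α, t i = false) : Wd ≃[Lw] Wd :=
  mkAut (shearFun α t)
    (by
      intro x
      ext i
      · rfl
      · simp only [shearFun]
        rw [ht α le_rfl]
        by_cases e1 : i < x.len <;> by_cases e2 : α < x.len <;>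
          cases x.dig i <;> cases x.dig α <;> cases t i <;> simp [e1, e2])
    (by
      rintro a b c d ⟨h1, h2, h3, h4⟩
      refine ⟨h1, h2, h3, ?_⟩
      intro i hi
      have hi' : i < a.len := hi
      have hb : i < b.len := by omega
      have hc : i < c.len := by omega
      have hd : i < d.len := by omega
      simp only [shearFun, hi', hb, hc, hd, decide_true, Bool.and_true]
      by_cases hti : t i = true
      · have hα : α < i := by
          by_contra hcon
          have := ht i (by omega)
          rw [this] at hti
          exact absurd hti (by simp)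
        have e1 := h4 i hi'
        have e2 := h4 α (by omega)
        rw [hti]
        revert e1 e2
        cases a.dig i <;> cases b.dig i <;> cases c.dig i <;> cases d.dig i <;>
          cases a.dig α <;> cases b.dig α <;> cases c.dig α <;> cases d.dig α <;> simp
      · have hti' : t i = false := by simpa using hti
        rw [hti']
        simpa using h4 i hi')

theorem shear_len (α : ℕ) (t : ℕ → Bool) (ht) (x : Wd) : (shear α t ht x).len = x.len := rfl

theorem shear_dig (α : ℕ) (t : ℕ → Bool) (ht) (x : Wd) (i : ℕ) :
    (shear α t ht x).dig i = (x.dig i ^^ (x.dig α && t i && decide (i < x.len))) := rfl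

/-- Translation at the level of `w`. -/
def transFun (w x : Wd) : Wd where
  len := x.len
  dig := fun i => x.dig i ^^ (decide (x.len = w.len) && w.dig i)
  sup := fun i hi => by
    by_cases h : x.len = w.len
    · simp [x.sup i hi, w.sup i (by omega)]
    · simp [x.sup i hi, h]

def trans (w : Wd) : Wd ≃[Lw] Wd :=
  mkAut (transFun w)
    (by
      intro x
      ext i
      · rfl
      · simp only [transFun]
        by_cases e1 : x.len = w.len <;> cases x.dig i <;> cases w.dig i <;> simp [e1])
    (by
      rintro a b c d ⟨h1, h2, h3, h4⟩
      refine ⟨h1, h2, h3, ?_⟩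
      intro i hi
      have e1 := h4 i hi
      simp only [transFun, ← h1, ← h2]
      revert e1
      cases a.dig i <;> cases b.dig i <;> cases c.dig i <;> cases d.dig i <;>
        cases w.dig i <;> cases (decide (a.len = w.len)) <;> cases (decide (c.len = w.len)) <;>
        simp)

theorem trans_len (w x : Wd) : (trans w x).len = x.len := rfl

theorem trans_dig (w x : Wd) (i : ℕ) :
    (trans w x).dig i = (x.dig i ^^ (decide (x.len = w.len) && w.dig i)) := rfl

theorem realize_aut {α : Type*} (g : Wd ≃[Lw] Wd) (φ : Lw.Formula α) (v : α → Wd) :
    φ.Realize (fun a => g (v a)) ↔ φ.Realize v :=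
  StrongHomClass.realize_formula g φ

end Run7.h713
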